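import Pool.Agent.Helper70.SEY.Grid
import Pool.Agent.Helper71.SEYApi

/-!
LV-9 (project SEY, block LEVEL): the `W`-structures of `M` and of `M.dual` are disjoint.

`W = {a i, b i}`: cycles `{a i}`, `{b i}`, rows `{a i, b i, a j, b j}` of `M`.  `W' = {y i, z i}` is a
`W`-structure of `M.dual`, i.e. `{y i}`, `{z i}` are rows of `M` (they are orthogonal to all cycles;
use `BM.dual_dual`), `{y i, z i, y j, z j}` are cycles of `M`.
Encode the coincidences: enumerate `W` as `u : Fin 6 -> E` (`u = ![a 0, a 1, a 2, b 0, b 1, b 2]`) and `W'` as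
`u' : Fin 6 -> E` (`![y 0, y 1, y 2, z 0, z 1, z 2]`), and define `m : Fin 6 -> Fin 7` by `m j = i` if
`u' j = u i` and `m j = 6` if `u' j` is not in `W`.  `m` is injective away from the value 6.
Every row is orthogonal to every cycle:
 (P1) for each row `{u i : i in I}`, `I` one of `{0,3,1,4}, {0,3,2,5}, {1,4,2,5}`, and each cycle
      `{u' j : j in J}`, `J` one of the same three sets: `#{j in J : m j in I}` is even;
 (P2) for each row `{u' j : j in J}`, `J = {0,1,2}` or `{3,4,5}`, and each cycle `{u i : i in I}`,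
      `I = {0,1,2}` or `{3,4,5}`: `#{j in J : m j in I}` is even.
FINITE CHECK (computer: 108 solutions `m` besides the constant 6): if `m` is not constant 6 and satisfies
(P1), (P2) and injectivity then exactly four `m j` are different from 6 (so `W cup W'` has 8
elements), and the four rows `R1 = {u 0, u 3, u 1, u 4}`, `R2 = {u 0, u 3, u 2, u 5}`, `R3 = {u' 0, u' 1, u' 2}`,
`R4 = {u' 3, u' 4, u' 5}` are independent and the four cycles `{u 0, u 1, u 2}`, `{u 3, u 4, u 5}`,
`{u' 0, u' 3, u' 1, u' 4}`, `{u' 0, u' 3, u' 2, u' 5}` are independent (as subsets of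
`Fin 6 + {j : m j = 6}`).  This can be decided by the kernel: choose `(m 0, m 1, m 2)` first
(343 cases, (P2) for `J = {0,1,2}`), then `(m 3, m 4, m 5)`; encode sets as bit masks (12 bits: bit `i` for
`u i`, bit `6 + j` for `u' j` if `m j = 6`), independence of four vectors = the 15 nonempty xor's are
nonzero.
Then `lam_le` for `A = W cup W'` (8 elements, 4 independent cycles, 4 independent rows) gives
`lam A + 4 + 4 <= 8`, so `lam A = 0`, but `A` is neither empty nor `S` (`|S| >= 9`): contradiction to `TC`.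
-/

set_option autoImplicit false

namespace SEY

open Finset

namespace Disj

def tb (I : ℕ) (x : ℕ) : Bool := Nat.testBit I x
/-- parity of the coincidences: three/four indices -/
def par3 (I a b c : ℕ) : Bool := xor (tb I a) (xor (tb I b) (tb I c))
def par4 (I a b c d : ℕ) : Bool := xor (xor (tb I a) (tb I b)) (xor (tb I c) (tb I d))
def inj3 (a b c : ℕ) : Bool := (a != b || a == 6) && (a != c || a == 6) && (b != c || b == 6)
def c1 (a b c : ℕ) : Bool := inj3 a b c && !(par3 7 a b c) && !(par3 56 a b c)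
def c2 (a b c d e f : ℕ) : Bool :=
  (a != d || a == 6) && (a != e || a == 6) && (a != f || a == 6) &&
  (b != d || b == 6) && (b != e || b == 6) && (b != f || b == 6) &&
  (c != d || c == 6) && (c != e || c == 6) && (c != f || c == 6) &&
  !(par4 27 a b d e) && !(par4 45 a b d e) && !(par4 54 a b d e) &&
  !(par4 27 a c d f) && !(par4 45 a c d f) && !(par4 54 a c d f) &&
  !(par4 27 b c e f) && !(par4 45 b c e f) && !(par4 54 b c e f)
def six (a : ℕ) : ℕ := if a = 6 then 1 else 0
/-- the value at `u' k` -/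
def ev (I1 I2 J1 J2 : ℕ) (g0 g1 g2 g3 : Bool) (mk k : ℕ) : Bool :=
  xor (xor (g0 && tb I1 mk) (g1 && tb I2 mk)) (xor (g2 && tb J1 k) (g3 && tb J2 k))
def evu (I1 I2 : ℕ) (g0 g1 : Bool) (i : ℕ) : Bool := xor (g0 && tb I1 i) (g1 && tb I2 i)
def notin (i a b c d e f : ℕ) : Bool :=
  a != i && b != i && c != i && d != i && e != i && f != i
def hyp (I1 I2 J1 J2 : ℕ) (g0 g1 g2 g3 : Bool) (a b c d e f : ℕ) : Bool :=
  !(ev I1 I2 J1 J2 g0 g1 g2 g3 a 0) && !(ev I1 I2 J1 J2 g0 g1 g2 g3 b 1) &&
  !(ev I1 I2 J1 J2 g0 g1 g2 g3 c 2) && !(ev I1 I2 J1 J2 g0 g1 g2 g3 d 3) &&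
  !(ev I1 I2 J1 J2 g0 g1 g2 g3 e 4) && !(ev I1 I2 J1 J2 g0 g1 g2 g3 f 5) &&
  (!(notin 0 a b c d e f) || !(evu I1 I2 g0 g1 0)) &&
  (!(notin 1 a b c d e f) || !(evu I1 I2 g0 g1 1)) &&
  (!(notin 2 a b c d e f) || !(evu I1 I2 g0 g1 2)) &&
  (!(notin 3 a b c d e f) || !(evu I1 I2 g0 g1 3)) &&
  (!(notin 4 a b c d e f) || !(evu I1 I2 g0 g1 4)) &&
  (!(notin 5 a b c d e f) || !(evu I1 I2 g0 g1 5))
def concl (I1 I2 J1 J2 : ℕ) (a b c d e f : ℕ) : Bool :=
  [false, true].all fun g0 => [false, true].all fun g1 => [false, true].all fun g2 =>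
    [false, true].all fun g3 => !(hyp I1 I2 J1 J2 g0 g1 g2 g3 a b c d e f) ||
      (!g0 && !g1 && !g2 && !g3)
def fin (a b c d e f : ℕ) : Bool :=
  (a == 6 && b == 6 && c == 6 && d == 6 && e == 6 && f == 6) ||
    (six a + six b + six c + six d + six e + six f == 2 &&
      concl 27 45 7 56 a b c d e f && concl 7 56 27 45 a b c d e f)
def st3 (a b c : ℕ) : Bool :=
  (List.range 7).all fun d => (List.range 7).all fun e => (List.range 7).all fun f =>
    !(c1 d e f) || !(c2 a b c d e f) || fin a b c d e f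
def all6 : Bool :=
  (List.range 7).all fun a => (List.range 7).all fun b => (List.range 7).all fun c =>
    !(c1 a b c) || st3 a b c
theorem all6_true : all6 = true := by decide +kernel
theorem core (a b c d e f : ℕ) (ha : a < 7) (hb : b < 7) (hc : c < 7) (hd : d < 7) (he : e < 7)
    (hf : f < 7) (h1 : c1 a b c = true) (h2 : c1 d e f = true) (h3 : c2 a b c d e f = true) :
    fin a b c d e f = true := by
  have h := all6_true
  simp only [all6, st3, List.all_eq_true, List.mem_range, Bool.or_eq_true, Bool.not_eq_true'] at h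
  have := h a ha b hb c hc
  rcases this with this | this
  · rw [h1] at this; exact absurd this (by decide)
  · rcases this d hd e he f hf with (this | this) | this
    · rw [h2] at this; exact absurd this (by decide)
    · rw [h3] at this; exact absurd this (by decide)
    · exact this

end Disj

variable {E : Type} [Fintype E] [DecidableEq E]

namespace Disj

/-- Boolean values as elements of `ZMod 2`. -/
def bz (b : Bool) : ZMod 2 := if b then 1 else 0

lemma bz_xor (a b : Bool) : bz (xor a b) = bz a + bz b := by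
  cases a <;> cases b <;> decide

lemma bz_and (a b : Bool) : bz (a && b) = bz a * bz b := by
  cases a <;> cases b <;> decide

lemma bz_eq_zero {a : Bool} : bz a = 0 ↔ a = false := by
  cases a <;> simp [bz]

lemma exists_bz (x : ZMod 2) : ∃ b, x = bz b := by
  rcases zcases x with h | h
  · exact ⟨false, by rw [h]; rfl⟩
  · exact ⟨true, by rw [h]; rfl⟩

/-- the subset of the range of `u` given by a bit mask -/
def st (u : Fin 6 → E) (I : ℕ) : Finset E := (univ.filter fun i : Fin 6 => tb I i.val = true).image u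

omit [Fintype E] in
lemma ind_st_self (u : Fin 6 → E) (hu : Function.Injective u) (I : ℕ) (i : Fin 6) :
    ind (st u I) (u i) = bz (tb I i) := by
  by_cases h : tb I i = true
  · rw [ind_of_mem, h]; rfl
    exact mem_image.2 ⟨i, by simpa using h, rfl⟩
  · rw [ind_of_notMem]
    · simp only [Bool.not_eq_true] at h
      rw [h]; rfl
    · intro hm
      obtain ⟨j, hj, hji⟩ := mem_image.1 hm
      rw [hu hji] at hj
      exact h (by simpa using hj)

omit [Fintype E] in
lemma ind_st_out (u : Fin 6 → E) (I : ℕ) (e : E) (he : ∀ i, u i ≠ e) : ind (st u I) e = 0 := by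
  rw [ind_of_notMem]
  intro hm
  obtain ⟨j, -, hj⟩ := mem_image.1 hm
  exact he j hj

/-- `m` encodes the coincidences of `u'` with `u` -/
structure Enc (u u' : Fin 6 → E) (m : Fin 6 → ℕ) : Prop where
  lt : ∀ j, m j < 7
  eq : ∀ j (i : Fin 6), m j = i ↔ u' j = u i

omit [Fintype E] in
lemma exists_enc (u u' : Fin 6 → E) (hu : Function.Injective u) : ∃ m, Enc u u' m := by
  classical
  refine ⟨fun j => if h : ∃ i, u' j = u i then (h.choose : ℕ) else 6, ?_, ?_⟩
  · intro j
    by_cases h : ∃ i, u' j = u i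
    · simp only [h, dif_pos]
      have := h.choose.isLt
      omega
    · simp [h]
  · intro j i
    by_cases h : ∃ i, u' j = u i
    · simp only [h, dif_pos]
      have hs := h.choose_spec
      constructor
      · intro h1
        have : h.choose = i := Fin.ext h1
        rw [← this]; exact hs
      · intro h1
        have : h.choose = i := hu (hs.symm.trans h1)
        rw [this]
    · simp only [h, dif_neg, not_false_eq_true]
      constructor
      · intro h1
        have := i.isLt
        omega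
      · intro h1
        exact absurd ⟨i, h1⟩ h

omit [Fintype E] in
lemma Enc.val {u u' : Fin 6 → E} {m : Fin 6 → ℕ} (hm : Enc u u' m) (hu : Function.Injective u)
    {I : ℕ} (hI : tb I 6 = false) (j : Fin 6) : ind (st u I) (u' j) = bz (tb I (m j)) := by
  by_cases h : m j = 6
  · rw [ind_st_out, h, hI]; rfl
    intro i hi
    have := (hm.eq j i).2 hi.symm
    have := i.isLt
    omega
  · have hlt : m j < 6 := by have := hm.lt j; omega
    have h1 := (hm.eq j ⟨m j, hlt⟩).1 rfl
    rw [h1, ind_st_self u hu]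

omit [Fintype E] in
/-- evaluation of a primed set at an unprimed element which is not hit -/
lemma Enc.out {u u' : Fin 6 → E} {m : Fin 6 → ℕ} (hm : Enc u u' m) {J : ℕ} (i : Fin 6)
    (h : ∀ j, m j ≠ i) : ind (st u' J) (u i) = 0 := by
  apply ind_st_out
  intro j hj
  exact h j ((hm.eq j i).2 hj)

lemma dot_st (f : E → ZMod 2) (u' : Fin 6 → E) (hu' : Function.Injective u') (J : ℕ) :
    dot f (ind (st u' J)) = ∑ j, bz (tb J j.val) * f (u' j) := by
  rw [dot_ind, st, sum_image (fun x _ y _ h => hu' h), sum_filter]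
  refine sum_congr rfl fun j _ => ?_
  by_cases h : tb J j.val = true
  · simp [h, bz]
  · simp [h, bz]

lemma dot_st_st {u u' : Fin 6 → E} {m : Fin 6 → ℕ} (hm : Enc u u' m) (hu : Function.Injective u)
    (hu' : Function.Injective u') {I J : ℕ} (hI : tb I 6 = false)
    (h : dot (ind (st u I)) (ind (st u' J)) = 0) :
    ∑ j : Fin 6, bz (tb J j.val) * bz (tb I (m j)) = 0 := by
  rw [dot_st _ u' hu'] at h
  rw [← h]
  exact sum_congr rfl fun j _ => by rw [hm.val hu hI]

omit [Fintype E] in
lemma linInd_of_concl {u u' : Fin 6 → E} {m : Fin 6 → ℕ} (hm : Enc u u' m)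
    (hu : Function.Injective u) (hu' : Function.Injective u') {I1 I2 J1 J2 : ℕ}
    (h1 : tb I1 6 = false) (h2 : tb I2 6 = false)
    (hc : concl I1 I2 J1 J2 (m 0) (m 1) (m 2) (m 3) (m 4) (m 5) = true) :
    LinearIndependent (ZMod 2)
      ![(ind (st u I1) : E → ZMod 2), ind (st u I2), ind (st u' J1), ind (st u' J2)] := by
  rw [Fintype.linearIndependent_iff]
  intro g hg
  obtain ⟨g0, h0⟩ := exists_bz (g 0)
  obtain ⟨g1, h1'⟩ := exists_bz (g 1)
  obtain ⟨g2, h2'⟩ := exists_bz (g 2)
  obtain ⟨g3, h3⟩ := exists_bz (g 3)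
  have hev : ∀ e : E, bz g0 * ind (st u I1) e + bz g1 * ind (st u I2) e +
      bz g2 * ind (st u' J1) e + bz g3 * ind (st u' J2) e = 0 := by
    intro e
    have := congrFun hg e
    simp only [Fin.sum_univ_four, Matrix.cons_val_zero, Matrix.cons_val_one,
      Matrix.cons_val, Pi.add_apply, Pi.smul_apply, smul_eq_mul, Pi.zero_apply, h0, h1', h2',
      h3] at this
    exact this
  have e1 : ∀ k : Fin 6, ev I1 I2 J1 J2 g0 g1 g2 g3 (m k) k = false := by
    intro k
    have := hev (u' k)
    rw [hm.val hu h1, hm.val hu h2, ind_st_self u' hu', ind_st_self u' hu'] at this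
    rw [← bz_eq_zero, ev]
    simp only [bz_xor, bz_and]
    rw [← this]
    ring
  have e2 : ∀ i : Fin 6, (∀ j, m j ≠ i) → evu I1 I2 g0 g1 i = false := by
    intro i hi
    have := hev (u i)
    rw [ind_st_self u hu, ind_st_self u hu, hm.out i hi, hm.out i hi] at this
    rw [← bz_eq_zero, evu]
    simp only [bz_xor, bz_and]
    rw [← this]
    ring
  have e2' : ∀ i : Fin 6, (notin i (m 0) (m 1) (m 2) (m 3) (m 4) (m 5) = false ∨
      evu I1 I2 g0 g1 i = false) := by
    intro i
    by_cases h : ∀ j, m j ≠ i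
    · exact Or.inr (e2 i h)
    · left
      push Not at h
      obtain ⟨j, hj⟩ := h
      fin_cases j <;> simp_all [notin]
  have hh : hyp I1 I2 J1 J2 g0 g1 g2 g3 (m 0) (m 1) (m 2) (m 3) (m 4) (m 5) = true := by
    have t0 := e1 0
    have t1 := e1 1
    have t2 := e1 2
    have t3 := e1 3
    have t4 := e1 4
    have t5 := e1 5
    have s0 := e2' 0
    have s1 := e2' 1
    have s2 := e2' 2
    have s3 := e2' 3
    have s4 := e2' 4
    have s5 := e2' 5
    simp only [Fin.val_zero, Fin.val_one, Fin.val_two, show ((3 : Fin 6) : ℕ) = 3 from rfl,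
      show ((4 : Fin 6) : ℕ) = 4 from rfl, show ((5 : Fin 6) : ℕ) = 5 from rfl] at t0 t1 t2 t3 t4 t5 s0 s1 s2 s3 s4 s5
    simp only [hyp, t0, t1, t2, t3, t4, t5, Bool.and_eq_true, Bool.or_eq_true, Bool.not_eq_true',
      Bool.not_false, true_and]
    exact ⟨⟨⟨⟨⟨s0, s1⟩, s2⟩, s3⟩, s4⟩, s5⟩
  have hfin : g0 = false ∧ g1 = false ∧ g2 = false ∧ g3 = false := by
    simp only [concl, List.all_cons, List.all_nil, Bool.and_true, Bool.and_eq_true] at hc
    revert hc hh
    clear e2' e2 e1 hev h0 h1' h2' h3 hg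
    generalize hyp I1 I2 J1 J2 false false false false (m 0) (m 1) (m 2) (m 3) (m 4) (m 5) = q0
    cases g0 <;> cases g1 <;> cases g2 <;> cases g3 <;> simp_all
  intro i
  fin_cases i
  · show g 0 = 0
    rw [h0, hfin.1]; rfl
  · show g 1 = 0
    rw [h1', hfin.2.1]; rfl
  · show g 2 = 0
    rw [h2', hfin.2.2.1]; rfl
  · show g 3 = 0
    rw [h3, hfin.2.2.2]; rfl

/-- the six elements in order -/
def sx (a b : Fin 3 → E) : Fin 6 → E := ![a 0, a 1, a 2, b 0, b 1, b 2]

omit [Fintype E] [DecidableEq E] in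
lemma sx_inj {a b : Fin 3 → E} (ha : Function.Injective a) (hb : Function.Injective b)
    (hab : ∀ i j, a i ≠ b j) : Function.Injective (sx a b) := by
  have hba : ∀ i j, b i ≠ a j := fun i j => (hab j i).symm
  intro i j h
  fin_cases i <;> fin_cases j <;>
    simp [sx, ha.eq_iff, hb.eq_iff, hab, hba] at h ⊢

/-- the properties of a `W`-structure in terms of the bit masks -/
lemma WStr_st {M : BM E} {a b : Fin 3 → E} (hW : WStr M a b) :
    Function.Injective (sx a b) ∧ (∀ i, sx a b i ∈ M.S) ∧
    ind (st (sx a b) 27) ∈ M.R ∧ ind (st (sx a b) 45) ∈ M.R ∧ ind (st (sx a b) 54) ∈ M.R ∧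
    ind (st (sx a b) 7) ∈ M.Z ∧ ind (st (sx a b) 56) ∈ M.Z := by
  obtain ⟨haS, hbS, ha, hb, hab, hca, hcb, hq⟩ := hW
  have hinj := sx_inj ha hb hab
  have hS : ∀ i, sx a b i ∈ M.S := by
    intro i
    fin_cases i
    · exact haS 0
    · exact haS 1
    · exact haS 2
    · exact hbS 0
    · exact hbS 1
    · exact hbS 2
  have hsup : ∀ I e, e ∉ M.S → ind (st (sx a b) I) e = 0 := by
    intro I e he
    apply ind_st_out
    rintro i rfl
    exact he (hS i)
  refine ⟨hinj, hS, ?_, ?_, ?_, ?_, ?_⟩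
  · have h1 : st (sx a b) 27 = {a 0, b 0, a 1, b 1} := by
      have : (univ.filter fun i : Fin 6 => tb 27 i.val = true) = {0, 3, 1, 4} := by decide
      rw [st, this]
      simp [image_insert, sx]
    rw [h1]; exact hq 0 1 (by decide)
  · have h1 : st (sx a b) 45 = {a 0, b 0, a 2, b 2} := by
      have : (univ.filter fun i : Fin 6 => tb 45 i.val = true) = {0, 3, 2, 5} := by decide
      rw [st, this]
      simp [image_insert, sx]
    rw [h1]; exact hq 0 2 (by decide)
  · have h1 : st (sx a b) 54 = {a 1, b 1, a 2, b 2} := by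
      have : (univ.filter fun i : Fin 6 => tb 54 i.val = true) = {1, 4, 2, 5} := by decide
      rw [st, this]
      simp [image_insert, sx]
    rw [h1]; exact hq 1 2 (by decide)
  · refine ⟨hsup 7, fun f hf => ?_⟩
    rw [dot_st _ _ hinj, Fin.sum_univ_six, ← hca f hf]
    simp [bz, tb, sx, Nat.testBit]
  · refine ⟨hsup 56, fun f hf => ?_⟩
    rw [dot_st _ _ hinj, Fin.sum_univ_six, ← hcb f hf]
    simp [bz, tb, sx, Nat.testBit]

end Disj

theorem WW_disjoint (M : BM E) (h : M.TC) (hc : 9 ≤ M.S.card) (a b : Fin 3 → E)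
    (hW : WStr M a b) (y z : Fin 3 → E) (hW' : WStr M.dual y z) :
    Disjoint (Wset a b) (Wset y z) := by
  classical
  obtain ⟨hu, huS, hq1, hq2, hq3, hA, hB⟩ := Disj.WStr_st hW
  obtain ⟨hu', huS', hq1', hq2', hq3', hA', hB'⟩ := Disj.WStr_st hW'
  rw [BM.dual_R] at hq1' hq2' hq3'
  rw [BM.dual_Z] at hA' hB'
  obtain ⟨m, hm⟩ := Disj.exists_enc (Disj.sx a b) (Disj.sx y z) hu
  have hrz : ∀ f ∈ M.R, ∀ g ∈ M.Z, dot f g = 0 := fun f hf g hg => hg.2 f hf
  have key : ∀ I J : ℕ, Disj.tb I 6 = false →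
      dot (ind (Disj.st (Disj.sx a b) I)) (ind (Disj.st (Disj.sx y z) J)) = 0 →
      ∑ j : Fin 6, Disj.bz (Disj.tb J j.val) * Disj.bz (Disj.tb I (m j)) = 0 :=
    fun I J hI h => Disj.dot_st_st hm hu hu' hI h
  have hP : ∀ I J : ℕ, Disj.tb I 6 = false →
      dot (ind (Disj.st (Disj.sx a b) I)) (ind (Disj.st (Disj.sx y z) J)) = 0 →
      xor (xor (xor (Disj.tb J 0 && Disj.tb I (m 0)) (Disj.tb J 1 && Disj.tb I (m 1)))
        (xor (Disj.tb J 2 && Disj.tb I (m 2)) (Disj.tb J 3 && Disj.tb I (m 3))))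
        (xor (Disj.tb J 4 && Disj.tb I (m 4)) (Disj.tb J 5 && Disj.tb I (m 5))) = false := by
    intro I J hI h
    have h1 := key I J hI h
    rw [Fin.sum_univ_six] at h1
    rw [← Disj.bz_eq_zero]
    simp only [Disj.bz_xor, Disj.bz_and]
    rw [← h1]
    simp only [Fin.val_zero, Fin.val_one, Fin.val_two, show ((3 : Fin 6) : ℕ) = 3 from rfl,
      show ((4 : Fin 6) : ℕ) = 4 from rfl, show ((5 : Fin 6) : ℕ) = 5 from rfl]
    ring
  have e7 : Disj.tb 7 6 = false := by decide
  have e56 : Disj.tb 56 6 = false := by decide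
  have e27 : Disj.tb 27 6 = false := by decide
  have e45 : Disj.tb 45 6 = false := by decide
  have e54 : Disj.tb 54 6 = false := by decide
  have f1 := hP 7 7 e7 (by rw [dot_comm]; exact hrz _ hA' _ hA)
  have f2 := hP 56 7 e56 (by rw [dot_comm]; exact hrz _ hA' _ hB)
  have f3 := hP 7 56 e7 (by rw [dot_comm]; exact hrz _ hB' _ hA)
  have f4 := hP 56 56 e56 (by rw [dot_comm]; exact hrz _ hB' _ hB)
  have g1 := hP 27 27 e27 (hrz _ hq1 _ hq1')
  have g2 := hP 45 27 e45 (hrz _ hq2 _ hq1')
  have g3 := hP 54 27 e54 (hrz _ hq3 _ hq1')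
  have g4 := hP 27 45 e27 (hrz _ hq1 _ hq2')
  have g5 := hP 45 45 e45 (hrz _ hq2 _ hq2')
  have g6 := hP 54 45 e54 (hrz _ hq3 _ hq2')
  have g7 := hP 27 54 e27 (hrz _ hq1 _ hq3')
  have g8 := hP 45 54 e45 (hrz _ hq2 _ hq3')
  have g9 := hP 54 54 e54 (hrz _ hq3 _ hq3')
  have hinj : ∀ i j : Fin 6, i ≠ j → (m i != m j || m i == 6) = true := by
    intro i j hij
    by_cases h6 : m i = 6
    · simp [h6]
    · have hlt : m i < 6 := by have := hm.lt i; omega
      have : m i ≠ m j := by
        intro h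
        have h1 := (hm.eq i ⟨m i, hlt⟩).1 rfl
        have h2 := (hm.eq j ⟨m i, hlt⟩).1 h.symm
        exact hij (hu' (h1.trans h2.symm))
      simp [this]
  have c1a : Disj.c1 (m 0) (m 1) (m 2) = true := by
    have hi : Disj.inj3 (m 0) (m 1) (m 2) = true := by
      rw [Disj.inj3, hinj 0 1 (by decide), hinj 0 2 (by decide), hinj 1 2 (by decide)]; rfl
    have ha : Disj.par3 7 (m 0) (m 1) (m 2) = false := by
      simpa [Disj.par3, Disj.tb, Nat.testBit] using f1
    have hb : Disj.par3 56 (m 0) (m 1) (m 2) = false := by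
      simpa [Disj.par3, Disj.tb, Nat.testBit] using f2
    rw [Disj.c1, hi, ha, hb]; rfl
  have c1b : Disj.c1 (m 3) (m 4) (m 5) = true := by
    have hi : Disj.inj3 (m 3) (m 4) (m 5) = true := by
      rw [Disj.inj3, hinj 3 4 (by decide), hinj 3 5 (by decide), hinj 4 5 (by decide)]; rfl
    have ha : Disj.par3 7 (m 3) (m 4) (m 5) = false := by
      simpa [Disj.par3, Disj.tb, Nat.testBit, Bool.xor_assoc] using f3
    have hb : Disj.par3 56 (m 3) (m 4) (m 5) = false := by
      simpa [Disj.par3, Disj.tb, Nat.testBit, Bool.xor_assoc] using f4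
    rw [Disj.c1, hi, ha, hb]; rfl
  have hp1 : Disj.par4 27 (m 0) (m 1) (m 3) (m 4) = false := by
    simpa [Disj.par4, Disj.tb, Nat.testBit, Bool.xor_assoc] using g1
  have hp2 : Disj.par4 45 (m 0) (m 1) (m 3) (m 4) = false := by
    simpa [Disj.par4, Disj.tb, Nat.testBit, Bool.xor_assoc] using g2
  have hp3 : Disj.par4 54 (m 0) (m 1) (m 3) (m 4) = false := by
    simpa [Disj.par4, Disj.tb, Nat.testBit, Bool.xor_assoc] using g3
  have hp4 : Disj.par4 27 (m 0) (m 2) (m 3) (m 5) = false := by
    simpa [Disj.par4, Disj.tb, Nat.testBit, Bool.xor_assoc] using g4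
  have hp5 : Disj.par4 45 (m 0) (m 2) (m 3) (m 5) = false := by
    simpa [Disj.par4, Disj.tb, Nat.testBit, Bool.xor_assoc] using g5
  have hp6 : Disj.par4 54 (m 0) (m 2) (m 3) (m 5) = false := by
    simpa [Disj.par4, Disj.tb, Nat.testBit, Bool.xor_assoc] using g6
  have hp7 : Disj.par4 27 (m 1) (m 2) (m 4) (m 5) = false := by
    simpa [Disj.par4, Disj.tb, Nat.testBit, Bool.xor_assoc] using g7
  have hp8 : Disj.par4 45 (m 1) (m 2) (m 4) (m 5) = false := by
    simpa [Disj.par4, Disj.tb, Nat.testBit, Bool.xor_assoc] using g8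
  have hp9 : Disj.par4 54 (m 1) (m 2) (m 4) (m 5) = false := by
    simpa [Disj.par4, Disj.tb, Nat.testBit, Bool.xor_assoc] using g9
  have c2a : Disj.c2 (m 0) (m 1) (m 2) (m 3) (m 4) (m 5) = true := by
    rw [Disj.c2, hinj 0 3 (by decide), hinj 0 4 (by decide), hinj 0 5 (by decide),
      hinj 1 3 (by decide), hinj 1 4 (by decide), hinj 1 5 (by decide),
      hinj 2 3 (by decide), hinj 2 4 (by decide), hinj 2 5 (by decide),
      hp1, hp2, hp3, hp4, hp5, hp6, hp7, hp8, hp9]
    rfl
  have hfin := Disj.core _ _ _ _ _ _ (hm.lt 0) (hm.lt 1) (hm.lt 2) (hm.lt 3) (hm.lt 4) (hm.lt 5)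
    c1a c1b c2a
  rw [Disj.fin, Bool.or_eq_true] at hfin
  rcases hfin with hfin | hfin
  · -- no coincidences
    simp only [Bool.and_eq_true, beq_iff_eq] at hfin
    obtain ⟨⟨⟨⟨⟨h0, h1⟩, h2⟩, h3⟩, h4⟩, h5⟩ := hfin
    have hall : ∀ j, m j = 6 := by
      intro j
      fin_cases j
      · exact h0
      · exact h1
      · exact h2
      · exact h3
      · exact h4
      · exact h5
    have hne : ∀ i j : Fin 6, Disj.sx a b i ≠ Disj.sx y z j := by
      intro i j h
      have := (hm.eq j i).2 h.symm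
      have h6 := hall j
      have := i.isLt
      omega
    rw [Finset.disjoint_left]
    intro e he he'
    have r1 : ∃ i, Disj.sx a b i = e := by
      rcases mem_union.1 he with h | h
      · obtain ⟨i, -, rfl⟩ := mem_image.1 h
        fin_cases i
        · exact ⟨0, rfl⟩
        · exact ⟨1, rfl⟩
        · exact ⟨2, rfl⟩
      · obtain ⟨i, -, rfl⟩ := mem_image.1 h
        fin_cases i
        · exact ⟨3, rfl⟩
        · exact ⟨4, rfl⟩
        · exact ⟨5, rfl⟩
    have r2 : ∃ i, Disj.sx y z i = e := by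
      rcases mem_union.1 he' with h | h
      · obtain ⟨i, -, rfl⟩ := mem_image.1 h
        fin_cases i
        · exact ⟨0, rfl⟩
        · exact ⟨1, rfl⟩
        · exact ⟨2, rfl⟩
      · obtain ⟨i, -, rfl⟩ := mem_image.1 h
        fin_cases i
        · exact ⟨3, rfl⟩
        · exact ⟨4, rfl⟩
        · exact ⟨5, rfl⟩
    obtain ⟨i, hi⟩ := r1
    obtain ⟨j, hj⟩ := r2
    exact hne i j (hi.trans hj.symm)
  · exfalso
    simp only [Bool.and_eq_true, beq_iff_eq] at hfin
    obtain ⟨⟨hsix, hc1⟩, hc2⟩ := hfin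
    have hR := Disj.linInd_of_concl hm hu hu' e27 e45 hc1
    have hZ := Disj.linInd_of_concl hm hu hu' e7 e56 hc2
    set A : Finset E := univ.image (Disj.sx a b) ∪
      (univ.filter (fun j => m j = 6)).image (Disj.sx y z) with hAdef
    have hAS : A ⊆ M.S := by
      intro e he
      rcases mem_union.1 he with h | h
      · obtain ⟨i, -, rfl⟩ := mem_image.1 h
        exact huS i
      · obtain ⟨i, -, rfl⟩ := mem_image.1 h
        exact huS' i
    have hmem1 : ∀ i, Disj.sx a b i ∈ A := fun i =>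
      mem_union_left _ (mem_image_of_mem _ (mem_univ i))
    have hmem2 : ∀ j, Disj.sx y z j ∈ A := by
      intro j
      by_cases h6 : m j = 6
      · exact mem_union_right _ (mem_image_of_mem _ (by simpa using h6))
      · have hlt : m j < 6 := by have := hm.lt j; omega
        rw [(hm.eq j ⟨m j, hlt⟩).1 rfl]
        exact hmem1 _
    have hout1 : ∀ I e, e ∉ A → ind (Disj.st (Disj.sx a b) I) e = 0 := by
      intro I e he
      apply Disj.ind_st_out
      rintro i rfl
      exact he (hmem1 i)
    have hout2 : ∀ I e, e ∉ A → ind (Disj.st (Disj.sx y z) I) e = 0 := by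
      intro I e he
      apply Disj.ind_st_out
      rintro i rfl
      exact he (hmem2 i)
    have hcard : A.card ≤ 8 := by
      have h1 : (univ.image (Disj.sx a b)).card ≤ 6 := by
        simpa using card_image_le (s := (univ : Finset (Fin 6))) (f := Disj.sx a b)
      have h2 : ((univ.filter (fun j => m j = 6)).image (Disj.sx y z)).card ≤ 2 := by
        refine card_image_le.trans ?_
        have : (univ.filter (fun j : Fin 6 => m j = 6)).card = 2 := by
          rw [card_filter, Fin.sum_univ_six]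
          exact hsix
        exact this.le
      exact (card_union_le _ _).trans (by omega)
    have hlam := lam_le M A hAS (m := 4) (n := 4)
      ![ind (Disj.st (Disj.sx a b) 7), ind (Disj.st (Disj.sx a b) 56),
        ind (Disj.st (Disj.sx y z) 27), ind (Disj.st (Disj.sx y z) 45)]
      (by
        intro i
        fin_cases i
        · exact hA
        · exact hB
        · exact hq1'
        · exact hq2')
      (by
        intro i e he
        fin_cases i
        · exact hout1 7 e he
        · exact hout1 56 e he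
        · exact hout2 27 e he
        · exact hout2 45 e he)
      hZ
      ![ind (Disj.st (Disj.sx a b) 27), ind (Disj.st (Disj.sx a b) 45),
        ind (Disj.st (Disj.sx y z) 7), ind (Disj.st (Disj.sx y z) 56)]
      (by
        intro i
        fin_cases i
        · exact hq1
        · exact hq2
        · exact hA'
        · exact hB')
      (by
        intro i e he
        fin_cases i
        · exact hout1 27 e he
        · exact hout1 45 e he
        · exact hout2 7 e he
        · exact hout2 56 e he)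
      hR
    have hl0 : M.lam A = 0 := by omega
    rcases (h.2 A hAS).1 hl0 with h1 | h1
    · have := hmem1 0
      rw [h1] at this
      exact absurd this (by simp)
    · rw [h1] at hcard
      omega

end SEY
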