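import Pool.Agent.Helper25.SEY.Frame
import Pool.Agent.Helper71.SEYApi

/-!
LV-5 (project SEY, block LEVEL): `K33s` is not graphic and `K33` is not cographic.

* `Graphic_ofRows`: let `M` be graphic (vertex set `V`, ends `h`, `t`) and let `phi, C` be as in
  `HasMinor rows M`.  Use `Graphic_con` (Frame.lean) to replace `M` by `M.con C` (so `C` is empty), and
  `Graphic_del` if convenient.  Then the matroid `ofRows rows` on `Fin k` is graphic with the same `V` and
  the ends `h o phi`, `t o phi`: a row of `ofRows rows` is a sum of rows `rows i`, each equal to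
  `f o phi` for some `f in M.R`, so it is `cob M.S h t pi o phi = cob univ (h o phi) (t o phi) pi`;
  conversely `cob M.S h t pi` is in `M.R`, so its composition with `phi` is a sum of the `rows i`.
* `K33s_ng0`: let `V, h, t` represent `ofRows K33s`.  All nonzero elements of the row space of `K33s`
  (16 elements) have weight at least 4 (decide).  For `v in V` let `D v = cob univ h t (Pi.single v 1)`, a
  row, `N = {v : D v <> 0}`.  `D v j <> 0` implies `h j = v` or `t j = v`, so every `j` is in the support
  of at most two `D v`: `4 |N| <= sum_v |supp (D v)| <= 2 * 9`, so `|N| <= 4`.  Every row is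
  `cob pi = sum_v pi v • D v = sum over v in N`, and `sum over N of D v = cob 1 = 0`.  So the row space is
  spanned by the `D v` with `v in N` without one of them (if `N` is nonempty): at most `2 ^ 3 = 8`
  elements.  But it has `16` elements (or: finrank 4, the rows are independent).  Contradiction.
* `K33s_ng`: `Graphic_ofRows` and `K33s_ng0`.
* `K33_ncg`: `HasMinor K33 M` implies `HasMinor K33s M.dual` (`HasMinor.dual` of helper71's API,
  Pool/Agent/Helper71/SEYApi.lean; if its name is different, look there).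
-/

set_option autoImplicit false

namespace SEY

open Finset

variable {E : Type} [Fintype E] [DecidableEq E]

theorem Graphic_ofRows {r k : ℕ} {rows : Fin r → Fin k → ZMod 2} {M : BM E} (hG : Graphic M)
    (h : HasMinor rows M) : Graphic (ofRows rows) := by
  obtain ⟨φ, C, hφ, hφS, hC, hφC, h1, h2⟩ := h
  obtain ⟨V, hV, hd, tl, hR⟩ := Graphic_con hG C
  have hmem : ∀ j, φ j ∈ (M.con C).S := fun j => Finset.mem_sdiff.2 ⟨hφS j, hφC j⟩
  refine ⟨V, hV, fun j => hd (φ j), fun j => tl (φ j), ?_⟩
  intro f
  constructor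
  · intro hf
    have hf' : f ∈ Submodule.span (ZMod 2) (Set.range rows) := hf
    rw [Submodule.mem_span_range_iff_exists_fun] at hf'
    obtain ⟨c, rfl⟩ := hf'
    choose g hg1 hg2 hg3 using h1
    have hgR : ∑ i, c i • g i ∈ (M.con C).R := by
      refine Submodule.sum_mem _ fun i _ => Submodule.smul_mem _ _ ?_
      exact ⟨hg1 i, hg2 i⟩
    obtain ⟨π, hπ⟩ := (hR _).1 hgR
    refine ⟨π, ?_⟩
    funext j
    have h3 := congrFun hπ (φ j)
    simp only [cob, if_pos (hmem j), Finset.sum_apply, Pi.smul_apply, smul_eq_mul] at h3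
    have h4 : j ∈ (ofRows rows).S := Finset.mem_univ j
    simp only [cob, if_pos h4, Finset.sum_apply, Pi.smul_apply, smul_eq_mul]
    rw [← h3]
    exact Finset.sum_congr rfl fun i _ => by rw [hg3 i j]
  · rintro ⟨π, rfl⟩
    have hgR : cob (M.con C).S hd tl π ∈ (M.con C).R := (hR _).2 ⟨π, rfl⟩
    obtain ⟨c, hc⟩ := h2 _ hgR.1 hgR.2
    have h5 : cob (ofRows rows).S (fun j => hd (φ j)) (fun j => tl (φ j)) π =
        ∑ i, c i • rows i := by
      funext j
      have h3 := hc j
      simp only [cob, if_pos (hmem j)] at h3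
      have h4 : j ∈ (ofRows rows).S := Finset.mem_univ j
      simp only [cob, if_pos h4, Finset.sum_apply, Pi.smul_apply, smul_eq_mul]
      exact h3
    rw [h5]
    refine Submodule.sum_mem _ fun i _ => Submodule.smul_mem _ _ ?_
    exact Submodule.subset_span ⟨i, rfl⟩

private lemma ng_weight : ∀ c : Fin 4 → ZMod 2, (∃ j, ∑ i, c i * K33s i j ≠ 0) →
    4 ≤ (Finset.univ.filter (fun j => ∑ i, c i * K33s i j ≠ 0)).card := by
  decide

private lemma ng_rank : Module.finrank (ZMod 2) (ofRows K33s).R = 4 := by
  have hli : LinearIndependent (ZMod 2) K33s := by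
    rw [Fintype.linearIndependent_iff]
    intro g hg
    have h4 := congrFun hg 4
    have h5 := congrFun hg 5
    have h7 := congrFun hg 7
    have h8 := congrFun hg 8
    simp [Fin.sum_univ_four, K33s] at h4 h5 h7 h8
    intro i
    fin_cases i
    · exact h4
    · exact h5
    · exact h7
    · exact h8
  have h1 := finrank_span_eq_card hli
  rw [Fintype.card_fin] at h1
  exact h1

theorem K33s_ng0 : ¬ Graphic (ofRows K33s) := by
  rintro ⟨V, hV, h, t, hR⟩
  classical
  let D : V → (Fin 9 → ZMod 2) := fun v => cob (ofRows K33s).S h t (Pi.single v 1)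
  have hS : ∀ j, j ∈ (ofRows K33s).S := fun j => Finset.mem_univ j
  have hD : ∀ v j, D v j = (if h j = v then 1 else 0) + (if t j = v then 1 else 0) := by
    intro v j
    simp only [D, cob, if_pos (hS j), Pi.single_apply]
  have hDR : ∀ v, D v ∈ (ofRows K33s).R := fun v => (hR _).2 ⟨_, rfl⟩
  have hcob : ∀ π : V → ZMod 2, cob (ofRows K33s).S h t π = ∑ v, π v • D v := by
    intro π
    funext j
    simp only [cob, if_pos (hS j), Finset.sum_apply, Pi.smul_apply, smul_eq_mul, hD, mul_add,
      Finset.sum_add_distrib]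
    simp
  let N : Finset V := Finset.univ.filter (fun v => D v ≠ 0)
  have hw : ∀ v ∈ N, 4 ≤ (Finset.univ.filter (fun j => D v j ≠ 0)).card := by
    intro v hv
    have hne : D v ≠ 0 := (Finset.mem_filter.1 hv).2
    have h1 : D v ∈ Submodule.span (ZMod 2) (Set.range K33s) := hDR v
    rw [Submodule.mem_span_range_iff_exists_fun] at h1
    obtain ⟨c, hc⟩ := h1
    have h2 : ∀ j, D v j = ∑ i, c i * K33s i j := by
      intro j
      rw [← hc]
      simp only [Finset.sum_apply, Pi.smul_apply, smul_eq_mul]
    have h3 := ng_weight c (by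
      by_contra hcon
      push Not at hcon
      exact hne (by funext j; rw [h2 j, hcon j]; rfl))
    simpa only [h2] using h3
  have hN : N.card ≤ 4 := by
    have h1 := Finset.sum_card_bipartiteAbove_eq_sum_card_bipartiteBelow
      (s := N) (t := (Finset.univ : Finset (Fin 9))) (fun v j => D v j ≠ 0)
    have h2 : 4 * N.card ≤ ∑ v ∈ N, (Finset.bipartiteAbove (fun v j => D v j ≠ 0)
        (Finset.univ : Finset (Fin 9)) v).card := by
      rw [mul_comm, ← smul_eq_mul]
      exact Finset.card_nsmul_le_sum _ _ _ (fun v hv => hw v hv)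
    have h3 : ∑ j ∈ (Finset.univ : Finset (Fin 9)),
        (Finset.bipartiteBelow (fun v j => D v j ≠ 0) N j).card ≤ 9 * 2 := by
      have h4 : ∀ j ∈ (Finset.univ : Finset (Fin 9)),
          (Finset.bipartiteBelow (fun v j => D v j ≠ 0) N j).card ≤ 2 := by
        intro j _
        have h5 : Finset.bipartiteBelow (fun v j => D v j ≠ 0) N j ⊆ {h j, t j} := by
          intro v hv
          rw [Finset.mem_bipartiteBelow] at hv
          by_contra hcon
          rw [Finset.mem_insert, Finset.mem_singleton, not_or] at hcon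
          apply hv.2
          rw [hD, if_neg (fun h => hcon.1 h.symm), if_neg (fun h => hcon.2 h.symm), add_zero]
        exact (Finset.card_le_card h5).trans (Finset.card_le_two)
      have h6 := Finset.sum_le_card_nsmul _ _ _ h4
      simpa using h6
    omega
  have hfin : ∀ T : Finset V, (∀ f ∈ (ofRows K33s).R,
      f ∈ Submodule.span (ZMod 2) ((T.image D : Finset (Fin 9 → ZMod 2)) :
        Set (Fin 9 → ZMod 2))) → 4 ≤ T.card := by
    intro T hT
    have h1 : (ofRows K33s).R ≤ Submodule.span (ZMod 2)
      ((T.image D : Finset (Fin 9 → ZMod 2)) : Set (Fin 9 → ZMod 2)) := fun f hf => hT f hf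
    have h2 := Submodule.finrank_mono h1
    rw [ng_rank] at h2
    have h3 := finrank_span_finset_le_card (R := ZMod 2) (T.image D)
    have h4 := Finset.card_image_le (s := T) (f := D)
    have h5 : Module.finrank (ZMod 2) (Submodule.span (ZMod 2)
      ((T.image D : Finset (Fin 9 → ZMod 2)) : Set (Fin 9 → ZMod 2))) ≤ (T.image D).card := h3
    omega
  rcases N.eq_empty_or_nonempty with hN0 | ⟨v0, hv0⟩
  · have h1 := hfin ∅ (by
      intro f hf
      obtain ⟨π, rfl⟩ := (hR f).1 hf
      rw [hcob]
      refine Submodule.sum_mem _ fun v _ => ?_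
      have h2 : D v = 0 := by
        by_contra hcon
        have : v ∈ N := Finset.mem_filter.2 ⟨Finset.mem_univ _, hcon⟩
        rw [hN0] at this
        exact absurd this (Finset.notMem_empty _)
      rw [h2, smul_zero]
      exact Submodule.zero_mem _)
    simp at h1
  · have h1 := hfin (N.erase v0) (by
      intro f hf
      obtain ⟨π, rfl⟩ := (hR f).1 hf
      have h2 : cob (ofRows K33s).S h t π = cob (ofRows K33s).S h t (fun v => π v - π v0) := by
        funext j
        simp only [cob, if_pos (hS j)]
        have h3 : π v0 + π v0 = 0 := z_add_self _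
        linear_combination h3
      rw [h2, hcob]
      refine Submodule.sum_mem _ fun v _ => ?_
      by_cases hv : v = v0
      · rw [hv, sub_self, zero_smul]
        exact Submodule.zero_mem _
      by_cases hv2 : v ∈ N
      · refine Submodule.smul_mem _ _ (Submodule.subset_span ?_)
        rw [Finset.coe_image]
        exact ⟨v, Finset.mem_coe.2 (Finset.mem_erase.2 ⟨hv, hv2⟩), rfl⟩
      · have h4 : D v = 0 := by
          by_contra hcon
          exact hv2 (Finset.mem_filter.2 ⟨Finset.mem_univ _, hcon⟩)
        rw [h4, smul_zero]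
        exact Submodule.zero_mem _)
    rw [Finset.card_erase_of_mem hv0] at h1
    omega

theorem K33s_ng {M : BM E} (h : HasMinor K33s M) : ¬ Graphic M :=
  fun hG => K33s_ng0 (Graphic_ofRows hG h)

/-- Duality for minors. -/
theorem ng_dual {r k r' : ℕ} {rows : Fin r → Fin k → ZMod 2} {rows' : Fin r' → Fin k → ZMod 2}
    (ho : ∀ i i', ∑ j, rows i j * rows' i' j = 0)
    (hc : ∀ w : Fin k → ZMod 2, (∀ i, ∑ j, rows i j * w j = 0) →
      ∃ c : Fin r' → ZMod 2, ∀ j, w j = ∑ i, c i * rows' i j)
    {M : BM E} (h : HasMinor rows M) : HasMinor rows' M.dual := by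
  classical
  obtain ⟨φ, C, hφ, hφS, hC, hφC, h1, h2⟩ := h
  have hsum : ∀ (f z : E → ZMod 2), (∀ e ∈ C, f e = 0) →
      (∀ e, e ∉ C → (∀ j, φ j ≠ e) → z e = 0) → dot f z = ∑ j, f (φ j) * z (φ j) := by
    intro f z hf hz
    unfold dot
    rw [← Finset.sum_image (s := Finset.univ) (g := φ) (f := fun e => f e * z e)
      (fun a _ b _ hab => hφ hab)]
    symm
    apply Finset.sum_subset (Finset.subset_univ _)
    intro e _ he
    by_cases heC : e ∈ C
    · rw [hf e heC, zero_mul]
    · rw [hz e heC (fun j hj => he (Finset.mem_image.2 ⟨j, Finset.mem_univ _, hj⟩)), mul_zero]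
  refine ⟨φ, M.S \ (C ∪ Finset.univ.image φ), hφ, hφS, Finset.sdiff_subset, ?_, ?_, ?_⟩
  · intro i hi
    rw [Finset.mem_sdiff, Finset.mem_union, not_or] at hi
    exact hi.2.2 (Finset.mem_image.2 ⟨i, Finset.mem_univ _, rfl⟩)
  · intro i
    let w : E → ZMod 2 := fun e => ∑ j, if φ j = e then rows' i j else 0
    have hwφ : ∀ j, w (φ j) = rows' i j := by
      intro j
      simp only [w]
      rw [Finset.sum_eq_single j]
      · rw [if_pos rfl]
      · intro b _ hb
        rw [if_neg (fun hh => hb (hφ hh))]
      · intro hh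
        exact absurd (Finset.mem_univ j) hh
    have hw0 : ∀ e, (∀ j, φ j ≠ e) → w e = 0 := by
      intro e he
      simp only [w]
      refine Finset.sum_eq_zero fun j _ => ?_
      rw [if_neg (he j)]
    have hwZ : w ∈ (M.con C).Z := by
      refine ⟨?_, ?_⟩
      · intro e he
        apply hw0
        intro j hj
        apply he
        rw [← hj]
        exact Finset.mem_sdiff.2 ⟨hφS j, hφC j⟩
      · intro f hf
        rw [hsum f w hf.2 (fun e _ he => hw0 e he)]
        obtain ⟨c, hc'⟩ := h2 f hf.1 hf.2
        have h3 : ∑ j, f (φ j) * w (φ j) = ∑ i', c i' * ∑ j, rows i' j * rows' i j := by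
          simp only [hc', hwφ, Finset.mul_sum, Finset.sum_mul]
          rw [Finset.sum_comm]
          refine Finset.sum_congr rfl fun a _ => Finset.sum_congr rfl fun b _ => ?_
          ring
        rw [h3]
        refine Finset.sum_eq_zero fun i' _ => ?_
        rw [ho, mul_zero]
    obtain ⟨w', hw'Z, hw'⟩ := (M.mem_Z_con).1 hwZ
    have hval : ∀ e ∈ M.S \ C, w' e = w e := by
      intro e he
      rw [← hw', mask_apply, if_pos he]
    refine ⟨w', hw'Z, ?_, ?_⟩
    · intro e he
      rw [Finset.mem_sdiff, Finset.mem_union, not_or] at he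
      rw [hval e (Finset.mem_sdiff.2 ⟨he.1, he.2.1⟩)]
      exact hw0 e (fun j hj => he.2.2 (Finset.mem_image.2 ⟨j, Finset.mem_univ _, hj⟩))
    · intro j
      rw [hval _ (Finset.mem_sdiff.2 ⟨hφS j, hφC j⟩), hwφ]
  · intro z hz hz0
    refine hc (fun j => z (φ j)) ?_
    intro i
    obtain ⟨f, hf, hf0, hfr⟩ := h1 i
    have h3 : dot f z = 0 := hz.2 f hf
    rw [hsum f z hf0 ?_] at h3
    · simpa only [hfr] using h3
    · intro e heC he
      by_cases heS : e ∈ M.S
      · apply hz0
        rw [Finset.mem_sdiff, Finset.mem_union, not_or]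
        refine ⟨heS, heC, ?_⟩
        intro hh
        obtain ⟨j, _, hj⟩ := Finset.mem_image.1 hh
        exact he j hj
      · exact hz.1 e heS

private lemma ng_orth : ∀ i i', ∑ j, K33 i j * K33s i' j = 0 := by
  decide

private lemma ng_compl (w : Fin 9 → ZMod 2) (hw : ∀ i, ∑ j, K33 i j * w j = 0) :
    ∃ c : Fin 4 → ZMod 2, ∀ j, w j = ∑ i, c i * K33s i j := by
  refine ⟨![w 4, w 5, w 7, w 8], ?_⟩
  have h0 := hw 0
  have h1 := hw 1
  have h2 := hw 2
  have h3 := hw 3
  have h4 := hw 4
  have h5 := hw 5
  simp [K33, grRows, K33e, Fin.sum_univ_succ] at h0 h1 h2 h3 h4 h5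
  intro j
  fin_cases j <;> simp [K33s, Fin.sum_univ_four]
  · rw [z_add_eq_zero.1 h3, z_add_eq_zero.1 h1, z_add_eq_zero.1 h2]
    ring
  · exact z_add_eq_zero.1 h4
  · exact z_add_eq_zero.1 h5
  · exact z_add_eq_zero.1 h1
  · exact z_add_eq_zero.1 h2

theorem K33_ncg {M : BM E} (h : HasMinor K33 M) : ¬ Graphic M.dual :=
  K33s_ng (ng_dual ng_orth ng_compl h)

end SEY
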