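import Pool.Agent.Helper70.SEY.Grid
import Pool.Agent.Helper71.SEYApi2

/-!
LV-10 (project SEY, block LEVEL): disjoint `W`-structures of `M` and of `M.dual` give an `R12` minor.

`W = {a i, b i}`, `W' = {y i, z i}` disjoint; `A = {a i}`, `B = {b i}` cycles, `q_ij = {a i, b i, a j, b j}` rows;
`Y = {y i}`, `Z' = {z i}` rows, `{y i, z i, y j, z j}` cycles (from `hW'` and `BM.dual_dual`).
`|S| >= 12`.  `lam W = 2` (`WStr_lam`), `lam W' = 2` (`WStr_lam` for `M.dual`, `lam` is self-dual).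
1. For `W <= A' <= S - W'` we have `|A'| >= 6`, `|S - A'| >= 6`, so `lam A' >= 2` (`TC_two_le`).
   `linking` (Link.lean) with `X = W`, `Y = W'`, `k = 2`: disjoint `C, D`, `S = W u W' u C u D`,
   `M' = (M.con C).del D`, `lam_{M'} W >= 2`.  `lam_{M'} W' = lam_{M'} W` (`M'.S = W u W'`, symmetry).
   `preserve` for `W` and for `W'`: (a) each `f in R` has `f' in R`, `f' = 0` on `C`, `f' = f` on `W`;
   same for `W'`; (b) a vector supported in `W` which is a row of `M'` is in `R`; same for `W'`.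
   `K = {f in R : f = 0 on C}`; rows of `M'` = the restrictions to `W u W'` of the elements of `K`.
2. Put for `f in K`: `p_i f = f (a i) + f (b i)`, `s_0 f = f (y 1) + f (y 2)`, `s_1 f = f (y 0) + f (y 2)`,
   `s_2 f = f (y 0) + f (y 1)`.  By the cycles: `p_0 + p_1 + p_2 = 0`, `f (y i) + f (z i)` does not depend
   on `i`, so also `s_0 f = f (z 1) + f (z 2)` etc.
   Claim: if `f in K` and `s_j f = 0` for all `j` then `p_i f = 0` for all `i`.  `f` is constant (`= s`) on the
   `y`'s and constant (`= t`) on the `z`'s, so `f + s Y + t Z'` (in `K`: `Y`, `Z'` are supported in `W'`)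
   vanishes on `W'`; its restriction to `W` is a row of `M'` supported in `W`, so by (b) it is an
   element `g` of `R` supported in `W`, `WStr_rows` gives `g (a i) = g (b i)`, so
   `p_i f = p_i (f + s Y + t Z') = p_i g = 0`.
   The possible values of `(s_0, s_1, s_2)` on `K` are among `000, 011, 101, 110`.  As in `guts`:
   `p_i` is a function of `(s_0, s_1, s_2)` by the claim (additive); `p_i <> 0` on `K` (by (a) and
   `TC_row_sep` for `a i, b i`).  All three nonzero patterns of `s` occur on `K`: by (a) for `W'` it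
   is enough that they occur on `R`; `s_j <> 0` on `R` for each `j` (`TC_row_sep` for two `y`'s), and if only
   one nonzero pattern occurred, one of the `s_j` would vanish on `R`; two nonzero patterns give the
   third by addition.  So there is a bijection `sigma : Fin 3 -> Fin 3` with `p_i = s_(sigma i)` on `K`
   (as in the proof of `guts`, which may be applied directly: `W` there is `W`, the `d`'s there are
   not available here, so repeat the short argument).
   Re-index `a, b` by `sigma`: we may assume `p_i = s_i` on `K` (put `a' j = a (tau j)`,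
   `b' j = b (tau j)`, `tau = sigma^-1`; `WStr M a' b'` holds).
3. HasMinor R12 M with `C` and `phi = ![a 0, a 1, a 2, b 0, b 1, b 2, y 0, y 1, y 2, z 0, z 1, z 2]`
   (after re-indexing).  The row space of `R12` is the set of all `x : Fin 12 -> ZMod 2` with
   `x0+x1+x2 = 0`, `x3+x4+x5 = 0`, `x0+x3 = x7+x8`, `x1+x4 = x6+x8`, `x2+x5 = x6+x7`,
   `x6+x9 = x7+x10 = x8+x11`; the coefficients of the six rows of `R12` are
   `c = ![x 0, x 1, x 0 + x 3, x 1 + x 4, x 6, x 9]` (checked).
   Second condition: `f in K` satisfies the relations.  First condition: each row of `R12` satisfies the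
   relations; given such an `x` find `f in K` with `f o phi = x`: by 2 there is `f in K` with
   `s_j f = ` the value prescribed by `x`; then `p_i f` is right too; adding `Y`, `Z'` (they do not
   change `s`, `p`) we get `f (y 0) = x 6`, `f (z 0) = x 9`, hence `f = x` on `W'` (cycles); adding
   `q_01`, `q_02` we get `f (b 1) = x 4`, `f (b 2) = x 5`, hence `f (b 0) = x 3` (cycle `B`),
   `f (a i) = p_i f + f (b i)` is right.
-/

set_option autoImplicit false

namespace SEY

open Finset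

variable {E : Type} [Fintype E] [DecidableEq E]

/-- the combinatorial core: three functionals `p` factoring through three functionals `s` -/
lemma ww_core {V : Type} [AddCommGroup V] [Module (ZMod 2) V] (K : Submodule (ZMod 2) V)
    (p s : Fin 3 → V →ₗ[ZMod 2] ZMod 2)
    (hs : ∀ f ∈ K, s 0 f + s 1 f + s 2 f = 0) (hp : ∀ f ∈ K, p 0 f + p 1 f + p 2 f = 0)
    (hker : ∀ f ∈ K, (∀ j, s j f = 0) → ∀ i, p i f = 0)
    (hpn : ∀ i, ∃ f ∈ K, p i f ≠ 0) (hsn : ∀ j, ∃ f ∈ K, s j f ≠ 0) :
    (∃ σ : Fin 3 → Fin 3, Function.Injective σ ∧ ∀ f ∈ K, ∀ i, p i f = s (σ i) f) ∧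
      ∀ t : Fin 3 → ZMod 2, t 0 + t 1 + t 2 = 0 → ∃ f ∈ K, ∀ j, s j f = t j := by
  have hall : ∀ t : Fin 3 → ZMod 2, t 0 + t 1 + t 2 = 0 → ∃ f ∈ K, ∀ j, s j f = t j := by
    intro t ht
    obtain ⟨f0, hf0, h0⟩ := hsn 0
    obtain ⟨f1, hf1, h1⟩ := hsn 1
    obtain ⟨f2, hf2, h2⟩ := hsn 2
    have e0 := hs f0 hf0
    have e1 := hs f1 hf1
    have e2 := hs f2 hf2
    have key : ∀ a0 b0 c0 a1 b1 c1 a2 b2 c2 x y w : ZMod 2, a0 ≠ 0 → b1 ≠ 0 → c2 ≠ 0 →
        a0 + b0 + c0 = 0 → a1 + b1 + c1 = 0 → a2 + b2 + c2 = 0 → x + y + w = 0 →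
        ∃ u0 u1 u2 : ZMod 2, u0 * a0 + u1 * a1 + u2 * a2 = x ∧
          u0 * b0 + u1 * b1 + u2 * b2 = y ∧ u0 * c0 + u1 * c1 + u2 * c2 = w := by
      have key' : ∀ b0 a1 a2 x y : ZMod 2, ∃ u0 u1 u2 : ZMod 2,
          u0 * 1 + u1 * a1 + u2 * a2 = x ∧ u0 * b0 + u1 * 1 + u2 * (a2 + 1) = y := by
        decide
      intro a0 b0 c0 a1 b1 c1 a2 b2 c2 x y w g1 g2 g3 g4 g5 g6 g7
      have g1' : a0 = 1 := z_ne_zero.1 g1
      have g2' : b1 = 1 := z_ne_zero.1 g2
      have g3' : c2 = 1 := z_ne_zero.1 g3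
      subst g1' g2' g3'
      obtain ⟨u0, u1, u2, k1, k2⟩ := key' b0 a1 a2 x y
      refine ⟨u0, u1, u2, k1, ?_, ?_⟩ <;> grind
    obtain ⟨u0, u1, u2, k0, k1, k2⟩ := key _ _ _ _ _ _ _ _ _ _ _ _ h0 h1 h2 e0 e1 e2 ht
    refine ⟨u0 • f0 + u1 • f1 + u2 • f2, K.add_mem (K.add_mem (K.smul_mem _ hf0)
      (K.smul_mem _ hf1)) (K.smul_mem _ hf2), fun j => ?_⟩
    simp only [map_add, map_smul, smul_eq_mul]
    fin_cases j
    · exact k0
    · exact k1
    · exact k2
  refine ⟨?_, hall⟩
  obtain ⟨g0, hg0, k0⟩ := hall ![0, 1, 1] (by decide)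
  obtain ⟨g1, hg1, k1⟩ := hall ![1, 0, 1] (by decide)
  have hform : ∀ i, ∀ f ∈ K, p i f = s 1 f * p i g0 + s 0 f * p i g1 := by
    intro i f hf
    have h1 := hker (f + s 1 f • g0 + s 0 f • g1)
      (K.add_mem (K.add_mem hf (K.smul_mem _ hg0)) (K.smul_mem _ hg1)) (by
        intro j
        have h3 := hs f hf
        have a0 := k0 0
        have a1 := k0 1
        have a2 := k0 2
        have b0 := k1 0
        have b1 := k1 1
        have b2 := k1 2
        simp at a0 a1 a2 b0 b1 b2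
        fin_cases j
        · simp [a0, a1, a2, b0, b1, b2]; grind
        · simp [a0, a1, a2, b0, b1, b2]; grind
        · simp [a0, a1, a2, b0, b1, b2]; grind) i
    simp only [map_add, map_smul, smul_eq_mul] at h1
    grind
  have hex : ∀ i, ∃ j, ∀ f ∈ K, p i f = s j f := by
    intro i
    have h1 := hform i
    rcases zcases (p i g0) with h2 | h2 <;> rcases zcases (p i g1) with h3 | h3
    · exfalso
      obtain ⟨f, hf, h4⟩ := hpn i
      apply h4
      rw [h1 f hf, h2, h3]
      simp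
    · refine ⟨0, fun f hf => ?_⟩
      rw [h1 f hf, h2, h3]
      simp
    · refine ⟨1, fun f hf => ?_⟩
      rw [h1 f hf, h2, h3]
      simp
    · refine ⟨2, fun f hf => ?_⟩
      have := hs f hf
      rw [h1 f hf, h2, h3]
      grind
  choose σ hσ using hex
  refine ⟨σ, ?_, fun f hf i => hσ i f hf⟩
  have hne : ∀ i i' i'' : Fin 3, (∀ f ∈ K, p i f + p i' f + p i'' f = 0) → σ i ≠ σ i' := by
    intro i i' i'' h1 h2
    obtain ⟨f, hf, h4⟩ := hpn i''
    apply h4
    have h5 := h1 f hf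
    rw [hσ i f hf, hσ i' f hf, h2] at h5
    grind
  have n01 := hne 0 1 2 hp
  have n02 := hne 0 2 1 (fun f hf => by have := hp f hf; grind)
  have n12 := hne 1 2 0 (fun f hf => by have := hp f hf; grind)
  intro i j hij
  fin_cases i <;> fin_cases j <;> first
    | rfl
    | exact absurd hij n01
    | exact absurd hij n02
    | exact absurd hij n12
    | exact absurd hij.symm n01
    | exact absurd hij.symm n02
    | exact absurd hij.symm n12

omit [Fintype E] in
lemma wstr_perm {M : BM E} {a b : Fin 3 → E} (h : WStr M a b) (τ : Equiv.Perm (Fin 3)) :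
    WStr M (fun i => a (τ i)) (fun i => b (τ i)) := by
  obtain ⟨h1, h2, h3, h4, h5, h6, h7, h8⟩ := h
  refine ⟨fun i => h1 _, fun i => h2 _, h3.comp τ.injective, h4.comp τ.injective,
    fun i j => h5 _ _, fun f hf => ?_, fun f hf => ?_,
    fun i j hij => h8 _ _ (fun h => hij (τ.injective h))⟩
  · have := h6 f hf
    rw [← Fin.sum_univ_three (fun i => f (a i))] at this
    rw [← Fin.sum_univ_three (fun i => f (a (τ i))), ← this]
    exact Equiv.sum_comp τ (fun i => f (a i))
  · have := h7 f hf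
    rw [← Fin.sum_univ_three (fun i => f (b i))] at this
    rw [← Fin.sum_univ_three (fun i => f (b (τ i))), ← this]
    exact Equiv.sum_comp τ (fun i => f (b i))

/-- the relations satisfied by a row of `R12` -/
def R12rel (x : Fin 12 → ZMod 2) : Prop :=
  x 0 + x 1 + x 2 = 0 ∧ x 3 + x 4 + x 5 = 0 ∧ x 0 + x 3 = x 7 + x 8 ∧ x 1 + x 4 = x 6 + x 8 ∧
    x 2 + x 5 = x 6 + x 7 ∧ x 6 + x 9 = x 7 + x 10 ∧ x 6 + x 9 = x 8 + x 11

lemma R12_rel (i : Fin 6) : R12rel (R12 i) := by
  unfold R12rel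
  revert i
  decide

lemma R12_coeff (x : Fin 12 → ZMod 2) (hx : R12rel x) :
    ∀ j, x j = ∑ i, (![x 0, x 1, x 0 + x 3, x 1 + x 4, x 6, x 9] : Fin 6 → ZMod 2) i * R12 i j := by
  obtain ⟨h1, h2, h3, h4, h5, h6, h7⟩ := hx
  intro j
  fin_cases j <;> simp [Fin.sum_univ_succ, R12] <;> grind

/-- the last step, after re-indexing -/
lemma ww_final (M : BM E) (a b y z : Fin 3 → E) (hW : WStr M a b) (hW' : WStr M.dual y z)
    (hd : Disjoint (Wset a b) (Wset y z)) (C : Finset E) (hC : C ⊆ M.S)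
    (hCW : Disjoint C (Wset a b ∪ Wset y z))
    (hp : ∀ f ∈ M.R, (∀ c ∈ C, f c = 0) → f (a 0) + f (b 0) = f (y 1) + f (y 2) ∧
      f (a 1) + f (b 1) = f (y 0) + f (y 2) ∧ f (a 2) + f (b 2) = f (y 0) + f (y 1))
    (hs : ∀ t : Fin 3 → ZMod 2, t 0 + t 1 + t 2 = 0 → ∃ f ∈ M.R, (∀ c ∈ C, f c = 0) ∧
      f (y 1) + f (y 2) = t 0 ∧ f (y 0) + f (y 2) = t 1 ∧ f (y 0) + f (y 1) = t 2) :
    HasMinor R12 M := by
  classical
  obtain ⟨haS, hbS, hai, hbi, hab, hA, hB, hq⟩ := hW
  obtain ⟨hyS, hzS, hyi, hzi, hyz, hY, hZ, hc⟩ := hW'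
  have hmW : ∀ i, a i ∈ Wset a b ∧ b i ∈ Wset a b := fun i => by simp [Wset]
  have hmW' : ∀ i, y i ∈ Wset y z ∧ z i ∈ Wset y z := fun i => by simp [Wset]
  have hay : ∀ i j, a i ≠ y j := fun i j h =>
    Finset.disjoint_left.1 hd (hmW i).1 (h ▸ (hmW' j).1)
  have haz : ∀ i j, a i ≠ z j := fun i j h =>
    Finset.disjoint_left.1 hd (hmW i).1 (h ▸ (hmW' j).2)
  have hby : ∀ i j, b i ≠ y j := fun i j h =>
    Finset.disjoint_left.1 hd (hmW i).2 (h ▸ (hmW' j).1)
  have hbz : ∀ i j, b i ≠ z j := fun i j h =>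
    Finset.disjoint_left.1 hd (hmW i).2 (h ▸ (hmW' j).2)
  have hCa : ∀ i, a i ∉ C := fun i h =>
    Finset.disjoint_left.1 hCW h (Finset.mem_union_left _ (hmW i).1)
  have hCb : ∀ i, b i ∉ C := fun i h =>
    Finset.disjoint_left.1 hCW h (Finset.mem_union_left _ (hmW i).2)
  have hCy : ∀ i, y i ∉ C := fun i h =>
    Finset.disjoint_left.1 hCW h (Finset.mem_union_right _ (hmW' i).1)
  have hCz : ∀ i, z i ∉ C := fun i h =>
    Finset.disjoint_left.1 hCW h (Finset.mem_union_right _ (hmW' i).2)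
  -- the rows `Y` and `Z`
  have hYR : ind {y 0, y 1, y 2} ∈ M.R := by
    rw [M.mem_R_iff]
    refine ⟨fun e he => ?_, fun w hw => ?_⟩
    · rw [ind_of_notMem]
      simp only [Finset.mem_insert, Finset.mem_singleton]
      rintro (rfl | rfl | rfl)
      · exact he (hyS 0)
      · exact he (hyS 1)
      · exact he (hyS 2)
    · have h1 := hY w hw
      rw [ind_dot, Finset.sum_insert, Finset.sum_insert, Finset.sum_singleton]
      · rw [← h1]; ring
      · simp [hyi.eq_iff]
      · simp [hyi.eq_iff]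
  have hZR : ind {z 0, z 1, z 2} ∈ M.R := by
    rw [M.mem_R_iff]
    refine ⟨fun e he => ?_, fun w hw => ?_⟩
    · rw [ind_of_notMem]
      simp only [Finset.mem_insert, Finset.mem_singleton]
      rintro (rfl | rfl | rfl)
      · exact he (hzS 0)
      · exact he (hzS 1)
      · exact he (hzS 2)
    · have h1 := hZ w hw
      rw [ind_dot, Finset.sum_insert, Finset.sum_insert, Finset.sum_singleton]
      · rw [← h1]; ring
      · simp [hzi.eq_iff]
      · simp [hzi.eq_iff]
  have hcyc : ∀ f ∈ M.R, ∀ i j, i ≠ j → f (y i) + f (z i) = f (y j) + f (z j) := by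
    intro f hf i j hij
    have h1 := M.dot_eq_zero hf (hc i j hij)
    rw [dot_ind, Finset.sum_insert, Finset.sum_insert, Finset.sum_insert,
      Finset.sum_singleton] at h1
    · grind
    · simp only [Finset.mem_singleton]; exact hyz j j
    · simp only [Finset.mem_insert, Finset.mem_singleton, not_or]
      exact ⟨fun h => hyz j i h.symm, fun h => hij (hzi h)⟩
    · simp only [Finset.mem_insert, Finset.mem_singleton, not_or]
      exact ⟨hyz i i, fun h => hij (hyi h), hyz i j⟩
  set φ : Fin 12 → E := ![a 0, a 1, a 2, b 0, b 1, b 2, y 0, y 1, y 2, z 0, z 1, z 2] with hφ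
  have hφcases : ∀ j, (∃ i, φ j = a i) ∨ (∃ i, φ j = b i) ∨ (∃ i, φ j = y i) ∨
      ∃ i, φ j = z i := by
    intro j
    fin_cases j
    · exact Or.inl ⟨0, rfl⟩
    · exact Or.inl ⟨1, rfl⟩
    · exact Or.inl ⟨2, rfl⟩
    · exact Or.inr (Or.inl ⟨0, rfl⟩)
    · exact Or.inr (Or.inl ⟨1, rfl⟩)
    · exact Or.inr (Or.inl ⟨2, rfl⟩)
    · exact Or.inr (Or.inr (Or.inl ⟨0, rfl⟩))
    · exact Or.inr (Or.inr (Or.inl ⟨1, rfl⟩))
    · exact Or.inr (Or.inr (Or.inl ⟨2, rfl⟩))
    · exact Or.inr (Or.inr (Or.inr ⟨0, rfl⟩))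
    · exact Or.inr (Or.inr (Or.inr ⟨1, rfl⟩))
    · exact Or.inr (Or.inr (Or.inr ⟨2, rfl⟩))
  have hba : ∀ i j, b i ≠ a j := fun i j h => hab j i h.symm
  have hya : ∀ i j, y i ≠ a j := fun i j h => hay j i h.symm
  have hza : ∀ i j, z i ≠ a j := fun i j h => haz j i h.symm
  have hyb : ∀ i j, y i ≠ b j := fun i j h => hby j i h.symm
  have hzb : ∀ i j, z i ≠ b j := fun i j h => hbz j i h.symm
  have hzy : ∀ i j, z i ≠ y j := fun i j h => hyz j i h.symm
  have hφi : Function.Injective φ := by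
    intro i j hij
    fin_cases i <;> fin_cases j <;>
      simp [hφ, hai.eq_iff, hbi.eq_iff, hyi.eq_iff, hzi.eq_iff, hab, hay, haz, hba, hby, hbz, hya,
        hyb, hyz, hza, hzb, hzy] at hij ⊢
  refine ⟨φ, C, hφi, ?_, hC, ?_, ?_, ?_⟩
  · intro j
    rcases hφcases j with ⟨i, hi⟩ | ⟨i, hi⟩ | ⟨i, hi⟩ | ⟨i, hi⟩ <;> rw [hi]
    · exact haS i
    · exact hbS i
    · exact hyS i
    · exact hzS i
  · intro j
    rcases hφcases j with ⟨i, hi⟩ | ⟨i, hi⟩ | ⟨i, hi⟩ | ⟨i, hi⟩ <;> rw [hi]
    · exact hCa i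
    · exact hCb i
    · exact hCy i
    · exact hCz i
  · -- realisation of the rows
    have hreal : ∀ x : Fin 12 → ZMod 2, R12rel x →
        ∃ f ∈ M.R, (∀ c ∈ C, f c = 0) ∧ ∀ j, f (φ j) = x j := by
      rintro x ⟨r1, r2, r3, r4, r5, r6, r7⟩
      obtain ⟨f, hf, hfC, s0, s1, s2⟩ := hs ![x 7 + x 8, x 6 + x 8, x 6 + x 7] (by
        simp only [Matrix.cons_val_zero, Matrix.cons_val_one, Matrix.cons_val]
        grind)
      simp only [Matrix.cons_val_zero, Matrix.cons_val_one, Matrix.cons_val] at s0 s1 s2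
      obtain ⟨p0, p1, p2⟩ := hp f hf hfC
      have c1 := hcyc f hf 0 1 (by decide)
      have c2 := hcyc f hf 0 2 (by decide)
      have b0 := hB f hf
      refine ⟨f + (f (y 0) + x 6) • ind {y 0, y 1, y 2} + (f (z 0) + x 9) • ind {z 0, z 1, z 2} +
        (f (b 1) + x 4) • ind {a 0, b 0, a 1, b 1} + (f (b 2) + x 5) • ind {a 0, b 0, a 2, b 2},
        ?_, ?_, ?_⟩
      · refine M.R.add_mem (M.R.add_mem (M.R.add_mem (M.R.add_mem hf (M.R.smul_mem _ hYR))
          (M.R.smul_mem _ hZR)) (M.R.smul_mem _ (hq 0 1 (by decide))))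
          (M.R.smul_mem _ (hq 0 2 (by decide)))
      · intro c hcC
        have n1 : ∀ i, c ≠ a i := fun i h => hCa i (h ▸ hcC)
        have n2 : ∀ i, c ≠ b i := fun i h => hCb i (h ▸ hcC)
        have n3 : ∀ i, c ≠ y i := fun i h => hCy i (h ▸ hcC)
        have n4 : ∀ i, c ≠ z i := fun i h => hCz i (h ▸ hcC)
        simp [hfC c hcC, n1, n2, n3, n4]
      · intro j
        fin_cases j <;>
          simp [hφ, hai.eq_iff, hbi.eq_iff, hyi.eq_iff, hzi.eq_iff, hab, hay, haz, hba, hby, hbz,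
            hya, hyb, hyz, hza, hzb, hzy] <;> grind
    exact fun i => hreal _ (R12_rel i)
  · intro f hf hfC
    refine ⟨_, R12_coeff (fun j => f (φ j)) ?_⟩
    obtain ⟨p0, p1, p2⟩ := hp f hf hfC
    exact ⟨hA f hf, hB f hf, p0, p1, p2, hcyc f hf 0 1 (by decide), hcyc f hf 0 2 (by decide)⟩

theorem WW_R12 (M : BM E) (h : M.TC) (a b : Fin 3 → E) (hW : WStr M a b) (y z : Fin 3 → E)
    (hW' : WStr M.dual y z) (hd : Disjoint (Wset a b) (Wset y z)) : HasMinor R12 M := by

  classical
  have hW0 := hW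
  have hW0' := hW'
  obtain ⟨haS, hbS, hai, hbi, hab, hA, hB, hq⟩ := hW
  obtain ⟨hyS, hzS, hyi, hzi, hyz, hY, hZ, hc⟩ := hW'
  have hWS : Wset a b ⊆ M.S := by
    intro e he
    simp only [Wset, Finset.mem_union, Finset.mem_image, Finset.mem_univ, true_and] at he
    rcases he with ⟨i, rfl⟩ | ⟨i, rfl⟩
    · exact haS i
    · exact hbS i
  have hWS' : Wset y z ⊆ M.S := by
    intro e he
    simp only [Wset, Finset.mem_union, Finset.mem_image, Finset.mem_univ, true_and] at he
    rcases he with ⟨i, rfl⟩ | ⟨i, rfl⟩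
    · exact hyS i
    · exact hzS i
  have hcard : ∀ u v : Fin 3 → E, Function.Injective u → Function.Injective v →
      (∀ i j, u i ≠ v j) → (Wset u v).card = 6 := by
    intro u v hu hv huv
    rw [Wset, Finset.card_union_of_disjoint, Finset.card_image_of_injective _ hu,
      Finset.card_image_of_injective _ hv, Finset.card_univ, Fintype.card_fin]
    rw [Finset.disjoint_left]
    intro e he he'
    simp only [Finset.mem_image, Finset.mem_univ, true_and] at he he'
    obtain ⟨i, hi⟩ := he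
    obtain ⟨j, hj⟩ := he'
    exact huv i j (hi.trans hj.symm)
  have hc6 := hcard a b hai hbi hab
  have hc6' := hcard y z hyi hzi hyz
  have hc12 : 12 ≤ M.S.card := by
    have h1 := Finset.card_le_card (Finset.union_subset hWS hWS')
    rw [Finset.card_union_of_disjoint hd] at h1
    omega
  have hlam := WStr_lam M h a b hW0 (by omega)
  have hlam' := WStr_lam M.dual h.dual y z hW0' (by rw [BM.dual_S]; omega)
  rw [BM.lam_dual] at hlam'
  obtain ⟨C, D, hCD, hCW, hDW, hun, hk⟩ := linking M (Wset a b) (Wset y z) hWS hWS' hd 2 (by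
    intro A h1 h2 h3
    refine TC_two_le h h2 ?_ ?_
    · have := Finset.card_le_card h1
      omega
    · have h4 : Wset y z ⊆ M.S \ A := fun e he =>
        Finset.mem_sdiff.2 ⟨hWS' he, fun h5 => Finset.disjoint_left.1 h3 h5 he⟩
      have := Finset.card_le_card h4
      omega)
  have hMS : ((M.con C).del D).S = Wset a b ∪ Wset y z := by
    ext e
    rw [BM.del_S, BM.con_S, Finset.mem_sdiff, Finset.mem_sdiff, ← hun]
    simp only [Finset.mem_union]
    constructor
    · rintro ⟨⟨((h1 | h1) | h1) | h1, h2⟩, h3⟩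
      · exact Or.inl h1
      · exact Or.inr h1
      · exact absurd h1 h2
      · exact absurd h1 h3
    · intro h1
      refine ⟨⟨Or.inl (Or.inl h1), fun h2 => ?_⟩, fun h2 => ?_⟩
      · exact Finset.disjoint_left.1 hCW h2 (Finset.mem_union.2 h1)
      · exact Finset.disjoint_left.1 hDW h2 (Finset.mem_union.2 h1)
  have hk' : ((M.con C).del D).lam (Wset y z) = ((M.con C).del D).lam (Wset a b) := by
    rw [← BM.lam_compl _ (Wset a b), hMS, Finset.union_sdiff_cancel_left hd]
  have hCS : C ⊆ M.S := by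
    intro e he
    rw [← hun]
    simp only [Finset.mem_union]
    exact Or.inl (Or.inr he)
  have hC1 : Disjoint C (Wset a b) := hCW.mono_right Finset.subset_union_left
  have hC2 : Disjoint C (Wset y z) := hCW.mono_right Finset.subset_union_right
  obtain ⟨pa, pb⟩ := preserve M (Wset a b) C D hWS hCS hC1
    (hDW.mono_right Finset.subset_union_left) (by rw [hlam]; exact hk)
  obtain ⟨pa', pb'⟩ := preserve M (Wset y z) C D hWS' hCS hC2
    (hDW.mono_right Finset.subset_union_right) (by rw [hlam', hk']; exact hk)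
  have hmW : ∀ i, a i ∈ Wset a b ∧ b i ∈ Wset a b := fun i => by simp [Wset]
  have hmW' : ∀ i, y i ∈ Wset y z ∧ z i ∈ Wset y z := fun i => by simp [Wset]
  have hnW' : ∀ e ∈ Wset a b, ∀ i, e ≠ y i ∧ e ≠ z i := fun e he i =>
    ⟨fun h1 => Finset.disjoint_left.1 hd he (h1 ▸ (hmW' i).1),
      fun h1 => Finset.disjoint_left.1 hd he (h1 ▸ (hmW' i).2)⟩
  have hnC : ∀ e ∈ C, ∀ i, e ≠ y i ∧ e ≠ z i := fun e he i =>
    ⟨fun h1 => Finset.disjoint_left.1 hC2 he (h1 ▸ (hmW' i).1),
      fun h1 => Finset.disjoint_left.1 hC2 he (h1 ▸ (hmW' i).2)⟩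
  -- the rows `Y` and `Z`
  have hrow : ∀ u : Fin 3 → E, Function.Injective u → (∀ i, u i ∈ M.S) →
      (∀ f ∈ M.Z, f (u 0) + f (u 1) + f (u 2) = 0) → ind {u 0, u 1, u 2} ∈ M.R := by
    intro u hu huS hu0
    rw [M.mem_R_iff]
    refine ⟨fun e he => ?_, fun w hw => ?_⟩
    · rw [ind_of_notMem]
      simp only [Finset.mem_insert, Finset.mem_singleton]
      rintro (rfl | rfl | rfl)
      · exact he (huS 0)
      · exact he (huS 1)
      · exact he (huS 2)
    · have h1 := hu0 w hw
      rw [ind_dot, Finset.sum_insert, Finset.sum_insert, Finset.sum_singleton]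
      · rw [← h1]; ring
      · simp [hu.eq_iff]
      · simp [hu.eq_iff]
  have hYR := hrow y hyi hyS hY
  have hZR := hrow z hzi hzS hZ
  have hcyc : ∀ f ∈ M.R, ∀ i j, i ≠ j → f (y i) + f (z i) = f (y j) + f (z j) := by
    intro f hf i j hij
    have h1 := M.dot_eq_zero hf (hc i j hij)
    rw [dot_ind, Finset.sum_insert, Finset.sum_insert, Finset.sum_insert,
      Finset.sum_singleton] at h1
    · grind
    · simp only [Finset.mem_singleton]; exact hyz j j
    · simp only [Finset.mem_insert, Finset.mem_singleton, not_or]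
      exact ⟨fun h => hyz j i h.symm, fun h => hij (hzi h)⟩
    · simp only [Finset.mem_insert, Finset.mem_singleton, not_or]
      exact ⟨hyz i i, fun h => hij (hyi h), hyz i j⟩
  -- the functionals
  let ev : E → (E → ZMod 2) →ₗ[ZMod 2] ZMod 2 := fun e => LinearMap.proj e
  let p : Fin 3 → (E → ZMod 2) →ₗ[ZMod 2] ZMod 2 := fun i => ev (a i) + ev (b i)
  let s : Fin 3 → (E → ZMod 2) →ₗ[ZMod 2] ZMod 2 :=
    ![ev (y 1) + ev (y 2), ev (y 0) + ev (y 2), ev (y 0) + ev (y 1)]
  have hpv : ∀ i f, p i f = f (a i) + f (b i) := fun i f => rfl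
  have hs0 : ∀ f, s 0 f = f (y 1) + f (y 2) := fun f => rfl
  have hs1 : ∀ f, s 1 f = f (y 0) + f (y 2) := fun f => rfl
  have hs2 : ∀ f, s 2 f = f (y 0) + f (y 1) := fun f => rfl
  have hcore := ww_core (M.con C).R p s
    (fun f _ => by rw [hs0, hs1, hs2]; grind)
    (fun f hf => by
      have h1 := hA f hf.1
      have h2 := hB f hf.1
      rw [hpv, hpv, hpv]
      grind)
    (fun f hf hsf i => by
      obtain ⟨hfR, hfC⟩ := hf
      have e0 := hsf 0
      have e1 := hsf 1
      have e2 := hsf 2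
      rw [hs0] at e0
      rw [hs1] at e1
      rw [hs2] at e2
      have c1 := hcyc f hfR 0 1 (by decide)
      have c2 := hcyc f hfR 0 2 (by decide)
      -- subtract the constants
      obtain ⟨g, hg⟩ : ∃ g : E → ZMod 2, g = f + f (y 0) • ind {y 0, y 1, y 2} +
        f (z 0) • ind {z 0, z 1, z 2} := ⟨_, rfl⟩
      have hgR : g ∈ M.R := by
        rw [hg]
        exact M.R.add_mem (M.R.add_mem hfR (M.R.smul_mem _ hYR)) (M.R.smul_mem _ hZR)
      have hgC : ∀ c ∈ C, g c = 0 := by
        intro c hcC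
        rw [hg]
        simp [hfC c hcC, fun i => (hnC c hcC i).1, fun i => (hnC c hcC i).2]
      have hgW : ∀ e ∈ Wset a b, g e = f e := by
        intro e he
        rw [hg]
        simp [fun i => (hnW' e he i).1, fun i => (hnW' e he i).2]
      have hzy : ∀ i j, z i ≠ y j := fun i j h => hyz j i h.symm
      have hgy : ∀ i, g (y i) = 0 := by
        intro i
        rw [hg]
        fin_cases i <;> simp [hyi.eq_iff, hyz] <;> grind
      have hgz : ∀ i, g (z i) = 0 := by
        intro i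
        rw [hg]
        fin_cases i <;> simp [hzi.eq_iff, hzy] <;> grind
      have hgM : mask ((M.con C).S \ D) g ∈ ((M.con C).del D).R := ⟨g, ⟨hgR, hgC⟩, rfl⟩
      have hsupp : ∀ e, e ∉ Wset a b → mask ((M.con C).S \ D) g e = 0 := by
        intro e he
        rw [mask_apply]
        split_ifs with h1
        · have h2 : e ∈ Wset a b ∪ Wset y z := by rw [← hMS]; exact h1
          rcases Finset.mem_union.1 h2 with h2 | h2
          · exact absurd h2 he
          · simp only [Wset, Finset.mem_union, Finset.mem_image, Finset.mem_univ,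
              true_and] at h2
            rcases h2 with ⟨i, rfl⟩ | ⟨i, rfl⟩
            · exact hgy i
            · exact hgz i
        · rfl
      have hin := pb _ hsupp hgM
      have hrows := WStr_rows M h a b hW0 (by omega) _ hin hsupp i
      have hin1 : ∀ e ∈ Wset a b, e ∈ (M.con C).S \ D := fun e he => by
        have : e ∈ ((M.con C).del D).S := by
          rw [hMS]; exact Finset.mem_union_left _ he
        exact this
      rw [mask_apply, mask_apply, if_pos (hin1 _ (hmW i).1), if_pos (hin1 _ (hmW i).2),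
        hgW _ (hmW i).1, hgW _ (hmW i).2] at hrows
      rw [hpv, hrows]
      exact z_add_self _)
    (fun i => by
      obtain ⟨f, hf, hne⟩ := TC_row_sep h (haS i) (hbS i) (hab i i)
      obtain ⟨f', hf', hC', heq⟩ := pa f hf
      refine ⟨f', ⟨hf', hC'⟩, ?_⟩
      rw [hpv, heq _ (hmW i).1, heq _ (hmW i).2]
      exact fun h0 => hne (z_add_eq_zero.1 h0))
    (fun j => by
      have hgen : ∀ i i' : Fin 3, i ≠ i' → ∃ f ∈ (M.con C).R, f (y i) + f (y i') ≠ 0 := by
        intro i i' hii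
        obtain ⟨f, hf, hne⟩ := TC_row_sep h (hyS i) (hyS i') (fun h0 => hii (hyi h0))
        obtain ⟨f', hf', hC', heq⟩ := pa' f hf
        refine ⟨f', ⟨hf', hC'⟩, ?_⟩
        rw [heq _ (hmW' i).1, heq _ (hmW' i').1]
        exact fun h0 => hne (z_add_eq_zero.1 h0)
      fin_cases j
      · exact hgen 1 2 (by decide)
      · exact hgen 0 2 (by decide)
      · exact hgen 0 1 (by decide))
  obtain ⟨⟨σ, hσi, hσ⟩, hall⟩ := hcore
  -- re-index
  let σe : Equiv.Perm (Fin 3) := Equiv.ofBijective σ (Finite.injective_iff_bijective.1 hσi)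
  have hτ : ∀ j, σ (σe.symm j) = j := fun j => σe.apply_symm_apply j
  have hWτ := wstr_perm hW0 σe.symm
  have hset : Wset (fun i => a (σe.symm i)) (fun i => b (σe.symm i)) = Wset a b := by
    have h1 : ∀ u : Fin 3 → E, univ.image (fun i => u (σe.symm i)) = univ.image u := by
      intro u
      ext e
      simp only [Finset.mem_image, Finset.mem_univ, true_and]
      constructor
      · rintro ⟨i, rfl⟩
        exact ⟨_, rfl⟩
      · rintro ⟨i, rfl⟩
        exact ⟨σe i, by rw [Equiv.symm_apply_apply]⟩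
    unfold Wset
    rw [h1, h1]
  refine ww_final M _ _ y z hWτ hW0' (by rw [hset]; exact hd) C hCS (by rw [hset]; exact hCW)
    ?_ ?_
  · intro f hf hfC
    have h1 : ∀ j, f (a (σe.symm j)) + f (b (σe.symm j)) = s j f := by
      intro j
      have h2 := hσ f ⟨hf, hfC⟩ (σe.symm j)
      rw [hτ, hpv] at h2
      exact h2
    exact ⟨h1 0, h1 1, h1 2⟩
  · intro t ht
    obtain ⟨f, ⟨hf, hfC⟩, h1⟩ := hall t ht
    exact ⟨f, hf, hfC, h1 0, h1 1, h1 2⟩

end SEY
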