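import Pool.Agent.Helper25.SEY.T3
import Pool.Agent.Helper71.SEYApi2

/-!
LV-8 (project SEY, block LEVEL): in outcome O2 (`TriT`) for `K33` the matroid `M.con {e}` has `K33` as a
topological minor.

`M0 = (M.del {e}).con {b 0, b 1, b 2}` and `N = M.con {e}`.
Claim (`TriT_minor`): `M0 = (N.con {b 0, b 1}).del {b 2}`.  Both have ground set `S - {e, b 0, b 1, b 2}`.
Rows of `(N.con {b 0, b 1}).del {b 2}`: the restrictions to `S - {e, b i}` of the rows `f` of `M` with
`f e = f (b 0) = f (b 1) = 0`.  Rows of `M0`: the restrictions to `S - {e, b i}` of the rows `f` of `M` with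
`f (b 0) = f (b 1) = f (b 2) = 0`.  By `cycb` (`f e + f (b 0) + f (b 1) + f (b 2) = 0`) both conditions say
`f e = f (b i) = 0`.
So: `HasT K33 M0` gives `HasMinor K33 M0` (`HasMinor_of_HasT`, Sc.lean), hence `HasMinor K33 N`
(minors of minors, API of helper71: Pool/Agent/Helper71/SEYApi.lean), `NoF N` (NoF is inherited by
minors), and `conv_K33` (Conv.lean) gives `HasT K33 N`.
-/

set_option autoImplicit false

namespace SEY

open Finset

variable {E : Type} [Fintype E] [DecidableEq E]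

theorem TriT_minor {r k : ℕ} (rows : Fin r → Fin k → ZMod 2) (M : BM E) (e : E)
    (a b : Fin 3 → E) (hT : TriT rows M e a b) :
    (M.del {e}).con {b 0, b 1, b 2} = ((M.con {e}).con {b 0, b 1}).del {b 2} := by
  obtain ⟨-, -, -, -, heb⟩ := hT.inj
  obtain ⟨-, -, hbS⟩ := hT.mem
  refine BM.ext' ?_ (fun f => ?_)
  · ext x
    simp only [BM.del_S, BM.con_S, mem_sdiff, mem_insert, mem_singleton]
    tauto
  · rw [BM.mem_con, BM.mem_del', BM.mem_del']
    simp only [BM.mem_con, BM.con_S, mem_sdiff, mem_insert, mem_singleton, forall_eq_or_imp,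
      forall_eq]
    constructor
    · rintro ⟨⟨h1, g, hg, h2⟩, h30, h31, h32⟩
      have k0 : g (b 0) = 0 := by rw [h2 _ ⟨hbS 0, fun h => heb 0 h.symm⟩, h30]
      have k1 : g (b 1) = 0 := by rw [h2 _ ⟨hbS 1, fun h => heb 1 h.symm⟩, h31]
      have k2 : g (b 2) = 0 := by rw [h2 _ ⟨hbS 2, fun h => heb 2 h.symm⟩, h32]
      have ke : g e = 0 := by
        have h := hT.cycb g hg
        rw [k0, k1, k2] at h
        simpa using h
      refine ⟨fun x hx => ?_, g, ⟨⟨hg, ke⟩, k0, k1⟩, fun x hx => h2 x hx.1.1⟩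
      by_cases x0 : x = b 0
      · rw [x0, h30]
      by_cases x1 : x = b 1
      · rw [x1, h31]
      by_cases x2 : x = b 2
      · rw [x2, h32]
      exact h1 x (fun h => hx ⟨⟨h, fun h' => h'.elim x0 x1⟩, x2⟩)
    · rintro ⟨h1, g, ⟨⟨hg, ke⟩, k0, k1⟩, h2⟩
      have k2 : g (b 2) = 0 := by
        have h := hT.cycb g hg
        rw [k0, k1, ke] at h
        simpa using h
      have f0 : f (b 0) = 0 := h1 _ (fun h => h.1.2 (Or.inl rfl))
      have f1 : f (b 1) = 0 := h1 _ (fun h => h.1.2 (Or.inr rfl))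
      have f2 : f (b 2) = 0 := h1 _ (fun h => h.2 rfl)
      refine ⟨⟨fun x hx => h1 x (fun h => hx h.1.1), g, hg, fun x hx => ?_⟩, f0, f1, f2⟩
      by_cases x0 : x = b 0
      · rw [x0, k0, f0]
      by_cases x1 : x = b 1
      · rw [x1, k1, f1]
      by_cases x2 : x = b 2
      · rw [x2, k2, f2]
      exact h2 x ⟨⟨hx, fun h' => h'.elim x0 x1⟩, x2⟩

theorem TriT_con_HasT (M : BM E) (hF : NoF M) (e : E)
    (a b : Fin 3 → E) (hT : TriT K33 M e a b) : HasT K33 (M.con {e}) := by
  have h := HasMinor_of_HasT hT.hasT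
  rw [TriT_minor K33 M e a b hT] at h
  exact conv_K33 (M.con {e}) (hF.con {e}) ((h.of_del {b 2}).of_con {b 0, b 1})

end SEY
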