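import Pool.Agent.Helper25.SEY.Sc
import Pool.Agent.Helper71.SEYApi2

/-!
LV-7a (project SEY, block LEVEL): the grid is 3-connected; connectivity under labelled minors.

* `K33s_tc`: `(ofRows K33).TC` is `K33_tc` (Sc.lean); `ofRows K33s = (ofRows K33).dual` (the row space of
  `K33s` is the orthogonal complement of the row space of `K33`: finite check, e.g. with the
  duality lemmas of Pool/Agent/Helper71/SEYApi.lean), and `TC` is self-dual.
* `lam_minor`.  `N0 = ofRows rows` on `Fin k`, `X0 = {j : phi j in X}`.  Restricting along `phi` the rows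
  `f in R` with `f = 0` on `C` gives exactly the rows of `N0` (`h1`, `h2`).  With `D = S - C - phi(Fin k)`
  the matroid `N = (M.con C).del D` has ground set `phi (Fin k)` and `N0` is its copy, so
  `lam_{N0} X0 = lam_N (X n phi(Fin k)) <= lam_M X` (`lam` does not increase under con and del: API of
  helper71, `BM.lam_con_le`, `BM.lam_del_le` or similar).
-/

set_option autoImplicit false

namespace SEY

open Finset

variable {E : Type} [Fintype E] [DecidableEq E]

theorem lamMinor_ofRows_dual {r s k : ℕ} {rows : Fin r → Fin k → ZMod 2} {duals : Fin s → Fin k → ZMod 2}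
    (hc : Compl rows duals) : (ofRows rows).dual = ofRows duals := by
  refine BM.ext' rfl (fun g => ?_)
  have h1 : g ∈ (ofRows rows).dual.R ↔ ∀ j, ∑ e, g e * rows j e = 0 := by
    constructor
    · intro hg j
      have h := hg.2 (rows j) (Submodule.subset_span ⟨j, rfl⟩)
      unfold dot at h
      rw [← h]
      exact Finset.sum_congr rfl (fun e _ => mul_comm _ _)
    · intro h
      refine ⟨fun e he => absurd (Finset.mem_univ e) he, fun f hf => ?_⟩
      have hf' : f ∈ Submodule.span (ZMod 2) (Set.range rows) := hf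
      induction hf' using Submodule.span_induction with
      | mem x hx =>
        obtain ⟨j, rfl⟩ := hx
        unfold dot
        rw [← h j]
        exact Finset.sum_congr rfl (fun e _ => mul_comm _ _)
      | zero => simp
      | add x y hx hy h1 h2 => rw [dot_add_left, h1 hx, h2 hy, add_zero]
      | smul c x hx h1 => rw [dot_smul_left, h1 hx, mul_zero]
  have h2 : g ∈ (ofRows duals).R ↔ ∃ c : Fin s → ZMod 2, ∀ e, g e = ∑ i, c i * duals i e := by
    change g ∈ Submodule.span (ZMod 2) (Set.range duals) ↔ _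
    rw [Submodule.mem_span_range_iff_exists_fun]
    constructor
    · rintro ⟨c, rfl⟩
      refine ⟨c, fun e => ?_⟩
      simp [Finset.sum_apply]
    · rintro ⟨c, h⟩
      refine ⟨c, ?_⟩
      funext e
      rw [h e]
      simp [Finset.sum_apply]
  rw [h1, h2, hc.symm.span g]

theorem K33s_tc : (ofRows K33s).TC := by
  rw [← lamMinor_ofRows_dual compl_K33]
  exact K33_tc.dual

/-- Extension by zero along `φ`. -/
def lamMinorExt {k : ℕ} (φ : Fin k → E) : (Fin k → ZMod 2) →ₗ[ZMod 2] (E → ZMod 2) where
  toFun g := fun e => ∑ i, if φ i = e then g i else 0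
  map_add' f g := by
    funext e
    simp only [Pi.add_apply]
    rw [← Finset.sum_add_distrib]
    refine Finset.sum_congr rfl (fun i _ => ?_)
    by_cases h : φ i = e <;> simp [h]
  map_smul' c f := by
    funext e
    simp only [Pi.smul_apply, smul_eq_mul, RingHom.id_apply]
    rw [Finset.mul_sum]
    refine Finset.sum_congr rfl (fun i _ => ?_)
    by_cases h : φ i = e <;> simp [h]

theorem lamMinor_r_pull {k : ℕ} {φ : Fin k → E} (hφ : Function.Injective φ) (N : BM E) (N0 : BM (Fin k))
    (hR : N0.R = N.R.map (LinearMap.funLeft (ZMod 2) (ZMod 2) φ)) (A : Finset E) :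
    N0.r (univ.filter (fun j => φ j ∈ A)) = N.r (A ∩ univ.image φ) := by
  unfold BM.r
  rw [hR]
  have e1 : (N.R.map (LinearMap.funLeft (ZMod 2) (ZMod 2) φ)).map
      (mask (univ.filter (fun j => φ j ∈ A))) =
      (N.R.map (mask (A ∩ univ.image φ))).map (LinearMap.funLeft (ZMod 2) (ZMod 2) φ) := by
    rw [← Submodule.map_comp, ← Submodule.map_comp]
    congr 1
    ext f j
    simp [LinearMap.funLeft_apply, mask_apply]
  have e2 : N.R.map (mask (A ∩ univ.image φ)) =
      ((N.R.map (LinearMap.funLeft (ZMod 2) (ZMod 2) φ)).map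
      (mask (univ.filter (fun j => φ j ∈ A)))).map (lamMinorExt φ) := by
    rw [← Submodule.map_comp, ← Submodule.map_comp]
    congr 1
    refine LinearMap.ext (fun f => ?_)
    funext e
    simp only [LinearMap.comp_apply, mask_apply]
    change _ = ∑ i, if φ i = e then
      (mask (univ.filter (fun j => φ j ∈ A)) (LinearMap.funLeft (ZMod 2) (ZMod 2) φ f)) i else 0
    by_cases he : ∃ i, φ i = e
    · obtain ⟨i, rfl⟩ := he
      rw [Finset.sum_eq_single i]
      · simp [mask_apply, LinearMap.funLeft_apply]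
      · intro b _ hb
        rw [if_neg (fun h => hb (hφ h))]
      · intro h
        exact absurd (Finset.mem_univ i) h
    · rw [if_neg, Finset.sum_eq_zero]
      · intro i _
        rw [if_neg (fun h => he ⟨i, h⟩)]
      · intro h
        rw [Finset.mem_inter, Finset.mem_image] at h
        obtain ⟨_, i, _, hi⟩ := h
        exact he ⟨i, hi⟩
  apply le_antisymm
  · rw [e1]
    exact Submodule.finrank_map_le _ _
  · rw [e2]
    exact Submodule.finrank_map_le _ _

/-- The connectivity function does not increase under minors. -/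
theorem lam_minor {r k : ℕ} (rows : Fin r → Fin k → ZMod 2) (M : BM E) (φ : Fin k → E)
    (C : Finset E) (hφ : Function.Injective φ) (hφS : ∀ i, φ i ∈ M.S) (hCS : C ⊆ M.S)
    (hφC : ∀ i, φ i ∉ C)
    (h1 : ∀ i, ∃ f ∈ M.R, (∀ c ∈ C, f c = 0) ∧ ∀ j, f (φ j) = rows i j)
    (h2 : ∀ f ∈ M.R, (∀ c ∈ C, f c = 0) → ∃ c : Fin r → ZMod 2, ∀ j, f (φ j) = ∑ i, c i * rows i j)
    (X : Finset E) (hX : X ⊆ M.S) :
    (ofRows rows).lam (univ.filter (fun j => φ j ∈ X)) ≤ M.lam X := by
  have hR : (ofRows rows).R =
      (M.con C).R.map (LinearMap.funLeft (ZMod 2) (ZMod 2) φ) := by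
    apply le_antisymm
    · change Submodule.span (ZMod 2) (Set.range rows) ≤ _
      rw [Submodule.span_le]
      rintro _ ⟨i, rfl⟩
      obtain ⟨f, hf, hf1, hf2⟩ := h1 i
      exact ⟨f, ⟨hf, hf1⟩, funext hf2⟩
    · rintro _ ⟨f, hf, rfl⟩
      obtain ⟨c, hc⟩ := h2 f hf.1 hf.2
      change _ ∈ Submodule.span (ZMod 2) (Set.range rows)
      rw [Submodule.mem_span_range_iff_exists_fun]
      refine ⟨c, ?_⟩
      funext j
      rw [LinearMap.funLeft_apply, hc j]
      simp [Finset.sum_apply]
  set I : Finset E := univ.image φ with hI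
  have hmI : ∀ j, φ j ∈ I := fun j => Finset.mem_image_of_mem φ (Finset.mem_univ j)
  have hIS : I ⊆ M.S \ C := by
    intro e he
    rw [hI, Finset.mem_image] at he
    obtain ⟨i, _, rfl⟩ := he
    exact Finset.mem_sdiff.2 ⟨hφS i, hφC i⟩
  have hN : Minor ((M.con C).del Iᶜ) M := ⟨C, Iᶜ, rfl⟩
  refine le_trans (le_of_eq ?_) (hN.lam_le X)
  have hS : ((M.con C).del Iᶜ).S = I := by
    ext e
    simp only [BM.del_S, BM.con_S, Finset.mem_sdiff, Finset.mem_compl, not_not]
    constructor
    · exact fun h => h.2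
    · exact fun h => ⟨Finset.mem_sdiff.1 (hIS h), h⟩
  have key : ∀ A : Finset E, (ofRows rows).r (univ.filter (fun j => φ j ∈ A)) =
      ((M.con C).del Iᶜ).r A := by
    intro A
    rw [BM.r_del, lamMinor_r_pull hφ (M.con C) (ofRows rows) hR A]
    congr 1
    ext e
    simp [hI]
  have k1 := key X
  have k2 := key (I \ X)
  have k3 := key I
  have u1 : univ.filter (fun j => φ j ∈ I) = (ofRows rows).S := by
    ext j
    simp [hmI, ofRows]
  have u2 : univ.filter (fun j => φ j ∈ I \ X) =
      (ofRows rows).S \ univ.filter (fun j => φ j ∈ X) := by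
    ext j
    simp [hmI, ofRows]
  rw [u1] at k3
  rw [u2] at k2
  unfold BM.lam
  rw [k1, k2, k3, hS]

end SEY
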