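import Pool.Agent.Helper70.SEY.TriCon
import Pool.Agent.Helper70.SEY.LamMinor
import Pool.Agent.Helper71.SEYApi2

/-!
LV-7b (project SEY, block LEVEL): in outcome O2 (`TriT`) the matroid `M.con {e}` is 3-connected.

`N := M.con {e}`, ground set `S - e`.  API: Pool/Agent/Helper71/SEYApi.lean (rank and `lam` formulas,
`lam` under con, `lam` symmetric).  For `A` in `S - e`: `r_N A = r_M (A + e) - r_M {e}`, `r_M {e} = 1`.
Step 0 (`grid_side`).  Let `X` be a subset of `N.S` with `lam_N X <= 1`, `Y = N.S - X`.  Then `X` or `Y`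
contains at most one of the nine elements `phi j` of `TriT_grid`.  Proof: the matroid on `Fin 9` with
rows `K33s` has `lam <= 1` for the set `{j : phi j in X}` by `lam_minor`, and it is TC by `K33s_tc`.
Only the following consequence is needed: one of `X`, `Y`, call it `Y`, contains at most one element
of `W = {a i, b i}`.
Step 1.  We may also assume `|X| >= 2`, `|Y| >= 2` (else nothing to show for `lam <= 1`; for `lam_N = 0`
and `|Y| = 1`, `Y = {y}`: `y` would be a loop or a coloop of `N`: `y` loop of `N` means `y` parallel to `e` in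
`M` (or a loop), a coloop of `N` is a coloop of `M`; both are impossible by `TC_row_sep`, `TC_cyc_ne`).
Also `N.S` has at least 4 elements.
Step 2.  Suppose `w in W`, `w in Y`, say `w = a 0` (the other two `a`'s are in `X`).  `{a 0, a 1, a 2}` is a
cycle of `N` (`cyca`), so `w` is in the span of `X`: `r_N (X + w) = r_N X`, hence
`lam_N (Y - w) <= lam_N Y <= 1`.  If `|Y - w| >= 2` continue with `Y - w`.  Otherwise `Y = {w, y}`, `y <> w`,
`y` not in `W`.  If `r_N Y = 2` then `r_N X <= r_N (N.S) - 1` and, as `w` is in the span of `X`, `y` is a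
coloop of `N`, impossible.  So `r_N Y <= 1`: all rows of `N` agree on `w` and `y` (no loops in `N`), so
`ind {w, y}` or `ind {e, w, y}` is a cycle of `M`; it is not `ind {w, y}` (`TC_row_sep`); and
`ind {e, w, y}` is not orthogonal to the row `ind {e, a 1, b 1}` (common element `e` only, as `y` is not
in `W` and `w = a 0`).  Contradiction.  (In the same way for `w = b i`, `w = a i`.)
Step 3.  Now `Y` is disjoint from `W`, `|Y| >= 2`, `lam_N Y <= 1`, `W` is contained in `X`.  `e` is not in the
span of `Y` in `M` (the row `ind {e, a 0, b 0}` vanishes on `Y` and is 1 at `e`): `r_M (Y + e) = r_M Y + 1`;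
`e` is in the span of `X` (`cyca`): `r_M (X + e)` is `r_M` of `S - Y`.  So `lam_N Y = (r_M (Y + e) - 1) +
(r_M (X + e) - 1) - (r_M S - 1) = r_M Y + r_M (S - Y) - r_M S = lam_M Y`, so `lam_M Y <= 1` with
`|Y| >= 2` and `|S - Y| >= 2`: contradiction to `TC`.
-/

set_option autoImplicit false

namespace SEY

open Finset

variable {E : Type} [Fintype E] [DecidableEq E]

theorem TriT_con_TC {r k : ℕ} (rows : Fin r → Fin k → ZMod 2) (M : BM E) (h : M.TC) (e : E)
    (a b : Fin 3 → E) (hT : TriT rows M e a b) (hc : 11 ≤ M.S.card) : (M.con {e}).TC := by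

  classical
  obtain ⟨heS, haS, hbS⟩ := hT.mem
  obtain ⟨hai, hbi, hab, hea, heb⟩ := hT.inj
  -- connectivity of the contraction
  have key : ∀ A ⊆ (M.con {e}).S, M.r (insert e A) = M.r A + 1 → (M.con {e}).lam A = M.lam A := by
    intro A hA h1
    have g1 := M.lam_con_add {e} A
    have g2 := M.lam_add_rk A
    have g3 := h.r_singleton heS
    have h2 : A ∪ {e} = insert e A := by ext x; simp
    have h3 : (M.S \ A) ∪ {e} = M.S \ A := by
      ext x
      simp only [Finset.mem_union, Finset.mem_sdiff, Finset.mem_singleton]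
      constructor
      · rintro (h4 | h4)
        · exact h4
        · subst h4
          exact ⟨heS, fun h5 => by
            have := hA h5
            simp at this⟩
      · exact Or.inl
    rw [h2, h3] at g1
    omega
  have key1 : ∀ A ⊆ (M.con {e}).S, (∃ f ∈ M.R, f e = 1 ∧ ∀ x ∈ A, f x = 0) →
      M.r (insert e A) = M.r A + 1 := by
    rintro A hA ⟨f, hf, hfe, hfA⟩
    have g1 := M.r_insert_le A e
    have g2 := M.r_mono (Finset.subset_insert e A)
    rcases Nat.lt_or_ge (M.r A) (M.r (insert e A)) with g3 | g3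
    · omega
    · exfalso
      have heA : e ∉ A := fun h5 => by
        have := hA h5
        simp at this
      have hAS : A ⊆ M.S := fun x hx => by
        have := hA hx
        rw [BM.con_S, Finset.mem_sdiff] at this
        exact this.1
      obtain ⟨z, hz, hze, hz0⟩ := (M.r_insert_eq_iff hAS heS heA).1 (by omega)
      have h6 := M.dot_eq_zero hf hz
      rw [dot_eq_sum_right (A := insert e A) hz0, Finset.sum_insert heA, hfe, hze,
        Finset.sum_eq_zero (fun x hx => by rw [hfA x hx, zero_mul])] at h6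
      revert h6
      decide
  have key2 : ∀ A ⊆ (M.con {e}).S, ∀ i, a i ∉ A → b i ∉ A → M.r (insert e A) = M.r A + 1 := by
    intro A hA i hi hi'
    refine key1 A hA ⟨_, hT.row i, by simp, fun x hx => ?_⟩
    have h5 : x ≠ e := by
      rintro rfl
      have := hA hx
      simp at this
    have h6 : x ≠ a i := by rintro rfl; exact hi hx
    have h7 : x ≠ b i := by rintro rfl; exact hi' hx
    simp [h5, h6, h7]
  have key3 : ∀ A ⊆ (M.con {e}).S, ∀ i, a i ∉ A → b i ∉ A → (M.con {e}).lam A ≤ 1 →
      A.card ≤ 1 ∨ ((M.con {e}).S \ A).card ≤ 1 := by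
    intro A hA i hi hi' h1
    rw [key A hA (key2 A hA i hi hi')] at h1
    have hAS : A ⊆ M.S := fun x hx => by
      have := hA hx
      rw [BM.con_S, Finset.mem_sdiff] at this
      exact this.1
    rcases (h.2 A hAS).2 h1 with h2 | h2
    · exact Or.inl h2
    · right
      refine le_trans (Finset.card_le_card ?_) h2
      intro x hx
      simp only [BM.con_S, Finset.mem_sdiff, Finset.mem_singleton] at hx ⊢
      exact ⟨hx.1.1, hx.2⟩
  have key4 : ∀ A ⊆ (M.con {e}).S, (M.con {e}).lam A ≤ 1 →
      A.card ≤ 1 ∨ ((M.con {e}).S \ A).card ≤ 1 := by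
    intro A hA h1
    by_cases hc1 : ∃ i, a i ∉ A ∧ b i ∉ A
    · obtain ⟨i, hi, hi'⟩ := hc1
      exact key3 A hA i hi hi' h1
    by_cases hc2 : ∃ i, a i ∈ A ∧ b i ∈ A
    · obtain ⟨i, hi, hi'⟩ := hc2
      have := key3 ((M.con {e}).S \ A) Finset.sdiff_subset i (fun h' => (Finset.mem_sdiff.1 h').2 hi)
        (fun h' => (Finset.mem_sdiff.1 h').2 hi') (by rw [BM.lam_compl]; exact h1)
      rw [Finset.sdiff_sdiff_eq_self hA] at this
      exact this.symm
    exfalso
    push Not at hc1 hc2
    obtain ⟨d, C, hφ, hφS, hCS, hφC, g1, g2⟩ := TriT_grid rows M h e a b hT hc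
    have g3 := lam_minor K33s (M.con {e}) _ C hφ hφS hCS hφC g1 g2 A hA
    have g4 := (K33s_tc.2 _ (Finset.subset_univ _)).2 (g3.trans h1)
    set φ : Fin 9 → E := ![a 0, a 1, a 2, b 0, b 1, b 2, d 0, d 1, d 2] with hφdef
    have hval : ∀ i : Fin 3, φ (Fin.castLE (by norm_num) i) = a i ∧
        φ ⟨3 + i.val, by omega⟩ = b i := by
      intro i
      fin_cases i <;> exact ⟨rfl, rfl⟩
    -- in both sides there are three elements
    have h3 : ∀ i : Fin 3, ∃ j ∈ univ.filter (fun j => φ j ∈ A), (j : ℕ) = i ∨ (j : ℕ) = 3 + i := by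
      intro i
      by_cases h5 : a i ∈ A
      · exact ⟨Fin.castLE (by norm_num) i, by
          rw [Finset.mem_filter, (hval i).1]; exact ⟨Finset.mem_univ _, h5⟩, Or.inl rfl⟩
      · exact ⟨⟨3 + i.val, by omega⟩, by
          rw [Finset.mem_filter, (hval i).2]; exact ⟨Finset.mem_univ _, hc1 i h5⟩, Or.inr rfl⟩
    have h4 : ∀ i : Fin 3, ∃ j ∈ (univ : Finset (Fin 9)) \ univ.filter (fun j => φ j ∈ A),
        (j : ℕ) = i ∨ (j : ℕ) = 3 + i := by
      intro i
      by_cases h5 : a i ∈ A
      · exact ⟨⟨3 + i.val, by omega⟩, by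
          rw [Finset.mem_sdiff, Finset.mem_filter, (hval i).2]
          exact ⟨Finset.mem_univ _, fun h6 => hc2 i h5 h6.2⟩, Or.inr rfl⟩
      · exact ⟨Fin.castLE (by norm_num) i, by
          rw [Finset.mem_sdiff, Finset.mem_filter, (hval i).1]
          exact ⟨Finset.mem_univ _, fun h6 => h5 h6.2⟩, Or.inl rfl⟩
    rcases g4 with g4 | g4
    · obtain ⟨j0, hj0, hj0'⟩ := h3 0
      obtain ⟨j1, hj1, hj1'⟩ := h3 1
      have := Finset.card_le_one.1 g4 _ hj0 _ hj1
      subst this
      simp at hj0' hj1'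
      omega
    · obtain ⟨j0, hj0, hj0'⟩ := h4 0
      obtain ⟨j1, hj1, hj1'⟩ := h4 1
      have := Finset.card_le_one.1 g4 _ hj0 _ hj1
      subst this
      simp at hj0' hj1'
      omega
  have key5 : ∀ A ⊆ (M.con {e}).S, (M.con {e}).lam A = 0 → A.card ≤ 1 → A = ∅ := by
    intro A hA h1 h2
    by_contra h3
    obtain ⟨x, hx⟩ := Finset.nonempty_iff_ne_empty.2 h3
    have h4 : A = {x} := Finset.eq_singleton_iff_unique_mem.2
      ⟨hx, fun y hy => Finset.card_le_one.1 h2 _ hy _ hx⟩
    subst h4
    have hx' := hA hx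
    rw [BM.con_S, Finset.mem_sdiff, Finset.mem_singleton] at hx'
    have h5 := key {x} hA (by
      rw [h.r_singleton hx'.1]
      exact h.r_pair heS hx'.1 (fun h' => hx'.2 h'.symm))
    rw [h.lam_singleton hx'.1] at h5
    omega
  refine ⟨?_, fun A hA => ⟨fun h1 => ?_, key4 A hA⟩⟩
  · rw [BM.con_S, Finset.card_sdiff_of_subset (Finset.singleton_subset_iff.2 heS),
      Finset.card_singleton]
    omega
  · rcases key4 A hA (by omega) with h2 | h2
    · exact Or.inl (key5 A hA h1 h2)
    · right
      have h3 := key5 _ Finset.sdiff_subset (by rw [BM.lam_compl]; exact h1) h2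
      exact Finset.Subset.antisymm hA (Finset.sdiff_eq_empty_iff_subset.1 h3)

end SEY
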