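import Pool.Agent.Helper71.SEYApi2

/-!
Certificates for minors of concrete matroids.
-/

set_option autoImplicit false
set_option linter.unusedSectionVars false

namespace SEY

open Finset

variable {E : Type} [Fintype E] [DecidableEq E]

/-- Certificate that the concrete matroid `small` is a minor of the concrete matroid `big`:
`φ` embeds the ground set, `C` is the contracted set, the rows of `small` are the sums of rows of
`big` given by `A`, the columns of `big` are the combinations of the columns of `small` and of the
contracted columns given by `B` and `D`. -/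
def Cert {r k r' k' : ℕ} (small : Fin r' → Fin k' → ZMod 2) (big : Fin r → Fin k → ZMod 2)
    (φ : Fin k' → Fin k) (C : Fin k → Bool) (A : Fin r' → Fin r → ZMod 2)
    (B : Fin r → Fin r' → ZMod 2) (D : Fin k → Fin k' → ZMod 2) : Prop :=
  (∀ i j, φ i = φ j → i = j) ∧ (∀ i, C (φ i) = false) ∧
    (∀ l c, C c = true → ∑ i, A l i * big i c = 0) ∧
    (∀ l j, ∑ i, A l i * big i (φ j) = small l j) ∧
    (∀ i j, big i (φ j) = ∑ l, B i l * small l j + ∑ c, if C c = true then big i c * D c j else 0)

instance {r k r' k' : ℕ} (small : Fin r' → Fin k' → ZMod 2) (big : Fin r → Fin k → ZMod 2)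
    (φ : Fin k' → Fin k) (C : Fin k → Bool) (A : Fin r' → Fin r → ZMod 2)
    (B : Fin r → Fin r' → ZMod 2) (D : Fin k → Fin k' → ZMod 2) :
    Decidable (Cert small big φ C A B D) := by
  unfold Cert
  infer_instance

theorem HasMinor.of_cert {r k r' k' : ℕ} {small : Fin r' → Fin k' → ZMod 2}
    {big : Fin r → Fin k → ZMod 2} {φ : Fin k' → Fin k} {C : Fin k → Bool}
    {A : Fin r' → Fin r → ZMod 2} {B : Fin r → Fin r' → ZMod 2} {D : Fin k → Fin k' → ZMod 2}
    (hc : Cert small big φ C A B D) {M : BM E} (h : HasMinor big M) : HasMinor small M := by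
  obtain ⟨hφ, hφC, hA1, hA2, hB⟩ := hc
  obtain ⟨ψ, C0, hψ, hψS, hC0, hψC, h1, h2⟩ := h
  choose g hg hg0 hgψ using h1
  refine ⟨fun i => ψ (φ i), C0 ∪ (univ.filter (fun c => C c = true)).image ψ, ?_, fun i => hψS _,
    ?_, ?_, ?_, ?_⟩
  · intro i j hij
    exact hφ i j (hψ hij)
  · intro e he
    rcases mem_union.1 he with he | he
    · exact hC0 he
    · obtain ⟨c, -, rfl⟩ := mem_image.1 he
      exact hψS c
  · intro i hi
    rcases mem_union.1 hi with hi | hi
    · exact hψC _ hi
    · obtain ⟨c, hc, hcc⟩ := mem_image.1 hi
      have := hψ hcc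
      rw [mem_filter] at hc
      rw [this] at hc
      rw [hφC i] at hc
      exact absurd hc.2 (by simp)
  · intro l
    refine ⟨∑ i, A l i • g i, M.R.sum_mem fun i _ => M.R.smul_mem _ (hg i), ?_, ?_⟩
    · intro c hc
      rw [Finset.sum_apply]
      rcases mem_union.1 hc with hc | hc
      · exact sum_eq_zero fun i _ => by rw [Pi.smul_apply, hg0 i c hc, smul_zero]
      · obtain ⟨c', hc', rfl⟩ := mem_image.1 hc
        rw [← hA1 l c' (mem_filter.1 hc').2]
        exact sum_congr rfl fun i _ => by rw [Pi.smul_apply, hgψ, smul_eq_mul]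
    · intro j
      rw [Finset.sum_apply, ← hA2 l j]
      exact sum_congr rfl fun i _ => by rw [Pi.smul_apply, hgψ, smul_eq_mul]
  · intro f hf hf0
    obtain ⟨c, hc⟩ := h2 f hf fun x hx => hf0 x (mem_union_left _ hx)
    refine ⟨fun l => ∑ i, c i * B i l, fun j => ?_⟩
    rw [hc (φ j)]
    have h3 : ∀ c', C c' = true → ∑ i, c i * big i c' = 0 := by
      intro c' hc'
      rw [← hc c']
      exact hf0 _ (mem_union_right _ (mem_image_of_mem _ (mem_filter.2 ⟨mem_univ _, hc'⟩)))
    calc ∑ i, c i * big i (φ j)
        = ∑ i, c i * (∑ l, B i l * small l j + ∑ c', if C c' = true then big i c' * D c' j else 0) :=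
          sum_congr rfl fun i _ => by rw [← hB i j]
      _ = ∑ i, ∑ l, c i * (B i l * small l j) +
          ∑ i, ∑ c', c i * (if C c' = true then big i c' * D c' j else 0) := by
          rw [← sum_add_distrib]
          exact sum_congr rfl fun i _ => by rw [mul_add, mul_sum, mul_sum]
      _ = ∑ l, (∑ i, c i * B i l) * small l j + 0 := by
          congr 1
          · rw [sum_comm]
            refine sum_congr rfl fun l _ => ?_
            rw [sum_mul]
            exact sum_congr rfl fun i _ => by ring
          · rw [sum_comm]
            refine sum_eq_zero fun c' _ => ?_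
            by_cases h : C c' = true
            · have : ∑ i, c i * (if C c' = true then big i c' * D c' j else 0) =
                  (∑ i, c i * big i c') * D c' j := by
                rw [sum_mul]
                exact sum_congr rfl fun i _ => by rw [if_pos h]; ring
              rw [this, h3 c' h, zero_mul]
            · exact sum_eq_zero fun i _ => by rw [if_neg h, mul_zero]
      _ = _ := by rw [add_zero]

end SEY
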