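import Pool.Agent.Helper25.SEY.Frame

/-!
Outcome O1: a one-element extension of a graphic matroid given by `ends`.
-/

set_option autoImplicit false
set_option linter.unusedSectionVars false
set_option linter.unusedSimpArgs false

namespace SEY

open Finset

variable {E : Type} [Fintype E] [DecidableEq E]

/-- Star rows of a graph with an additional column `t`. -/
def graftRows {n k : ℕ} (ends : Fin k → Fin n × Fin n) (t : Fin n → ZMod 2) :
    Fin n → Fin (k + 1) → ZMod 2 :=
  fun v j => if hj : (j : ℕ) < k then grRows ends v ⟨j, hj⟩ else t v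

theorem O1_lift {n k : ℕ} (ends : Fin k → Fin n × Fin n) (M : BM E) (e : E) (he : e ∈ M.S)
    (hz : ∃ z ∈ M.Z, z e = 1) (h : IsIso (grRows ends) (M.del {e})) :
    ∃ t : Fin n → ZMod 2, ∑ v, t v = 0 ∧ IsIso (graftRows ends t) M := by
  obtain ⟨φ, hφ, hS, h1, h2⟩ := h
  obtain ⟨z, hz, hze⟩ := hz
  have hφS : ∀ j, φ j ∈ M.S ∧ φ j ≠ e := by
    intro j
    have := (hS (φ j)).2 ⟨j, rfl⟩
    simpa [BM.del] using this
  -- rows vanishing off `e` vanish
  have hzero : ∀ f ∈ M.R, (∀ j, f (φ j) = 0) → f e = 0 := by
    intro f hf hf0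
    have h3 : dot f z = 0 := hz.2 f hf
    have h4 : dot f z = f e * z e := by
      unfold dot
      refine Finset.sum_eq_single e (fun x _ hx => ?_) (fun h => absurd (mem_univ e) h)
      by_cases hxS : x ∈ M.S
      · have : x ∈ (M.del {e}).S := by simp [BM.del, hxS, hx]
        obtain ⟨j, rfl⟩ := (hS x).1 this
        rw [hf0 j, zero_mul]
      · rw [M.supp f hf x hxS, zero_mul]
    rw [h4, hze, mul_one] at h3
    exact h3
  have h1' : ∀ i, ∃ g ∈ M.R, ∀ j, g (φ j) = grRows ends i j := by
    intro i
    obtain ⟨f, hf, hf'⟩ := h1 i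
    obtain ⟨g, hg, rfl⟩ := hf
    refine ⟨g, hg, fun j => ?_⟩
    rw [← hf' j]
    have : φ j ∈ M.S \ {e} := by simp [hφS j]
    simp [mask, this, hφS j]
  choose g hg hgφ using h1'
  refine ⟨fun v => g v e, ?_, ?_⟩
  · have h5 : ∑ v, g v ∈ M.R := M.R.sum_mem fun v _ => hg v
    have h6 := hzero _ h5 (by
      intro j
      rw [Finset.sum_apply]
      rw [Finset.sum_congr rfl fun v _ => hgφ v j]
      unfold grRows
      rw [Finset.sum_add_distrib]
      simp
      decide)
    rw [Finset.sum_apply] at h6
    exact h6
  · refine ⟨fun j => if hj : (j : ℕ) < k then φ ⟨j, hj⟩ else e, ?_, ?_, ?_, ?_⟩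
    · intro i j hij
      by_cases hi : (i : ℕ) < k
      · by_cases hj : (j : ℕ) < k
        · simp only [hi, hj, dif_pos] at hij
          have := hφ hij
          simp only [Fin.mk.injEq] at this
          exact Fin.ext this
        · simp only [hi, hj, dif_pos, dif_neg, not_false_eq_true] at hij
          exact absurd hij (hφS _).2
      · by_cases hj : (j : ℕ) < k
        · simp only [hi, hj, dif_pos, dif_neg, not_false_eq_true] at hij
          exact absurd hij.symm (hφS _).2
        · apply Fin.ext
          have := i.isLt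
          have := j.isLt
          omega
    · intro x
      constructor
      · intro hx
        by_cases hxe : x = e
        · exact ⟨⟨k, by omega⟩, by simp [hxe]⟩
        · have : x ∈ (M.del {e}).S := by simp [BM.del, hx, hxe]
          obtain ⟨j, rfl⟩ := (hS x).1 this
          exact ⟨⟨j, by omega⟩, by simp⟩
      · rintro ⟨j, rfl⟩
        by_cases hj : (j : ℕ) < k
        · simp only [hj, dif_pos]
          exact (hφS _).1
        · simp only [hj, dif_neg, not_false_eq_true]
          exact he
    · intro v
      refine ⟨g v, hg v, fun j => ?_⟩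
      by_cases hj : (j : ℕ) < k
      · simp only [hj, dif_pos, graftRows, hgφ]
      · simp only [hj, dif_neg, not_false_eq_true, graftRows]
    · intro f hf
      have hm : mask (M.S \ {e}) f ∈ (M.del {e}).R := ⟨f, hf, rfl⟩
      obtain ⟨c, hc⟩ := h2 _ hm
      have hc' : ∀ j, f (φ j) = ∑ i, c i * grRows ends i j := by
        intro j
        rw [← hc j]
        have : φ j ∈ M.S \ {e} := by simp [hφS j]
        simp [mask, this, hφS j]
      refine ⟨c, fun j => ?_⟩
      by_cases hj : (j : ℕ) < k
      · simp only [hj, dif_pos, graftRows, hc']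
      · simp only [hj, dif_neg, not_false_eq_true, graftRows]
        have h7 := hzero (f - ∑ v, c v • g v)
          (M.R.sub_mem hf (M.R.sum_mem fun v _ => M.R.smul_mem _ (hg v))) (by
            intro j
            rw [Pi.sub_apply, Finset.sum_apply, hc' j, sub_eq_zero]
            exact Finset.sum_congr rfl fun v _ => by rw [Pi.smul_apply, hgφ, smul_eq_mul])
        rw [Pi.sub_apply, Finset.sum_apply, sub_eq_zero] at h7
        rw [h7]
        exact Finset.sum_congr rfl fun v _ => by rw [Pi.smul_apply, smul_eq_mul]

/-- If the new column has at most two entries the matroid is graphic. -/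
theorem graft_graphic {n k : ℕ} (ends : Fin k → Fin n × Fin n) (t : Fin n → ZMod 2) (M : BM E)
    (h : IsIso (graftRows ends t) M) (u v : Fin n)
    (ht : ∀ w, t w = (if u = w then 1 else 0) + (if v = w then 1 else 0)) : Graphic M := by
  have h2 : graftRows ends t =
      grRows (fun j : Fin (k + 1) => if hj : (j : ℕ) < k then ends ⟨j, hj⟩ else (u, v)) := by
    funext w j
    by_cases hj : (j : ℕ) < k
    · simp only [graftRows, grRows, hj, dif_pos]
    · simp only [graftRows, grRows, hj, dif_neg, not_false_eq_true, ht]
  rw [h2] at h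
  exact Graphic_of_IsIso _ h

end SEY
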