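import Pool.Agent.Helper70.SEY.Cert
import Pool.Agent.Helper70.SEY.O1

/-!
Certificates (generated by a program) for the finite checks of outcomes O1 and O4.
-/

set_option autoImplicit false
set_option maxRecDepth 100000

namespace SEY

open Finset

/-- A certificate as bit masks. -/
structure CD where
  φ : List ℕ
  C : ℕ
  A : List ℕ
  B : List ℕ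
  D : List ℕ

/-- A bit mask as a function. -/
def bt (l : List ℕ) (i j : ℕ) : ZMod 2 := if (l.getD i 0).testBit j then 1 else 0

/-- The certificate given by the bit masks is correct. -/
def CD.Good {r k r' k' : ℕ} [NeZero k] (small : Fin r' → Fin k' → ZMod 2)
    (big : Fin r → Fin k → ZMod 2) (c : CD) : Prop :=
  Cert small big (fun j => Fin.ofNat k (c.φ.getD j 0)) (fun j => c.C.testBit j)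
    (fun l i => bt c.A l i) (fun i l => bt c.B i l) (fun i j => bt c.D i j)

instance {r k r' k' : ℕ} [NeZero k] (small : Fin r' → Fin k' → ZMod 2)
    (big : Fin r → Fin k → ZMod 2) (c : CD) : Decidable (CD.Good small big c) := by
  unfold CD.Good
  infer_instance

def cF7 : CD := ⟨[0, 1, 2, 3, 4, 5, 6], 0, [2, 4, 7], [7, 1, 2, 4], [0, 0, 0, 0, 0, 0, 0]⟩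
def cR10 : CD := ⟨[0, 1, 3, 8, 6, 7, 4, 9, 5, 2], 0, [17, 16, 2, 31, 27], [3, 4, 24, 21, 2, 8], [0, 0, 0, 0, 0, 0, 0, 0, 0, 0]⟩
def dK4 : List CD :=
  [⟨[], 0, [], [], []⟩,
   ⟨[], 0, [], [], []⟩,
   ⟨[], 0, [], [], []⟩,
   ⟨[], 0, [], [], []⟩,
   ⟨[], 0, [], [], []⟩,
   ⟨[], 0, [], [], []⟩,
   ⟨[], 0, [], [], []⟩,
   ⟨[], 0, [], [], []⟩,
   ⟨[], 0, [], [], []⟩,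
   ⟨[], 0, [], [], []⟩,
   ⟨[], 0, [], [], []⟩,
   ⟨[0, 2, 7, 3, 5, 4, 8, 1, 6], 0, [5, 13, 1, 15], [4, 10, 5, 3, 8], [0, 0, 0, 0, 0, 0, 0, 0, 0]⟩,
   ⟨[], 0, [], [], []⟩,
   ⟨[], 0, [], [], []⟩,
   ⟨[0, 1, 7, 4, 5, 3, 8, 2, 6], 0, [9, 13, 1, 15], [4, 10, 3, 5, 8], [0, 0, 0, 0, 0, 0, 0, 0, 0]⟩,
   ⟨[], 0, [], [], []⟩,
   ⟨[], 0, [], [], []⟩,
   ⟨[], 0, [], [], []⟩,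
   ⟨[], 0, [], [], []⟩,
   ⟨[], 0, [], [], []⟩,
   ⟨[], 0, [], [], []⟩,
   ⟨[], 0, [], [], []⟩,
   ⟨[], 0, [], [], []⟩,
   ⟨[0, 2, 4, 6, 7, 5, 8, 1, 3], 0, [14, 6, 1, 2], [4, 8, 10, 3, 5], [0, 0, 0, 0, 0, 0, 0, 0, 0]⟩,
   ⟨[], 0, [], [], []⟩,
   ⟨[], 0, [], [], []⟩,
   ⟨[], 0, [], [], []⟩,
   ⟨[], 0, [], [], []⟩,
   ⟨[], 0, [], [], []⟩,
   ⟨[0, 1, 7, 2, 8, 6, 4, 5, 3], 0, [1, 14, 9, 2], [1, 8, 15, 5, 3], [0, 0, 0, 0, 0, 0, 0, 0, 0]⟩,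
   ⟨[], 0, [], [], []⟩,
   ⟨[], 0, [], [], []⟩,
   ⟨[], 0, [], [], []⟩,
   ⟨[], 0, [], [], []⟩,
   ⟨[], 0, [], [], []⟩,
   ⟨[], 0, [], [], []⟩,
   ⟨[], 0, [], [], []⟩,
   ⟨[], 0, [], [], []⟩,
   ⟨[0, 1, 3, 6, 7, 5, 8, 2, 4], 0, [14, 10, 1, 2], [4, 8, 3, 10, 5], [0, 0, 0, 0, 0, 0, 0, 0, 0]⟩,
   ⟨[], 0, [], [], []⟩,
   ⟨[], 0, [], [], []⟩,
   ⟨[0, 1, 3, 2, 8, 5, 7, 6, 4], 0, [1, 5, 14, 2], [1, 8, 3, 15, 5], [0, 0, 0, 0, 0, 0, 0, 0, 0]⟩,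
   ⟨[], 0, [], [], []⟩,
   ⟨[], 0, [], [], []⟩,
   ⟨[], 0, [], [], []⟩,
   ⟨[], 0, [], [], []⟩,
   ⟨[], 0, [], [], []⟩,
   ⟨[], 0, [], [], []⟩,
   ⟨[], 0, [], [], []⟩,
   ⟨[], 0, [], [], []⟩,
   ⟨[], 0, [], [], []⟩,
   ⟨[0, 2, 4, 6, 5, 7, 8, 1, 3], 0, [5, 13, 1, 2], [4, 8, 5, 3, 10], [0, 0, 0, 0, 0, 0, 0, 0, 0]⟩,
   ⟨[], 0, [], [], []⟩,
   ⟨[], 0, [], [], []⟩,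
   ⟨[], 0, [], [], []⟩,
   ⟨[], 0, [], [], []⟩,
   ⟨[], 0, [], [], []⟩,
   ⟨[], 0, [], [], []⟩,
   ⟨[], 0, [], [], []⟩,
   ⟨[], 0, [], [], []⟩,
   ⟨[0, 2, 4, 3, 5, 8, 7, 1, 6], 0, [10, 2, 1, 13], [4, 2, 15, 3, 10], [0, 0, 0, 0, 0, 0, 0, 0, 0]⟩,
   ⟨[], 0, [], [], []⟩,
   ⟨[], 0, [], [], []⟩,
   ⟨[], 0, [], [], []⟩,
   ⟨[], 0, [], [], []⟩,
   ⟨[], 0, [], [], []⟩,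
   ⟨[0, 1, 3, 6, 5, 7, 8, 2, 4], 0, [9, 13, 1, 2], [4, 8, 3, 5, 10], [0, 0, 0, 0, 0, 0, 0, 0, 0]⟩,
   ⟨[], 0, [], [], []⟩,
   ⟨[], 0, [], [], []⟩,
   ⟨[], 0, [], [], []⟩,
   ⟨[], 0, [], [], []⟩,
   ⟨[], 0, [], [], []⟩,
   ⟨[0, 1, 3, 4, 5, 8, 7, 2, 6], 0, [6, 2, 1, 13], [4, 2, 3, 15, 10], [0, 0, 0, 0, 0, 0, 0, 0, 0]⟩,
   ⟨[], 0, [], [], []⟩,
   ⟨[], 0, [], [], []⟩,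
   ⟨[], 0, [], [], []⟩,
   ⟨[], 0, [], [], []⟩,
   ⟨[], 0, [], [], []⟩,
   ⟨[], 0, [], [], []⟩,
   ⟨[], 0, [], [], []⟩,
   ⟨[], 0, [], [], []⟩,
   ⟨[0, 1, 3, 2, 8, 5, 4, 6, 7], 0, [1, 5, 9, 2], [1, 8, 3, 5, 15], [0, 0, 0, 0, 0, 0, 0, 0, 0]⟩,
   ⟨[], 0, [], [], []⟩,
   ⟨[], 0, [], [], []⟩,
   ⟨[0, 1, 3, 2, 7, 6, 4, 5, 8], 0, [1, 10, 6, 2], [1, 8, 12, 10, 15], [0, 0, 0, 0, 0, 0, 0, 0, 0]⟩,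
   ⟨[], 0, [], [], []⟩,
   ⟨[], 0, [], [], []⟩,
   ⟨[], 0, [], [], []⟩,
   ⟨[], 0, [], [], []⟩,
   ⟨[], 0, [], [], []⟩,
   ⟨[], 0, [], [], []⟩,
   ⟨[], 0, [], [], []⟩,
   ⟨[], 0, [], [], []⟩,
   ⟨[], 0, [], [], []⟩,
   ⟨[], 0, [], [], []⟩,
   ⟨[], 0, [], [], []⟩]
def dT4 : List CD :=
  [⟨[], 0, [], [], []⟩,
   ⟨[], 0, [], [], []⟩,
   ⟨[], 0, [], [], []⟩,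
   ⟨[], 0, [], [], []⟩,
   ⟨[], 0, [], [], []⟩,
   ⟨[], 0, [], [], []⟩,
   ⟨[], 0, [], [], []⟩,
   ⟨[], 0, [], [], []⟩,
   ⟨[], 0, [], [], []⟩,
   ⟨[], 0, [], [], []⟩,
   ⟨[], 0, [], [], []⟩,
   ⟨[], 0, [], [], []⟩,
   ⟨[], 0, [], [], []⟩,
   ⟨[], 0, [], [], []⟩,
   ⟨[], 0, [], [], []⟩,
   ⟨[0, 2, 6, 3, 7, 9, 8], 34, [12, 29, 4], [5, 5, 4, 5, 6, 7], [0, 14, 0, 0, 0, 5, 0, 0, 0, 0]⟩,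
   ⟨[], 0, [], [], []⟩,
   ⟨[], 0, [], [], []⟩,
   ⟨[], 0, [], [], []⟩,
   ⟨[], 0, [], [], []⟩,
   ⟨[], 0, [], [], []⟩,
   ⟨[], 0, [], [], []⟩,
   ⟨[], 0, [], [], []⟩,
   ⟨[1, 2, 6, 4, 7, 8, 9], 33, [16, 29, 4], [7, 7, 4, 0, 1, 5], [4, 0, 0, 0, 0, 15, 0, 0, 0, 0]⟩,
   ⟨[], 0, [], [], []⟩,
   ⟨[], 0, [], [], []⟩,
   ⟨[], 0, [], [], []⟩,
   ⟨[0, 1, 3, 7, 5, 9, 4], 68, [14, 16, 2], [5, 4, 0, 5, 2, 6], [0, 0, 14, 0, 0, 0, 8, 0, 0, 0]⟩,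
   ⟨[], 0, [], [], []⟩,
   ⟨[0, 1, 6, 4, 8, 9, 7], 12, [14, 16, 4], [5, 0, 4, 5, 2, 6], [0, 0, 14, 8, 0, 0, 0, 0, 0, 0]⟩,
   ⟨[1, 2, 6, 4, 7, 8, 9], 33, [16, 29, 4], [0, 7, 4, 7, 1, 5], [3, 0, 0, 0, 0, 15, 0, 0, 0, 0]⟩,
   ⟨[], 0, [], [], []⟩,
   ⟨[], 0, [], [], []⟩,
   ⟨[], 0, [], [], []⟩,
   ⟨[], 0, [], [], []⟩,
   ⟨[], 0, [], [], []⟩,
   ⟨[], 0, [], [], []⟩,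
   ⟨[], 0, [], [], []⟩,
   ⟨[], 0, [], [], []⟩,
   ⟨[1, 2, 6, 5, 7, 8, 9], 17, [18, 31, 4], [7, 7, 4, 0, 6, 2], [4, 0, 0, 0, 15, 0, 0, 0, 0, 0]⟩,
   ⟨[], 0, [], [], []⟩,
   ⟨[], 0, [], [], []⟩,
   ⟨[], 0, [], [], []⟩,
   ⟨[0, 2, 3, 8, 4, 9, 5], 66, [14, 31, 2], [5, 4, 0, 5, 6, 2], [0, 14, 0, 0, 0, 0, 8, 0, 0, 0]⟩,
   ⟨[], 0, [], [], []⟩,
   ⟨[0, 2, 6, 5, 7, 9, 8], 10, [14, 31, 4], [5, 0, 4, 5, 6, 2], [0, 14, 0, 8, 0, 0, 0, 0, 0, 0]⟩,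
   ⟨[1, 2, 6, 5, 7, 8, 9], 17, [18, 31, 4], [0, 7, 4, 7, 6, 2], [3, 0, 0, 0, 15, 0, 0, 0, 0, 0]⟩,
   ⟨[], 0, [], [], []⟩,
   ⟨[], 0, [], [], []⟩,
   ⟨[], 0, [], [], []⟩,
   ⟨[], 0, [], [], []⟩,
   ⟨[1, 2, 3, 8, 4, 5, 9], 129, [20, 31, 2], [7, 4, 0, 0, 1, 2], [4, 0, 0, 0, 0, 0, 0, 8, 0, 0]⟩,
   ⟨[], 0, [], [], []⟩,
   ⟨[1, 2, 6, 5, 7, 8, 9], 17, [18, 31, 4], [7, 0, 4, 0, 1, 2], [4, 0, 0, 0, 8, 0, 0, 0, 0, 0]⟩,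
   ⟨[0, 2, 6, 5, 7, 9, 8], 10, [14, 31, 4], [0, 5, 4, 0, 3, 2], [0, 3, 0, 5, 0, 0, 0, 0, 0, 0]⟩,
   ⟨[], 0, [], [], []⟩,
   ⟨[], 0, [], [], []⟩,
   ⟨[0, 1, 2, 4, 5, 8, 9], 136, [10, 20, 31], [7, 6, 5, 7, 7, 4], [0, 0, 0, 6, 0, 0, 0, 13, 0, 0]⟩,
   ⟨[1, 2, 3, 8, 4, 5, 9], 129, [20, 31, 2], [0, 4, 0, 7, 1, 2], [3, 0, 0, 0, 0, 0, 0, 8, 0, 0]⟩,
   ⟨[], 0, [], [], []⟩,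
   ⟨[1, 2, 6, 5, 7, 8, 9], 17, [18, 31, 4], [0, 0, 4, 7, 1, 2], [3, 0, 0, 0, 8, 0, 0, 0, 0, 0]⟩,
   ⟨[], 0, [], [], []⟩,
   ⟨[], 0, [], [], []⟩,
   ⟨[], 0, [], [], []⟩]
def dF7 : List CD :=
  [⟨[], 0, [], [], []⟩,
   ⟨[], 0, [], [], []⟩,
   ⟨[], 0, [], [], []⟩,
   ⟨[], 0, [], [], []⟩,
   ⟨[], 0, [], [], []⟩,
   ⟨[], 0, [], [], []⟩,
   ⟨[], 0, [], [], []⟩,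
   ⟨[], 0, [], [], []⟩,
   ⟨[], 0, [], [], []⟩,
   ⟨[], 0, [], [], []⟩,
   ⟨[0, 1, 3, 10, 11, 8, 9], 84, [63, 30, 12], [6, 6, 5, 1, 0, 5, 1], [0, 0, 13, 0, 10, 0, 13, 0, 0, 0, 0, 0]⟩,
   ⟨[0, 2, 3, 10, 11, 7, 9], 98, [63, 46, 12], [6, 6, 5, 1, 5, 0, 1], [0, 13, 0, 0, 0, 10, 13, 0, 0, 0, 0, 0]⟩,
   ⟨[], 0, [], [], []⟩,
   ⟨[], 0, [], [], []⟩,
   ⟨[], 0, [], [], []⟩,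
   ⟨[], 0, [], [], []⟩,
   ⟨[0, 1, 4, 10, 11, 5, 9], 140, [63, 30, 10], [6, 5, 6, 1, 0, 5, 1], [0, 0, 13, 9, 0, 0, 0, 14, 0, 0, 0, 0]⟩,
   ⟨[0, 2, 4, 10, 9, 5, 11], 266, [63, 36, 10], [7, 5, 7, 1, 0, 5, 1], [0, 4, 0, 9, 0, 0, 0, 0, 7, 0, 0, 0]⟩,
   ⟨[], 0, [], [], []⟩,
   ⟨[], 0, [], [], []⟩,
   ⟨[], 0, [], [], []⟩,
   ⟨[], 0, [], [], []⟩,
   ⟨[], 0, [], [], []⟩,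
   ⟨[], 0, [], [], []⟩,
   ⟨[], 0, [], [], []⟩,
   ⟨[0, 1, 3, 10, 11, 8, 9], 84, [63, 30, 12], [6, 0, 5, 1, 6, 5, 1], [0, 0, 13, 0, 12, 0, 13, 0, 0, 0, 0, 0]⟩,
   ⟨[0, 1, 4, 10, 11, 5, 9], 140, [63, 30, 10], [6, 5, 0, 1, 6, 5, 1], [0, 0, 13, 9, 0, 0, 0, 8, 0, 0, 0, 0]⟩,
   ⟨[], 0, [], [], []⟩,
   ⟨[], 0, [], [], []⟩,
   ⟨[], 0, [], [], []⟩,
   ⟨[], 0, [], [], []⟩,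
   ⟨[0, 2, 3, 10, 11, 7, 9], 98, [63, 46, 12], [6, 0, 5, 1, 5, 6, 1], [0, 13, 0, 0, 0, 12, 13, 0, 0, 0, 0, 0]⟩,
   ⟨[0, 2, 4, 10, 9, 5, 11], 266, [63, 36, 10], [7, 5, 0, 1, 0, 2, 1], [0, 4, 0, 9, 0, 0, 0, 0, 8, 0, 0, 0]⟩,
   ⟨[], 0, [], [], []⟩,
   ⟨[], 0, [], [], []⟩,
   ⟨[], 0, [], [], []⟩,
   ⟨[], 0, [], [], []⟩,
   ⟨[], 0, [], [], []⟩,
   ⟨[], 0, [], [], []⟩,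
   ⟨[], 0, [], [], []⟩,
   ⟨[], 0, [], [], []⟩,
   ⟨[], 0, [], [], []⟩,
   ⟨[], 0, [], [], []⟩,
   ⟨[], 0, [], [], []⟩,
   ⟨[], 0, [], [], []⟩,
   ⟨[0, 1, 4, 10, 8, 11, 9], 140, [30, 63, 20], [5, 5, 6, 0, 2, 6, 2], [0, 0, 14, 9, 0, 0, 0, 14, 0, 0, 0, 0]⟩,
   ⟨[], 0, [], [], []⟩,
   ⟨[1, 2, 4, 10, 11, 7, 9], 97, [63, 50, 16], [6, 6, 5, 0, 4, 0, 1], [13, 0, 0, 0, 0, 10, 13, 0, 0, 0, 0, 0]⟩,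
   ⟨[], 0, [], [], []⟩,
   ⟨[], 0, [], [], []⟩,
   ⟨[], 0, [], [], []⟩,
   ⟨[0, 1, 3, 10, 5, 11, 9], 84, [30, 63, 18], [5, 6, 5, 0, 2, 6, 2], [0, 0, 14, 0, 10, 0, 13, 0, 0, 0, 0, 0]⟩,
   ⟨[], 0, [], [], []⟩,
   ⟨[1, 2, 4, 10, 9, 7, 11], 265, [63, 36, 16], [7, 0, 2, 0, 4, 0, 1], [4, 0, 0, 4, 0, 0, 0, 0, 10, 0, 0, 0]⟩,
   ⟨[], 0, [], [], []⟩,
   ⟨[0, 1, 4, 10, 8, 11, 9], 140, [30, 63, 20], [5, 0, 6, 5, 2, 6, 2], [0, 0, 14, 12, 0, 0, 0, 14, 0, 0, 0, 0]⟩,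
   ⟨[0, 1, 3, 10, 5, 11, 9], 84, [30, 63, 18], [5, 6, 0, 5, 2, 6, 2], [0, 0, 14, 0, 10, 0, 8, 0, 0, 0, 0, 0]⟩,
   ⟨[], 0, [], [], []⟩,
   ⟨[], 0, [], [], []⟩,
   ⟨[], 0, [], [], []⟩,
   ⟨[], 0, [], [], []⟩,
   ⟨[], 0, [], [], []⟩,
   ⟨[], 0, [], [], []⟩,
   ⟨[], 0, [], [], []⟩,
   ⟨[], 0, [], [], []⟩,
   ⟨[], 0, [], [], []⟩,
   ⟨[], 0, [], [], []⟩,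
   ⟨[1, 2, 4, 10, 11, 7, 9], 97, [63, 50, 16], [6, 0, 5, 0, 4, 6, 1], [13, 0, 0, 0, 0, 12, 13, 0, 0, 0, 0, 0]⟩,
   ⟨[1, 2, 4, 10, 9, 7, 11], 265, [63, 36, 16], [7, 0, 5, 0, 4, 7, 1], [4, 0, 0, 4, 0, 0, 0, 0, 5, 0, 0, 0]⟩,
   ⟨[], 0, [], [], []⟩,
   ⟨[], 0, [], [], []⟩,
   ⟨[], 0, [], [], []⟩,
   ⟨[], 0, [], [], []⟩,
   ⟨[], 0, [], [], []⟩,
   ⟨[], 0, [], [], []⟩,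
   ⟨[], 0, [], [], []⟩,
   ⟨[], 0, [], [], []⟩,
   ⟨[], 0, [], [], []⟩,
   ⟨[], 0, [], [], []⟩,
   ⟨[], 0, [], [], []⟩,
   ⟨[], 0, [], [], []⟩,
   ⟨[0, 2, 5, 10, 8, 11, 9], 138, [42, 63, 32], [5, 5, 6, 0, 0, 4, 2], [0, 14, 0, 9, 0, 0, 0, 14, 0, 0, 0, 0]⟩,
   ⟨[1, 2, 5, 10, 8, 11, 9], 81, [50, 63, 32], [5, 5, 6, 0, 0, 4, 2], [14, 0, 0, 0, 9, 0, 14, 0, 0, 0, 0, 0]⟩,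
   ⟨[], 0, [], [], []⟩,
   ⟨[], 0, [], [], []⟩,
   ⟨[], 0, [], [], []⟩,
   ⟨[], 0, [], [], []⟩,
   ⟨[0, 2, 5, 10, 8, 9, 11], 82, [12, 63, 32], [7, 0, 1, 0, 0, 4, 2], [0, 4, 0, 0, 4, 0, 9, 0, 0, 0, 0, 0]⟩,
   ⟨[1, 2, 5, 10, 8, 9, 11], 137, [20, 63, 32], [7, 0, 1, 0, 0, 4, 2], [4, 0, 0, 4, 0, 0, 0, 9, 0, 0, 0, 0]⟩,
   ⟨[], 0, [], [], []⟩,
   ⟨[], 0, [], [], []⟩,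
   ⟨[0, 2, 5, 10, 8, 11, 9], 138, [42, 63, 32], [5, 0, 6, 5, 0, 4, 2], [0, 14, 0, 12, 0, 0, 0, 14, 0, 0, 0, 0]⟩,
   ⟨[0, 2, 5, 10, 8, 9, 11], 82, [12, 63, 32], [7, 0, 6, 7, 0, 4, 2], [0, 4, 0, 0, 4, 0, 6, 0, 0, 0, 0, 0]⟩,
   ⟨[], 0, [], [], []⟩,
   ⟨[], 0, [], [], []⟩,
   ⟨[], 0, [], [], []⟩,
   ⟨[], 0, [], [], []⟩,
   ⟨[1, 2, 5, 10, 8, 11, 9], 81, [50, 63, 32], [5, 0, 6, 0, 5, 4, 2], [14, 0, 0, 0, 12, 0, 14, 0, 0, 0, 0, 0]⟩,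
   ⟨[1, 2, 5, 10, 8, 9, 11], 137, [20, 63, 32], [7, 0, 6, 0, 7, 4, 2], [4, 0, 0, 4, 0, 0, 0, 6, 0, 0, 0, 0]⟩,
   ⟨[], 0, [], [], []⟩,
   ⟨[], 0, [], [], []⟩,
   ⟨[], 0, [], [], []⟩,
   ⟨[], 0, [], [], []⟩,
   ⟨[], 0, [], [], []⟩,
   ⟨[], 0, [], [], []⟩,
   ⟨[], 0, [], [], []⟩,
   ⟨[], 0, [], [], []⟩,
   ⟨[], 0, [], [], []⟩,
   ⟨[], 0, [], [], []⟩,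
   ⟨[], 0, [], [], []⟩,
   ⟨[], 0, [], [], []⟩,
   ⟨[], 0, [], [], []⟩,
   ⟨[0, 2, 3, 8, 11, 10, 9], 98, [12, 29, 63], [6, 6, 0, 1, 5, 0, 4], [0, 13, 0, 0, 0, 10, 8, 0, 0, 0, 0, 0]⟩,
   ⟨[0, 1, 3, 7, 11, 10, 9], 84, [12, 45, 63], [6, 6, 0, 1, 0, 5, 4], [0, 0, 13, 0, 10, 0, 8, 0, 0, 0, 0, 0]⟩,
   ⟨[], 0, [], [], []⟩,
   ⟨[], 0, [], [], []⟩,
   ⟨[], 0, [], [], []⟩,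
   ⟨[], 0, [], [], []⟩,
   ⟨[], 0, [], [], []⟩,
   ⟨[], 0, [], [], []⟩,
   ⟨[], 0, [], [], []⟩,
   ⟨[], 0, [], [], []⟩,
   ⟨[], 0, [], [], []⟩,
   ⟨[], 0, [], [], []⟩,
   ⟨[1, 3, 4, 11, 5, 10, 9], 133, [41, 63, 61], [0, 6, 0, 7, 5, 6, 2], [15, 0, 14, 0, 0, 0, 0, 8, 0, 0, 0, 0]⟩,
   ⟨[2, 3, 4, 11, 5, 9, 10], 259, [36, 63, 61], [0, 6, 0, 5, 0, 1, 2], [5, 4, 0, 0, 0, 0, 0, 0, 8, 0, 0, 0]⟩,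
   ⟨[], 0, [], [], []⟩,
   ⟨[], 0, [], [], []⟩,
   ⟨[], 0, [], [], []⟩,
   ⟨[], 0, [], [], []⟩,
   ⟨[], 0, [], [], []⟩,
   ⟨[], 0, [], [], []⟩,
   ⟨[0, 2, 3, 8, 11, 10, 9], 98, [12, 29, 63], [5, 6, 0, 1, 6, 0, 4], [0, 14, 0, 0, 0, 10, 8, 0, 0, 0, 0, 0]⟩,
   ⟨[], 0, [], [], []⟩,
   ⟨[1, 3, 4, 11, 5, 10, 9], 133, [41, 63, 61], [0, 6, 5, 7, 0, 6, 2], [15, 0, 14, 0, 0, 0, 0, 13, 0, 0, 0, 0]⟩,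
   ⟨[], 0, [], [], []⟩,
   ⟨[], 0, [], [], []⟩,
   ⟨[], 0, [], [], []⟩,
   ⟨[0, 1, 3, 7, 11, 10, 9], 84, [12, 45, 63], [5, 6, 0, 1, 0, 6, 4], [0, 0, 14, 0, 10, 0, 8, 0, 0, 0, 0, 0]⟩,
   ⟨[], 0, [], [], []⟩,
   ⟨[2, 3, 4, 11, 5, 9, 10], 259, [36, 63, 61], [0, 6, 7, 5, 0, 6, 2], [5, 4, 0, 0, 0, 0, 0, 0, 7, 0, 0, 0]⟩,
   ⟨[], 0, [], [], []⟩,
   ⟨[], 0, [], [], []⟩,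
   ⟨[], 0, [], [], []⟩,
   ⟨[], 0, [], [], []⟩,
   ⟨[], 0, [], [], []⟩,
   ⟨[], 0, [], [], []⟩,
   ⟨[1, 2, 4, 8, 11, 10, 9], 161, [20, 29, 63], [6, 6, 0, 5, 1, 0, 4], [13, 0, 0, 0, 0, 10, 0, 8, 0, 0, 0, 0]⟩,
   ⟨[], 0, [], [], []⟩,
   ⟨[0, 1, 4, 7, 10, 11, 9], 76, [49, 16, 63], [5, 5, 0, 0, 2, 6, 4], [0, 0, 14, 9, 0, 0, 8, 0, 0, 0, 0, 0]⟩,
   ⟨[], 0, [], [], []⟩,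
   ⟨[], 0, [], [], []⟩,
   ⟨[], 0, [], [], []⟩,
   ⟨[], 0, [], [], []⟩,
   ⟨[], 0, [], [], []⟩,
   ⟨[], 0, [], [], []⟩,
   ⟨[], 0, [], [], []⟩,
   ⟨[], 0, [], [], []⟩,
   ⟨[], 0, [], [], []⟩,
   ⟨[0, 3, 4, 5, 11, 10, 9], 70, [49, 61, 63], [0, 6, 6, 5, 1, 0, 4], [0, 9, 8, 0, 0, 0, 14, 0, 0, 0, 0, 0]⟩,
   ⟨[], 0, [], [], []⟩,
   ⟨[2, 3, 4, 5, 11, 9, 10], 259, [36, 61, 63], [0, 6, 6, 0, 3, 7, 4], [2, 3, 0, 0, 0, 0, 0, 0, 14, 0, 0, 0]⟩,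
   ⟨[1, 2, 4, 8, 11, 10, 9], 161, [20, 29, 63], [5, 6, 0, 6, 1, 0, 4], [14, 0, 0, 0, 0, 10, 0, 8, 0, 0, 0, 0]⟩,
   ⟨[], 0, [], [], []⟩,
   ⟨[0, 3, 4, 5, 11, 10, 9], 70, [49, 61, 63], [0, 6, 5, 6, 1, 0, 4], [0, 9, 8, 0, 0, 0, 13, 0, 0, 0, 0, 0]⟩,
   ⟨[], 0, [], [], []⟩,
   ⟨[], 0, [], [], []⟩,
   ⟨[], 0, [], [], []⟩,
   ⟨[], 0, [], [], []⟩,
   ⟨[], 0, [], [], []⟩,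
   ⟨[], 0, [], [], []⟩,
   ⟨[], 0, [], [], []⟩,
   ⟨[], 0, [], [], []⟩,
   ⟨[], 0, [], [], []⟩,
   ⟨[0, 1, 4, 7, 10, 11, 9], 76, [49, 16, 63], [6, 5, 0, 0, 2, 5, 4], [0, 0, 13, 9, 0, 0, 8, 0, 0, 0, 0, 0]⟩,
   ⟨[], 0, [], [], []⟩,
   ⟨[2, 3, 4, 5, 11, 9, 10], 259, [36, 61, 63], [0, 6, 7, 0, 3, 6, 4], [2, 3, 0, 0, 0, 0, 0, 0, 7, 0, 0, 0]⟩,
   ⟨[], 0, [], [], []⟩,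
   ⟨[], 0, [], [], []⟩,
   ⟨[], 0, [], [], []⟩,
   ⟨[], 0, [], [], []⟩,
   ⟨[], 0, [], [], []⟩,
   ⟨[], 0, [], [], []⟩,
   ⟨[1, 2, 5, 8, 10, 11, 9], 145, [41, 32, 63], [5, 5, 0, 6, 0, 2, 4], [14, 0, 0, 0, 9, 0, 0, 8, 0, 0, 0, 0]⟩,
   ⟨[0, 2, 5, 8, 10, 11, 9], 74, [49, 32, 63], [5, 5, 0, 0, 6, 2, 4], [0, 14, 0, 9, 0, 0, 8, 0, 0, 0, 0, 0]⟩,
   ⟨[], 0, [], [], []⟩,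
   ⟨[], 0, [], [], []⟩,
   ⟨[], 0, [], [], []⟩,
   ⟨[], 0, [], [], []⟩,
   ⟨[], 0, [], [], []⟩,
   ⟨[], 0, [], [], []⟩,
   ⟨[], 0, [], [], []⟩,
   ⟨[], 0, [], [], []⟩,
   ⟨[], 0, [], [], []⟩,
   ⟨[], 0, [], [], []⟩,
   ⟨[0, 3, 5, 4, 11, 10, 9], 70, [49, 61, 63], [0, 6, 6, 5, 0, 1, 4], [0, 8, 9, 0, 0, 0, 14, 0, 0, 0, 0, 0]⟩,
   ⟨[1, 3, 5, 4, 11, 9, 10], 133, [20, 61, 63], [0, 6, 6, 0, 7, 3, 4], [2, 0, 3, 0, 0, 0, 0, 14, 0, 0, 0, 0]⟩,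
   ⟨[], 0, [], [], []⟩,
   ⟨[1, 2, 5, 8, 10, 11, 9], 145, [41, 32, 63], [6, 5, 0, 5, 0, 2, 4], [13, 0, 0, 0, 9, 0, 0, 8, 0, 0, 0, 0]⟩,
   ⟨[], 0, [], [], []⟩,
   ⟨[0, 3, 5, 4, 11, 10, 9], 70, [49, 61, 63], [0, 6, 5, 6, 0, 1, 4], [0, 8, 9, 0, 0, 0, 13, 0, 0, 0, 0, 0]⟩,
   ⟨[], 0, [], [], []⟩,
   ⟨[], 0, [], [], []⟩,
   ⟨[], 0, [], [], []⟩,
   ⟨[0, 2, 5, 8, 10, 11, 9], 74, [49, 32, 63], [6, 5, 0, 0, 5, 2, 4], [0, 13, 0, 9, 0, 0, 8, 0, 0, 0, 0, 0]⟩,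
   ⟨[], 0, [], [], []⟩,
   ⟨[1, 3, 5, 4, 11, 9, 10], 133, [20, 61, 63], [0, 6, 7, 0, 6, 3, 4], [2, 0, 3, 0, 0, 0, 0, 7, 0, 0, 0, 0]⟩,
   ⟨[], 0, [], [], []⟩,
   ⟨[], 0, [], [], []⟩,
   ⟨[], 0, [], [], []⟩,
   ⟨[], 0, [], [], []⟩,
   ⟨[], 0, [], [], []⟩,
   ⟨[], 0, [], [], []⟩,
   ⟨[], 0, [], [], []⟩,
   ⟨[], 0, [], [], []⟩,
   ⟨[], 0, [], [], []⟩,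
   ⟨[], 0, [], [], []⟩,
   ⟨[], 0, [], [], []⟩,
   ⟨[], 0, [], [], []⟩,
   ⟨[], 0, [], [], []⟩,
   ⟨[0, 6, 7, 11, 8, 10, 9], 42, [42, 63, 59], [0, 0, 6, 7, 5, 6, 2], [0, 9, 0, 14, 0, 14, 0, 0, 0, 0, 0, 0]⟩,
   ⟨[0, 6, 7, 11, 8, 9, 10], 28, [33, 63, 59], [0, 0, 6, 5, 0, 1, 2], [0, 0, 9, 4, 4, 0, 0, 0, 0, 0, 0, 0]⟩,
   ⟨[], 0, [], [], []⟩,
   ⟨[], 0, [], [], []⟩,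
   ⟨[], 0, [], [], []⟩,
   ⟨[], 0, [], [], []⟩,
   ⟨[1, 6, 7, 11, 8, 10, 9], 21, [41, 63, 59], [0, 0, 6, 7, 5, 6, 2], [15, 0, 14, 0, 8, 0, 0, 0, 0, 0, 0, 0]⟩,
   ⟨[2, 6, 7, 11, 8, 9, 10], 35, [34, 63, 59], [0, 0, 6, 5, 0, 1, 2], [5, 4, 0, 0, 0, 8, 0, 0, 0, 0, 0, 0]⟩,
   ⟨[], 0, [], [], []⟩,
   ⟨[], 0, [], [], []⟩,
   ⟨[], 0, [], [], []⟩,
   ⟨[], 0, [], [], []⟩,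
   ⟨[], 0, [], [], []⟩,
   ⟨[], 0, [], [], []⟩,
   ⟨[], 0, [], [], []⟩,
   ⟨[], 0, [], [], []⟩,
   ⟨[], 0, [], [], []⟩,
   ⟨[], 0, [], [], []⟩,
   ⟨[], 0, [], [], []⟩,
   ⟨[], 0, [], [], []⟩,
   ⟨[0, 6, 7, 11, 8, 10, 9], 42, [42, 63, 59], [5, 0, 6, 7, 0, 6, 2], [0, 12, 0, 14, 0, 14, 0, 0, 0, 0, 0, 0]⟩,
   ⟨[1, 6, 7, 11, 8, 10, 9], 21, [41, 63, 59], [0, 5, 6, 7, 0, 6, 2], [15, 0, 14, 0, 13, 0, 0, 0, 0, 0, 0, 0]⟩,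
   ⟨[], 0, [], [], []⟩,
   ⟨[], 0, [], [], []⟩,
   ⟨[], 0, [], [], []⟩,
   ⟨[], 0, [], [], []⟩,
   ⟨[0, 6, 7, 11, 8, 9, 10], 28, [33, 63, 59], [7, 0, 6, 5, 0, 6, 2], [0, 0, 6, 4, 4, 0, 0, 0, 0, 0, 0, 0]⟩,
   ⟨[2, 6, 7, 11, 8, 9, 10], 35, [34, 63, 59], [0, 7, 6, 5, 0, 6, 2], [5, 4, 0, 0, 0, 7, 0, 0, 0, 0, 0, 0]⟩,
   ⟨[], 0, [], [], []⟩,
   ⟨[], 0, [], [], []⟩,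
   ⟨[], 0, [], [], []⟩,
   ⟨[], 0, [], [], []⟩,
   ⟨[], 0, [], [], []⟩,
   ⟨[], 0, [], [], []⟩,
   ⟨[], 0, [], [], []⟩,
   ⟨[1, 6, 7, 8, 11, 10, 9], 49, [50, 59, 63], [6, 0, 6, 5, 1, 0, 4], [15, 0, 0, 0, 8, 8, 0, 0, 0, 0, 0, 0]⟩,
   ⟨[], 0, [], [], []⟩,
   ⟨[0, 6, 7, 8, 11, 9, 10], 28, [33, 59, 63], [6, 0, 6, 0, 3, 7, 4], [0, 0, 15, 3, 3, 0, 0, 0, 0, 0, 0, 0]⟩,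
   ⟨[], 0, [], [], []⟩,
   ⟨[], 0, [], [], []⟩,
   ⟨[], 0, [], [], []⟩,
   ⟨[0, 6, 7, 8, 11, 10, 9], 14, [49, 59, 63], [0, 6, 6, 5, 1, 0, 4], [0, 9, 8, 14, 0, 0, 0, 0, 0, 0, 0, 0]⟩,
   ⟨[], 0, [], [], []⟩,
   ⟨[2, 6, 7, 8, 11, 9, 10], 35, [34, 59, 63], [0, 6, 6, 0, 3, 7, 4], [2, 3, 0, 0, 0, 14, 0, 0, 0, 0, 0, 0]⟩,
   ⟨[], 0, [], [], []⟩,
   ⟨[], 0, [], [], []⟩,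
   ⟨[], 0, [], [], []⟩,
   ⟨[], 0, [], [], []⟩,
   ⟨[], 0, [], [], []⟩,
   ⟨[], 0, [], [], []⟩,
   ⟨[1, 6, 7, 8, 11, 10, 9], 49, [50, 59, 63], [5, 0, 6, 6, 1, 0, 4], [12, 0, 0, 0, 8, 8, 0, 0, 0, 0, 0, 0]⟩,
   ⟨[0, 6, 7, 8, 11, 10, 9], 14, [49, 59, 63], [0, 5, 6, 6, 1, 0, 4], [0, 9, 8, 13, 0, 0, 0, 0, 0, 0, 0, 0]⟩,
   ⟨[], 0, [], [], []⟩,
   ⟨[], 0, [], [], []⟩,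
   ⟨[], 0, [], [], []⟩,
   ⟨[], 0, [], [], []⟩,
   ⟨[], 0, [], [], []⟩,
   ⟨[], 0, [], [], []⟩,
   ⟨[], 0, [], [], []⟩,
   ⟨[], 0, [], [], []⟩,
   ⟨[], 0, [], [], []⟩,
   ⟨[], 0, [], [], []⟩,
   ⟨[0, 6, 7, 8, 11, 9, 10], 28, [33, 59, 63], [7, 0, 6, 0, 3, 6, 4], [0, 0, 6, 3, 3, 0, 0, 0, 0, 0, 0, 0]⟩,
   ⟨[2, 6, 7, 8, 11, 9, 10], 35, [34, 59, 63], [0, 7, 6, 0, 3, 6, 4], [2, 3, 0, 0, 0, 7, 0, 0, 0, 0, 0, 0]⟩,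
   ⟨[], 0, [], [], []⟩,
   ⟨[], 0, [], [], []⟩,
   ⟨[], 0, [], [], []⟩,
   ⟨[], 0, [], [], []⟩,
   ⟨[], 0, [], [], []⟩,
   ⟨[], 0, [], [], []⟩,
   ⟨[], 0, [], [], []⟩,
   ⟨[1, 6, 8, 7, 11, 10, 9], 49, [50, 59, 63], [6, 0, 6, 5, 0, 1, 4], [15, 0, 0, 0, 9, 9, 0, 0, 0, 0, 0, 0]⟩,
   ⟨[0, 6, 8, 7, 11, 9, 10], 42, [17, 59, 63], [6, 0, 6, 0, 7, 3, 4], [0, 15, 0, 3, 0, 3, 0, 0, 0, 0, 0, 0]⟩,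
   ⟨[], 0, [], [], []⟩,
   ⟨[], 0, [], [], []⟩,
   ⟨[], 0, [], [], []⟩,
   ⟨[], 0, [], [], []⟩,
   ⟨[0, 6, 8, 7, 11, 10, 9], 14, [49, 59, 63], [0, 6, 6, 5, 0, 1, 4], [0, 8, 9, 14, 0, 0, 0, 0, 0, 0, 0, 0]⟩,
   ⟨[1, 6, 8, 7, 11, 9, 10], 21, [18, 59, 63], [0, 6, 6, 0, 7, 3, 4], [2, 0, 3, 0, 14, 0, 0, 0, 0, 0, 0, 0]⟩,
   ⟨[], 0, [], [], []⟩,
   ⟨[], 0, [], [], []⟩,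
   ⟨[], 0, [], [], []⟩,
   ⟨[], 0, [], [], []⟩,
   ⟨[], 0, [], [], []⟩,
   ⟨[], 0, [], [], []⟩,
   ⟨[], 0, [], [], []⟩,
   ⟨[1, 6, 8, 7, 11, 10, 9], 49, [50, 59, 63], [5, 0, 6, 6, 0, 1, 4], [12, 0, 0, 0, 9, 9, 0, 0, 0, 0, 0, 0]⟩,
   ⟨[0, 6, 8, 7, 11, 10, 9], 14, [49, 59, 63], [0, 5, 6, 6, 0, 1, 4], [0, 8, 9, 13, 0, 0, 0, 0, 0, 0, 0, 0]⟩,
   ⟨[], 0, [], [], []⟩,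
   ⟨[], 0, [], [], []⟩,
   ⟨[], 0, [], [], []⟩,
   ⟨[], 0, [], [], []⟩,
   ⟨[0, 6, 8, 7, 11, 9, 10], 42, [17, 59, 63], [7, 0, 6, 0, 6, 3, 4], [0, 6, 0, 3, 0, 3, 0, 0, 0, 0, 0, 0]⟩,
   ⟨[1, 6, 8, 7, 11, 9, 10], 21, [18, 59, 63], [0, 7, 6, 0, 6, 3, 4], [2, 0, 3, 0, 7, 0, 0, 0, 0, 0, 0, 0]⟩,
   ⟨[], 0, [], [], []⟩,
   ⟨[], 0, [], [], []⟩,
   ⟨[], 0, [], [], []⟩,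
   ⟨[], 0, [], [], []⟩,
   ⟨[], 0, [], [], []⟩,
   ⟨[], 0, [], [], []⟩,
   ⟨[], 0, [], [], []⟩,
   ⟨[], 0, [], [], []⟩,
   ⟨[], 0, [], [], []⟩,
   ⟨[], 0, [], [], []⟩]
def dR12 : List CD :=
  [⟨[], 0, [], [], []⟩,
   ⟨[], 0, [], [], []⟩,
   ⟨[], 0, [], [], []⟩,
   ⟨[], 0, [], [], []⟩,
   ⟨[], 0, [], [], []⟩,
   ⟨[], 0, [], [], []⟩,
   ⟨[], 0, [], [], []⟩,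
   ⟨[], 0, [], [], []⟩,
   ⟨[0, 3, 11, 10, 6, 9, 4, 1, 7, 5, 2, 8], 0, [63, 8, 62, 58, 16, 32], [5, 58, 12, 2, 16, 32, 1], [0, 0, 0, 0, 0, 0, 0, 0, 0, 0, 0, 0]⟩,
   ⟨[], 0, [], [], []⟩,
   ⟨[], 0, [], [], []⟩,
   ⟨[], 0, [], [], []⟩,
   ⟨[], 0, [], [], []⟩,
   ⟨[0, 6, 11, 10, 3, 9, 7, 1, 4, 8, 2, 5], 0, [63, 8, 62, 60, 16, 32], [5, 12, 58, 2, 16, 32, 1], [0, 0, 0, 0, 0, 0, 0, 0, 0, 0, 0, 0]⟩,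
   ⟨[], 0, [], [], []⟩,
   ⟨[], 0, [], [], []⟩,
   ⟨[], 0, [], [], []⟩,
   ⟨[], 0, [], [], []⟩,
   ⟨[], 0, [], [], []⟩,
   ⟨[], 0, [], [], []⟩,
   ⟨[], 0, [], [], []⟩,
   ⟨[], 0, [], [], []⟩,
   ⟨[], 0, [], [], []⟩,
   ⟨[], 0, [], [], []⟩,
   ⟨[], 0, [], [], []⟩,
   ⟨[], 0, [], [], []⟩,
   ⟨[], 0, [], [], []⟩,
   ⟨[], 0, [], [], []⟩,
   ⟨[], 0, [], [], []⟩,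
   ⟨[0, 2, 10, 11, 1, 9, 5, 3, 4, 8, 6, 7], 0, [63, 62, 8, 24, 2, 4], [3, 16, 32, 4, 12, 58, 1], [0, 0, 0, 0, 0, 0, 0, 0, 0, 0, 0, 0]⟩,
   ⟨[], 0, [], [], []⟩,
   ⟨[], 0, [], [], []⟩,
   ⟨[], 0, [], [], []⟩,
   ⟨[], 0, [], [], []⟩,
   ⟨[0, 1, 10, 11, 2, 9, 4, 3, 5, 7, 6, 8], 0, [63, 62, 8, 40, 2, 4], [3, 16, 32, 4, 58, 12, 1], [0, 0, 0, 0, 0, 0, 0, 0, 0, 0, 0, 0]⟩,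
   ⟨[], 0, [], [], []⟩,
   ⟨[], 0, [], [], []⟩,
   ⟨[], 0, [], [], []⟩,
   ⟨[], 0, [], [], []⟩,
   ⟨[], 0, [], [], []⟩,
   ⟨[], 0, [], [], []⟩,
   ⟨[], 0, [], [], []⟩,
   ⟨[], 0, [], [], []⟩,
   ⟨[], 0, [], [], []⟩,
   ⟨[1, 4, 11, 10, 7, 9, 3, 0, 6, 5, 2, 8], 0, [63, 16, 62, 58, 8, 32], [5, 58, 12, 16, 2, 32, 1], [0, 0, 0, 0, 0, 0, 0, 0, 0, 0, 0, 0]⟩,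
   ⟨[], 0, [], [], []⟩,
   ⟨[], 0, [], [], []⟩,
   ⟨[], 0, [], [], []⟩,
   ⟨[], 0, [], [], []⟩,
   ⟨[1, 7, 11, 10, 4, 9, 6, 0, 3, 8, 2, 5], 0, [63, 16, 62, 60, 8, 32], [5, 12, 58, 16, 2, 32, 1], [0, 0, 0, 0, 0, 0, 0, 0, 0, 0, 0, 0]⟩,
   ⟨[], 0, [], [], []⟩,
   ⟨[], 0, [], [], []⟩,
   ⟨[], 0, [], [], []⟩,
   ⟨[], 0, [], [], []⟩,
   ⟨[], 0, [], [], []⟩,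
   ⟨[], 0, [], [], []⟩,
   ⟨[], 0, [], [], []⟩,
   ⟨[], 0, [], [], []⟩,
   ⟨[], 0, [], [], []⟩,
   ⟨[0, 9, 11, 2, 10, 1, 4, 3, 5, 7, 6, 8], 0, [1, 63, 9, 41, 2, 4], [1, 16, 32, 5, 58, 12, 2], [0, 0, 0, 0, 0, 0, 0, 0, 0, 0, 0, 0]⟩,
   ⟨[], 0, [], [], []⟩,
   ⟨[], 0, [], [], []⟩,
   ⟨[], 0, [], [], []⟩,
   ⟨[], 0, [], [], []⟩,
   ⟨[], 0, [], [], []⟩,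
   ⟨[], 0, [], [], []⟩,
   ⟨[], 0, [], [], []⟩,
   ⟨[], 0, [], [], []⟩,
   ⟨[], 0, [], [], []⟩,
   ⟨[0, 1, 10, 2, 11, 9, 4, 3, 5, 7, 6, 8], 0, [62, 63, 54, 22, 2, 4], [3, 16, 32, 5, 56, 12, 2], [0, 0, 0, 0, 0, 0, 0, 0, 0, 0, 0, 0]⟩,
   ⟨[], 0, [], [], []⟩,
   ⟨[], 0, [], [], []⟩,
   ⟨[], 0, [], [], []⟩,
   ⟨[], 0, [], [], []⟩,
   ⟨[], 0, [], [], []⟩,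
   ⟨[], 0, [], [], []⟩,
   ⟨[], 0, [], [], []⟩,
   ⟨[], 0, [], [], []⟩,
   ⟨[], 0, [], [], []⟩,
   ⟨[], 0, [], [], []⟩,
   ⟨[2, 5, 11, 10, 8, 9, 3, 0, 6, 4, 1, 7], 0, [63, 32, 62, 58, 8, 16], [5, 58, 12, 16, 32, 2, 1], [0, 0, 0, 0, 0, 0, 0, 0, 0, 0, 0, 0]⟩,
   ⟨[], 0, [], [], []⟩,
   ⟨[], 0, [], [], []⟩,
   ⟨[], 0, [], [], []⟩,
   ⟨[], 0, [], [], []⟩,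
   ⟨[2, 8, 11, 10, 5, 9, 6, 0, 3, 7, 1, 4], 0, [63, 32, 62, 60, 8, 16], [5, 12, 58, 16, 32, 2, 1], [0, 0, 0, 0, 0, 0, 0, 0, 0, 0, 0, 0]⟩,
   ⟨[], 0, [], [], []⟩,
   ⟨[], 0, [], [], []⟩,
   ⟨[], 0, [], [], []⟩,
   ⟨[], 0, [], [], []⟩,
   ⟨[], 0, [], [], []⟩,
   ⟨[], 0, [], [], []⟩,
   ⟨[], 0, [], [], []⟩,
   ⟨[], 0, [], [], []⟩,
   ⟨[0, 9, 11, 1, 10, 2, 5, 3, 4, 8, 6, 7], 0, [1, 63, 9, 25, 2, 4], [1, 16, 32, 5, 12, 58, 2], [0, 0, 0, 0, 0, 0, 0, 0, 0, 0, 0, 0]⟩,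
   ⟨[], 0, [], [], []⟩,
   ⟨[], 0, [], [], []⟩,
   ⟨[], 0, [], [], []⟩,
   ⟨[], 0, [], [], []⟩,
   ⟨[0, 2, 10, 1, 11, 9, 5, 3, 4, 8, 6, 7], 0, [62, 63, 54, 38, 2, 4], [3, 16, 32, 5, 12, 56, 2], [0, 0, 0, 0, 0, 0, 0, 0, 0, 0, 0, 0]⟩,
   ⟨[], 0, [], [], []⟩,
   ⟨[], 0, [], [], []⟩,
   ⟨[], 0, [], [], []⟩,
   ⟨[], 0, [], [], []⟩,
   ⟨[], 0, [], [], []⟩,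
   ⟨[], 0, [], [], []⟩,
   ⟨[], 0, [], [], []⟩,
   ⟨[], 0, [], [], []⟩,
   ⟨[], 0, [], [], []⟩,
   ⟨[], 0, [], [], []⟩,
   ⟨[0, 3, 11, 6, 10, 9, 4, 1, 7, 5, 2, 8], 0, [8, 63, 9, 13, 16, 32], [5, 58, 12, 1, 16, 32, 2], [0, 0, 0, 0, 0, 0, 0, 0, 0, 0, 0, 0]⟩,
   ⟨[], 0, [], [], []⟩,
   ⟨[], 0, [], [], []⟩,
   ⟨[], 0, [], [], []⟩,
   ⟨[], 0, [], [], []⟩,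
   ⟨[], 0, [], [], []⟩,
   ⟨[], 0, [], [], []⟩,
   ⟨[], 0, [], [], []⟩,
   ⟨[], 0, [], [], []⟩,
   ⟨[], 0, [], [], []⟩,
   ⟨[0, 9, 10, 6, 11, 3, 4, 1, 7, 5, 2, 8], 0, [55, 63, 54, 50, 16, 32], [5, 56, 12, 3, 16, 32, 2], [0, 0, 0, 0, 0, 0, 0, 0, 0, 0, 0, 0]⟩,
   ⟨[], 0, [], [], []⟩,
   ⟨[], 0, [], [], []⟩,
   ⟨[], 0, [], [], []⟩,
   ⟨[], 0, [], [], []⟩,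
   ⟨[], 0, [], [], []⟩,
   ⟨[], 0, [], [], []⟩,
   ⟨[], 0, [], [], []⟩,
   ⟨[], 0, [], [], []⟩,
   ⟨[], 0, [], [], []⟩,
   ⟨[], 0, [], [], []⟩,
   ⟨[], 0, [], [], []⟩,
   ⟨[], 0, [], [], []⟩,
   ⟨[], 0, [], [], []⟩,
   ⟨[], 0, [], [], []⟩,
   ⟨[], 0, [], [], []⟩,
   ⟨[], 0, [], [], []⟩,
   ⟨[3, 5, 10, 11, 4, 9, 2, 0, 1, 8, 6, 7], 0, [63, 61, 8, 24, 1, 4], [16, 3, 32, 4, 12, 58, 1], [0, 0, 0, 0, 0, 0, 0, 0, 0, 0, 0, 0]⟩,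
   ⟨[], 0, [], [], []⟩,
   ⟨[], 0, [], [], []⟩,
   ⟨[], 0, [], [], []⟩,
   ⟨[], 0, [], [], []⟩,
   ⟨[3, 4, 10, 11, 5, 9, 1, 0, 2, 7, 6, 8], 0, [63, 61, 8, 40, 1, 4], [16, 3, 32, 4, 58, 12, 1], [0, 0, 0, 0, 0, 0, 0, 0, 0, 0, 0, 0]⟩,
   ⟨[], 0, [], [], []⟩,
   ⟨[], 0, [], [], []⟩,
   ⟨[], 0, [], [], []⟩,
   ⟨[1, 4, 11, 7, 10, 9, 3, 0, 6, 5, 2, 8], 0, [16, 63, 17, 21, 8, 32], [5, 58, 12, 16, 1, 32, 2], [0, 0, 0, 0, 0, 0, 0, 0, 0, 0, 0, 0]⟩,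
   ⟨[], 0, [], [], []⟩,
   ⟨[], 0, [], [], []⟩,
   ⟨[], 0, [], [], []⟩,
   ⟨[], 0, [], [], []⟩,
   ⟨[], 0, [], [], []⟩,
   ⟨[], 0, [], [], []⟩,
   ⟨[], 0, [], [], []⟩,
   ⟨[], 0, [], [], []⟩,
   ⟨[], 0, [], [], []⟩,
   ⟨[1, 9, 10, 7, 11, 4, 3, 0, 6, 5, 2, 8], 0, [47, 63, 46, 42, 8, 32], [5, 56, 12, 16, 3, 32, 2], [0, 0, 0, 0, 0, 0, 0, 0, 0, 0, 0, 0]⟩,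
   ⟨[], 0, [], [], []⟩,
   ⟨[], 0, [], [], []⟩,
   ⟨[], 0, [], [], []⟩,
   ⟨[], 0, [], [], []⟩,
   ⟨[], 0, [], [], []⟩,
   ⟨[], 0, [], [], []⟩,
   ⟨[], 0, [], [], []⟩,
   ⟨[], 0, [], [], []⟩,
   ⟨[], 0, [], [], []⟩,
   ⟨[], 0, [], [], []⟩,
   ⟨[3, 9, 11, 5, 10, 4, 1, 0, 2, 7, 6, 8], 0, [2, 63, 10, 42, 1, 4], [16, 1, 32, 5, 58, 12, 2], [0, 0, 0, 0, 0, 0, 0, 0, 0, 0, 0, 0]⟩,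
   ⟨[], 0, [], [], []⟩,
   ⟨[], 0, [], [], []⟩,
   ⟨[], 0, [], [], []⟩,
   ⟨[], 0, [], [], []⟩,
   ⟨[], 0, [], [], []⟩,
   ⟨[], 0, [], [], []⟩,
   ⟨[], 0, [], [], []⟩,
   ⟨[], 0, [], [], []⟩,
   ⟨[], 0, [], [], []⟩,
   ⟨[3, 4, 10, 5, 11, 9, 1, 0, 2, 7, 6, 8], 0, [61, 63, 53, 21, 1, 4], [16, 3, 32, 5, 56, 12, 2], [0, 0, 0, 0, 0, 0, 0, 0, 0, 0, 0, 0]⟩,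
   ⟨[], 0, [], [], []⟩,
   ⟨[], 0, [], [], []⟩,
   ⟨[], 0, [], [], []⟩,
   ⟨[], 0, [], [], []⟩,
   ⟨[2, 5, 11, 8, 10, 9, 3, 0, 6, 4, 1, 7], 0, [32, 63, 33, 37, 8, 16], [5, 58, 12, 16, 32, 1, 2], [0, 0, 0, 0, 0, 0, 0, 0, 0, 0, 0, 0]⟩,
   ⟨[], 0, [], [], []⟩,
   ⟨[], 0, [], [], []⟩,
   ⟨[], 0, [], [], []⟩,
   ⟨[], 0, [], [], []⟩,
   ⟨[], 0, [], [], []⟩,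
   ⟨[], 0, [], [], []⟩,
   ⟨[], 0, [], [], []⟩,
   ⟨[], 0, [], [], []⟩,
   ⟨[], 0, [], [], []⟩,
   ⟨[2, 9, 10, 8, 11, 5, 3, 0, 6, 4, 1, 7], 0, [31, 63, 30, 26, 8, 16], [5, 56, 12, 16, 32, 3, 2], [0, 0, 0, 0, 0, 0, 0, 0, 0, 0, 0, 0]⟩,
   ⟨[], 0, [], [], []⟩,
   ⟨[], 0, [], [], []⟩,
   ⟨[], 0, [], [], []⟩,
   ⟨[], 0, [], [], []⟩,
   ⟨[], 0, [], [], []⟩,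
   ⟨[], 0, [], [], []⟩,
   ⟨[], 0, [], [], []⟩,
   ⟨[], 0, [], [], []⟩,
   ⟨[], 0, [], [], []⟩,
   ⟨[3, 9, 11, 4, 10, 5, 2, 0, 1, 8, 6, 7], 0, [2, 63, 10, 26, 1, 4], [16, 1, 32, 5, 12, 58, 2], [0, 0, 0, 0, 0, 0, 0, 0, 0, 0, 0, 0]⟩,
   ⟨[], 0, [], [], []⟩,
   ⟨[], 0, [], [], []⟩,
   ⟨[], 0, [], [], []⟩,
   ⟨[], 0, [], [], []⟩,
   ⟨[3, 5, 10, 4, 11, 9, 2, 0, 1, 8, 6, 7], 0, [61, 63, 53, 37, 1, 4], [16, 3, 32, 5, 12, 56, 2], [0, 0, 0, 0, 0, 0, 0, 0, 0, 0, 0, 0]⟩,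
   ⟨[], 0, [], [], []⟩,
   ⟨[], 0, [], [], []⟩,
   ⟨[], 0, [], [], []⟩,
   ⟨[], 0, [], [], []⟩,
   ⟨[], 0, [], [], []⟩,
   ⟨[], 0, [], [], []⟩,
   ⟨[], 0, [], [], []⟩,
   ⟨[], 0, [], [], []⟩,
   ⟨[], 0, [], [], []⟩,
   ⟨[0, 6, 11, 3, 10, 9, 7, 1, 4, 8, 2, 5], 0, [8, 63, 9, 11, 16, 32], [5, 12, 58, 1, 16, 32, 2], [0, 0, 0, 0, 0, 0, 0, 0, 0, 0, 0, 0]⟩,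
   ⟨[], 0, [], [], []⟩,
   ⟨[], 0, [], [], []⟩,
   ⟨[], 0, [], [], []⟩,
   ⟨[], 0, [], [], []⟩,
   ⟨[0, 9, 10, 3, 11, 6, 7, 1, 4, 8, 2, 5], 0, [55, 63, 54, 52, 16, 32], [5, 12, 56, 3, 16, 32, 2], [0, 0, 0, 0, 0, 0, 0, 0, 0, 0, 0, 0]⟩,
   ⟨[], 0, [], [], []⟩,
   ⟨[], 0, [], [], []⟩,
   ⟨[], 0, [], [], []⟩,
   ⟨[], 0, [], [], []⟩,
   ⟨[], 0, [], [], []⟩,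
   ⟨[], 0, [], [], []⟩,
   ⟨[], 0, [], [], []⟩,
   ⟨[], 0, [], [], []⟩,
   ⟨[], 0, [], [], []⟩,
   ⟨[], 0, [], [], []⟩,
   ⟨[], 0, [], [], []⟩,
   ⟨[], 0, [], [], []⟩,
   ⟨[], 0, [], [], []⟩,
   ⟨[], 0, [], [], []⟩,
   ⟨[], 0, [], [], []⟩,
   ⟨[], 0, [], [], []⟩,
   ⟨[], 0, [], [], []⟩,
   ⟨[], 0, [], [], []⟩,
   ⟨[], 0, [], [], []⟩,
   ⟨[], 0, [], [], []⟩,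
   ⟨[], 0, [], [], []⟩,
   ⟨[], 0, [], [], []⟩,
   ⟨[6, 8, 10, 11, 7, 9, 2, 0, 1, 5, 3, 4], 0, [63, 59, 8, 24, 1, 2], [16, 32, 3, 4, 12, 58, 1], [0, 0, 0, 0, 0, 0, 0, 0, 0, 0, 0, 0]⟩,
   ⟨[], 0, [], [], []⟩,
   ⟨[], 0, [], [], []⟩,
   ⟨[], 0, [], [], []⟩,
   ⟨[], 0, [], [], []⟩,
   ⟨[6, 7, 10, 11, 8, 9, 1, 0, 2, 4, 3, 5], 0, [63, 59, 8, 40, 1, 2], [16, 32, 3, 4, 58, 12, 1], [0, 0, 0, 0, 0, 0, 0, 0, 0, 0, 0, 0]⟩,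
   ⟨[], 0, [], [], []⟩,
   ⟨[], 0, [], [], []⟩,
   ⟨[1, 7, 11, 4, 10, 9, 6, 0, 3, 8, 2, 5], 0, [16, 63, 17, 19, 8, 32], [5, 12, 58, 16, 1, 32, 2], [0, 0, 0, 0, 0, 0, 0, 0, 0, 0, 0, 0]⟩,
   ⟨[], 0, [], [], []⟩,
   ⟨[], 0, [], [], []⟩,
   ⟨[], 0, [], [], []⟩,
   ⟨[], 0, [], [], []⟩,
   ⟨[1, 9, 10, 4, 11, 7, 6, 0, 3, 8, 2, 5], 0, [47, 63, 46, 44, 8, 32], [5, 12, 56, 16, 3, 32, 2], [0, 0, 0, 0, 0, 0, 0, 0, 0, 0, 0, 0]⟩,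
   ⟨[], 0, [], [], []⟩,
   ⟨[], 0, [], [], []⟩,
   ⟨[], 0, [], [], []⟩,
   ⟨[], 0, [], [], []⟩,
   ⟨[], 0, [], [], []⟩,
   ⟨[], 0, [], [], []⟩,
   ⟨[], 0, [], [], []⟩,
   ⟨[], 0, [], [], []⟩,
   ⟨[], 0, [], [], []⟩,
   ⟨[], 0, [], [], []⟩,
   ⟨[], 0, [], [], []⟩,
   ⟨[], 0, [], [], []⟩,
   ⟨[], 0, [], [], []⟩,
   ⟨[], 0, [], [], []⟩,
   ⟨[], 0, [], [], []⟩,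
   ⟨[], 0, [], [], []⟩,
   ⟨[6, 9, 11, 8, 10, 7, 1, 0, 2, 4, 3, 5], 0, [4, 63, 12, 44, 1, 2], [16, 32, 1, 5, 58, 12, 2], [0, 0, 0, 0, 0, 0, 0, 0, 0, 0, 0, 0]⟩,
   ⟨[], 0, [], [], []⟩,
   ⟨[], 0, [], [], []⟩,
   ⟨[], 0, [], [], []⟩,
   ⟨[], 0, [], [], []⟩,
   ⟨[], 0, [], [], []⟩,
   ⟨[], 0, [], [], []⟩,
   ⟨[], 0, [], [], []⟩,
   ⟨[], 0, [], [], []⟩,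
   ⟨[], 0, [], [], []⟩,
   ⟨[6, 7, 10, 8, 11, 9, 1, 0, 2, 4, 3, 5], 0, [59, 63, 51, 19, 1, 2], [16, 32, 3, 5, 56, 12, 2], [0, 0, 0, 0, 0, 0, 0, 0, 0, 0, 0, 0]⟩,
   ⟨[], 0, [], [], []⟩,
   ⟨[], 0, [], [], []⟩,
   ⟨[], 0, [], [], []⟩,
   ⟨[2, 8, 11, 5, 10, 9, 6, 0, 3, 7, 1, 4], 0, [32, 63, 33, 35, 8, 16], [5, 12, 58, 16, 32, 1, 2], [0, 0, 0, 0, 0, 0, 0, 0, 0, 0, 0, 0]⟩,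
   ⟨[], 0, [], [], []⟩,
   ⟨[], 0, [], [], []⟩,
   ⟨[], 0, [], [], []⟩,
   ⟨[], 0, [], [], []⟩,
   ⟨[2, 9, 10, 5, 11, 8, 6, 0, 3, 7, 1, 4], 0, [31, 63, 30, 28, 8, 16], [5, 12, 56, 16, 32, 3, 2], [0, 0, 0, 0, 0, 0, 0, 0, 0, 0, 0, 0]⟩,
   ⟨[], 0, [], [], []⟩,
   ⟨[], 0, [], [], []⟩,
   ⟨[], 0, [], [], []⟩,
   ⟨[], 0, [], [], []⟩,
   ⟨[], 0, [], [], []⟩,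
   ⟨[], 0, [], [], []⟩,
   ⟨[], 0, [], [], []⟩,
   ⟨[], 0, [], [], []⟩,
   ⟨[], 0, [], [], []⟩,
   ⟨[], 0, [], [], []⟩,
   ⟨[], 0, [], [], []⟩,
   ⟨[], 0, [], [], []⟩,
   ⟨[], 0, [], [], []⟩,
   ⟨[], 0, [], [], []⟩,
   ⟨[], 0, [], [], []⟩,
   ⟨[6, 9, 11, 7, 10, 8, 2, 0, 1, 5, 3, 4], 0, [4, 63, 12, 28, 1, 2], [16, 32, 1, 5, 12, 58, 2], [0, 0, 0, 0, 0, 0, 0, 0, 0, 0, 0, 0]⟩,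
   ⟨[], 0, [], [], []⟩,
   ⟨[], 0, [], [], []⟩,
   ⟨[], 0, [], [], []⟩,
   ⟨[], 0, [], [], []⟩,
   ⟨[6, 8, 10, 7, 11, 9, 2, 0, 1, 5, 3, 4], 0, [59, 63, 51, 35, 1, 2], [16, 32, 3, 5, 12, 56, 2], [0, 0, 0, 0, 0, 0, 0, 0, 0, 0, 0, 0]⟩,
   ⟨[], 0, [], [], []⟩,
   ⟨[], 0, [], [], []⟩,
   ⟨[], 0, [], [], []⟩,
   ⟨[], 0, [], [], []⟩,
   ⟨[], 0, [], [], []⟩,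
   ⟨[], 0, [], [], []⟩,
   ⟨[], 0, [], [], []⟩,
   ⟨[], 0, [], [], []⟩]

end SEY
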