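import Pool.Agent.Helper25.SEY.T3
import Pool.Agent.Helper70.SEY.Data

/-!
The finite checks of outcomes O1 and O4, by the kernel.
-/

set_option autoImplicit false
set_option maxRecDepth 100000

namespace SEY

open Finset

variable {E : Type} [Fintype E] [DecidableEq E]

def cd0 : CD := ⟨[], 0, [], [], []⟩

theorem good_F7 : CD.Good F7 (graftRows K4e (fun _ => 1)) cF7 := by decide +kernel

theorem good_R10 : CD.Good R10 (graftRows K33e (fun _ => 1)) cR10 := by decide +kernel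

theorem good_K4 : ∀ (f : Fin 6) (c d : Fin 4), c ≠ d → c ≠ (K4e f).1 → c ≠ (K4e f).2 →
    d ≠ (K4e f).1 → d ≠ (K4e f).2 →
    CD.Good K33s (O4rows K4e f c d) (dK4.getD (16 * f + 4 * c + d) cd0) := by decide +kernel

theorem good_K33 : ∀ (f : Fin 9) (c d : Fin 6), c ≠ d → c ≠ (K33e f).1 → c ≠ (K33e f).2 →
    d ≠ (K33e f).1 → d ≠ (K33e f).2 →
    CD.Good F7 (O4rows K33e f c d) (dF7.getD (36 * f + 6 * c + d) cd0) ∨
    CD.Good R12 (O4rows K33e f c d) (dR12.getD (36 * f + 6 * c + d) cd0) := by decide +kernel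

theorem even4 : ∀ t : Fin 4 → ZMod 2, ∑ v, t v = 0 →
    (∃ u v : Fin 4, ∀ w, t w = (if u = w then 1 else 0) + (if v = w then 1 else 0)) ∨
    t = fun _ => 1 := by decide +kernel

def msk (t : Fin 6 → ZMod 2) : ℕ :=
  (t 0).val + 2 * (t 1).val + 4 * (t 2).val + 8 * (t 3).val + 16 * (t 4).val + 32 * (t 5).val

theorem even6 : ∀ t : Fin 6 → ZMod 2, ∑ v, t v = 0 →
    (∃ u v : Fin 6, ∀ w, t w = (if u = w then 1 else 0) + (if v = w then 1 else 0)) ∨
    (t = fun _ => 1) ∨ CD.Good F7 (graftRows K33e t) (dT4.getD (msk t) cd0) := by decide +kernel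

end SEY
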