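import Pool.Agent.Helper25.SEY.Link

/-!
LV-2 (project SEY, block LEVEL): reading off the three guts elements after the Delta lemma.

`K = {f in R : f = 0 on C}`.  The hypotheses `hd1 .. hd4` are the conclusion of `SEY.delta`.
For a set `P i` inside `W` write `s_i f = sum of f over P i`.

PROOF.  Fix `i`.  On `K` the value `s_i f` depends only on `(f (d 0), f (d 1), f (d 2))`: if `f, f'` in
`K` agree on the `d j` then `f - f'` is in `K` and vanishes on the `d j`, by `hd3` it agrees on `W`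
with some `g` in `R` supported in `W`, and `s_i g = 0` by `hPR`.  Let `f_j` in `K` (from `hd4`) have
`f_j (d j) = 0` and value 1 at the two other `d`'s (`j = 0, 1, 2`), `x_j = s_i f_j`.  `f_0 + f_1 + f_2`
vanishes on the `d`'s, so `x_0 + x_1 + x_2 = 0`.  Every `f` in `K` agrees on the `d`'s with `0` or with
one `f_j` (`hd1`).  Not all `x_j` are 0: otherwise `s_i = 0` on `K`, so by `hd2` (every `f` in `R` agrees
on `W` with an element of `K`) `s_i = 0` on `R`, against `hPne`.  So exactly one `x_j` is 0; put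
`sigma i = j`: then `s_i f = f (d j)` for `f = 0, f_0, f_1, f_2`, hence for all `f` in `K`.
Injectivity: if `sigma i = sigma i'` with `i <> i'`, then for the third index `i''`:
`s_{i''} f = s_i f + s_{i'} f = 0` for all `f` in `K` (`hP`), so for all `f` in `R` (by `hd2`), against
`hPne i''`.
-/

set_option autoImplicit false

namespace SEY

open Finset

variable {E : Type} [Fintype E] [DecidableEq E]

theorem guts (M : BM E) (W C : Finset E) (d : Fin 3 → E)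
    (hd1 : ∀ f ∈ M.R, (∀ c ∈ C, f c = 0) → f (d 0) + f (d 1) + f (d 2) = 0)
    (hd2 : ∀ f ∈ M.R, ∃ f' ∈ M.R, (∀ c ∈ C, f' c = 0) ∧ ∀ x ∈ W, f' x = f x)
    (hd3 : ∀ f ∈ M.R, (∀ c ∈ C, f c = 0) → (∀ i, f (d i) = 0) →
      ∃ g ∈ M.R, (∀ e, e ∉ W → g e = 0) ∧ ∀ x ∈ W, g x = f x)
    (hd4 : ∀ p : Fin 3 → ZMod 2, p 0 + p 1 + p 2 = 0 →
      ∃ f ∈ M.R, (∀ c ∈ C, f c = 0) ∧ ∀ i, f (d i) = p i)
    (P : Fin 3 → Finset E) (hPW : ∀ i, P i ⊆ W)
    (hP : ∀ f ∈ M.R, ∑ x ∈ P 0, f x + ∑ x ∈ P 1, f x + ∑ x ∈ P 2, f x = 0)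
    (hPR : ∀ g ∈ M.R, (∀ e, e ∉ W → g e = 0) → ∀ i, ∑ x ∈ P i, g x = 0)
    (hPne : ∀ i, ∃ f ∈ M.R, ∑ x ∈ P i, f x ≠ 0) :
    ∃ σ : Fin 3 → Fin 3, Function.Injective σ ∧
      ∀ f ∈ M.R, (∀ c ∈ C, f c = 0) → ∀ i, f (d (σ i)) = ∑ x ∈ P i, f x := by
  have hdep : ∀ f ∈ M.R, (∀ c ∈ C, f c = 0) → (∀ i, f (d i) = 0) →
      ∀ i, ∑ x ∈ P i, f x = 0 := by
    intro f hf hfC hfd i
    obtain ⟨g, hg, hgW, hgf⟩ := hd3 f hf hfC hfd
    rw [← hPR g hg hgW i]
    exact Finset.sum_congr rfl (fun x hx => (hgf x (hPW i hx)).symm)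
  obtain ⟨G0, hG0, hG0C, hG0d⟩ := hd4 ![1, 0, 1] (by decide)
  obtain ⟨G1, hG1, hG1C, hG1d⟩ := hd4 ![0, 1, 1] (by decide)
  have g00 : G0 (d 0) = 1 := hG0d 0
  have g01 : G0 (d 1) = 0 := hG0d 1
  have g02 : G0 (d 2) = 1 := hG0d 2
  have g10 : G1 (d 0) = 0 := hG1d 0
  have g11 : G1 (d 1) = 1 := hG1d 1
  have g12 : G1 (d 2) = 1 := hG1d 2
  have hlin : ∀ f ∈ M.R, (∀ c ∈ C, f c = 0) → ∀ i,
      ∑ x ∈ P i, f x = f (d 0) * ∑ x ∈ P i, G0 x + f (d 1) * ∑ x ∈ P i, G1 x := by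
    intro f hf hfC i
    have h2 : f (d 2) = f (d 0) + f (d 1) := by
      have h := hd1 f hf hfC
      generalize f (d 0) = a at h ⊢
      generalize f (d 1) = b at h ⊢
      generalize f (d 2) = c at h ⊢
      revert a b c
      decide
    have hmem : f - f (d 0) • G0 - f (d 1) • G1 ∈ M.R :=
      M.R.sub_mem (M.R.sub_mem hf (M.R.smul_mem _ hG0)) (M.R.smul_mem _ hG1)
    have h0 := hdep _ hmem
      (fun c hc => by simp [hfC c hc, hG0C c hc, hG1C c hc])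
      (fun k => by
        fin_cases k
        · simp [g00, g10]
        · simp [g01, g11]
        · simp [g02, g12, h2]) i
    simp only [Pi.sub_apply, Pi.smul_apply, smul_eq_mul, Finset.sum_sub_distrib,
      ← Finset.mul_sum] at h0
    rw [sub_sub, sub_eq_zero] at h0
    exact h0
  have hex : ∀ i, ∃ j, ∀ f ∈ M.R, (∀ c ∈ C, f c = 0) → f (d j) = ∑ x ∈ P i, f x := by
    intro i
    have hne : ¬ (∑ x ∈ P i, G0 x = 0 ∧ ∑ x ∈ P i, G1 x = 0) := by
      rintro ⟨hu, hv⟩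
      obtain ⟨f, hf, hfne⟩ := hPne i
      obtain ⟨f', hf', hfC', hfW⟩ := hd2 f hf
      apply hfne
      have h := hlin f' hf' hfC' i
      rw [hu, hv, mul_zero, mul_zero, add_zero] at h
      rw [← h]
      exact Finset.sum_congr rfl (fun x hx => (hfW x (hPW i hx)).symm)
    have hcase : ∀ a : ZMod 2, a = 0 ∨ a = 1 := by decide
    rcases hcase (∑ x ∈ P i, G0 x) with hu | hu <;> rcases hcase (∑ x ∈ P i, G1 x) with hv | hv
    · exact absurd ⟨hu, hv⟩ hne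
    · refine ⟨1, fun f hf hfC => ?_⟩
      rw [hlin f hf hfC i, hu, hv, mul_zero, mul_one, zero_add]
    · refine ⟨0, fun f hf hfC => ?_⟩
      rw [hlin f hf hfC i, hu, hv, mul_zero, mul_one, add_zero]
    · refine ⟨2, fun f hf hfC => ?_⟩
      rw [hlin f hf hfC i, hu, hv, mul_one, mul_one]
      have h := hd1 f hf hfC
      generalize f (d 0) = a at h ⊢
      generalize f (d 1) = b at h ⊢
      generalize f (d 2) = c at h ⊢
      revert a b c
      decide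
  choose σ hσ using hex
  refine ⟨σ, ?_, fun f hf hfC i => hσ i f hf hfC⟩
  have third : ∀ i i' : Fin 3, i ≠ i' → ∃ k : Fin 3, ∀ t : Fin 3 → ZMod 2,
      t 0 + t 1 + t 2 = 0 → t i = t i' → t k = 0 := by decide
  intro i i' hii
  by_contra hne
  obtain ⟨k, hk⟩ := third i i' hne
  obtain ⟨f, hf, hfne⟩ := hPne k
  apply hfne
  refine hk (fun j => ∑ x ∈ P j, f x) (hP f hf) ?_
  obtain ⟨f', hf', hfC', hfW⟩ := hd2 f hf
  have e1 : ∀ j, ∑ x ∈ P j, f x = ∑ x ∈ P j, f' x := fun j =>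
    Finset.sum_congr rfl (fun x hx => (hfW x (hPW j hx)).symm)
  show ∑ x ∈ P i, f x = ∑ x ∈ P i', f x
  rw [e1 i, e1 i', ← hσ i f' hf' hfC', ← hσ i' f' hf' hfC', hii]

end SEY
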