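import Pool.Agent.Helper70.SEY.Tools
import Pool.Agent.Helper70.SEY.Guts
import Pool.Agent.Helper71.SEYApi2

/-!
LV-3 (project SEY, block LEVEL): a `W`-structure with a cycle outside gives a `K33s` minor.

`W = {a i, b i}` (6 elements).  Write `q_{ij} = ind {a i, b i, a j, b j}` (rows), `A = ind {a i}`,
`B = ind {b i}` (cycles: orthogonal to all rows by `hW`).
* `WStr_lam`.  `lam W >= 2` by `TC_two_le` (`|S - W| >= 2`).  `lam_le` with the cycles `A`, `B` and the rows
  `q_01`, `q_02` (independent: `linIndep_tri`) gives `lam W + 2 + 2 <= 6`.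
* `WStr_rows`.  Let `g` be a row supported in `W` with `g (a i) <> g (b i)` for some `i`.  Then `g`,
  `q_01`, `q_02` are independent (the functional `f -> f (a i) + f (b i)` vanishes on the `q`'s), so
  `lam_le` gives `lam W + 2 + 3 <= 6`, against `TC_two_le`.
* `WStr_K33s`.  `z` has at least 3 elements (`TC_cyc_card`), all outside `W`, so `|S - W| >= 3` and
  `lam W = 2`.  Take `d, C` from `SEY.delta` (Link.lean).  Apply `guts` with `P i = {a i, b i}`:
  `hP`: the sum of all six values is 0 by the two cycles; `hPR`: `WStr_rows`; `hPne`: `TC_row_sep`.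
  Get `sigma` with `f (d (sigma i)) = f (a i) + f (b i)` on `K = {f in R : f|C = 0}`.
  HasMinor K33s: `phi = ![a 0, a 1, a 2, b 0, b 1, b 2, d (sigma 0), d (sigma 1), d (sigma 2)]` and `C`.
  Injective: `d` is injective and avoids `W`.
  Second condition: for `f` in `K` let `x = f o phi`; then `x0+x1+x2 = 0`, `x3+x4+x5 = 0`,
  `x6 = x0+x3`, `x7 = x1+x4`, `x8 = x2+x5`.  The coefficients are `c = ![x 4, x 5, x 7, x 8]`
  (rows of `K33s`: `{0,1,3,4}, {0,2,3,5}, {0,1,6,7}, {0,2,6,8}`).
  First condition: rows 0 and 1 of `K33s` are realised by `q_01`, `q_02` (supported in `W`, so they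
  vanish on `C` and on the `d`'s).  For row 2 (`x = {0,1,6,7}`) take by (D4) `f` in `K` with
  `f (d (sigma i)) = x_(6+i)`; then `f (a i) + f (b i) = x_(6+i)`; `f (b 0) + f (b 1) + f (b 2) = 0`, so
  adding to `f` one of `0, q_01, q_02, q_01 + q_02` we get `f (b i) = 0` for all `i` (add
  `f(b 1) q_01 + f(b 2) q_02`), hence `f (a i) = x_(6+i)`: this is row 2.  Same for row 3.
-/

set_option autoImplicit false

namespace SEY

open Finset

variable {E : Type} [Fintype E] [DecidableEq E]

/-- The six elements of a `W`-structure. -/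
def Wset (a b : Fin 3 → E) : Finset E := univ.image a ∪ univ.image b

private theorem lv3_mem {a b : Fin 3 → E} {e : E} : e ∈ Wset a b ↔ (∃ i, a i = e) ∨ ∃ i, b i = e := by
  simp [Wset]

private theorem lv3_sub {M : BM E} {a b : Fin 3 → E} (hW : WStr M a b) : Wset a b ⊆ M.S := by
  intro e he
  rcases lv3_mem.1 he with ⟨i, rfl⟩ | ⟨i, rfl⟩
  · exact hW.1 i
  · exact hW.2.1 i

private theorem lv3_card {M : BM E} {a b : Fin 3 → E} (hW : WStr M a b) : (Wset a b).card = 6 := by
  obtain ⟨-, -, ha, hb, hab, -, -, -⟩ := hW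
  unfold Wset
  rw [Finset.card_union_of_disjoint, Finset.card_image_of_injective _ ha,
    Finset.card_image_of_injective _ hb]
  · simp
  · rw [Finset.disjoint_left]
    intro e he he'
    obtain ⟨i, -, rfl⟩ := Finset.mem_image.1 he
    obtain ⟨j, -, hj⟩ := Finset.mem_image.1 he'
    exact hab i j hj.symm

private theorem lv3_sum3 {c : Fin 3 → E} (hc : Function.Injective c) (f : E → ZMod 2) :
    ∑ e ∈ univ.image c, f e = f (c 0) + f (c 1) + f (c 2) := by
  rw [Finset.sum_image (fun i _ j _ h => hc h), Fin.sum_univ_three]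

private theorem lv3_cyc {M : BM E} {c : Fin 3 → E} (hS : ∀ i, c i ∈ M.S)
    (hc : Function.Injective c) (h : ∀ f ∈ M.R, f (c 0) + f (c 1) + f (c 2) = 0) :
    (ind (univ.image c) : E → ZMod 2) ∈ M.Z := by
  refine ⟨fun e he => ?_, fun f hf => ?_⟩
  · apply ind_of_notMem
    intro h1
    obtain ⟨i, -, rfl⟩ := Finset.mem_image.1 h1
    exact he (hS i)
  · rw [dot_ind, lv3_sum3 hc]
    exact h f hf

/-- the quads as rows -/
private def lv3_q (a b : Fin 3 → E) (k : Fin 3) : E → ZMod 2 := ind {a 0, b 0, a k, b k}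

private theorem lv3_qR {M : BM E} {a b : Fin 3 → E} (hW : WStr M a b) (k : Fin 3) (hk : 0 ≠ k) :
    lv3_q a b k ∈ M.R := hW.2.2.2.2.2.2.2 0 k hk

private theorem lv3_qa {M : BM E} {a b : Fin 3 → E} (hW : WStr M a b) (k i : Fin 3) :
    lv3_q a b k (a i) = if i = 0 ∨ i = k then 1 else 0 := by
  obtain ⟨-, -, ha, hb, hab, -, -, -⟩ := hW
  have h : a i ∈ ({a 0, b 0, a k, b k} : Finset E) ↔ (i = 0 ∨ i = k) := by
    simp only [Finset.mem_insert, Finset.mem_singleton]
    constructor
    · rintro (h | h | h | h)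
      · exact Or.inl (ha h)
      · exact absurd h (hab _ _)
      · exact Or.inr (ha h)
      · exact absurd h (hab _ _)
    · rintro (rfl | rfl)
      · exact Or.inl rfl
      · exact Or.inr (Or.inr (Or.inl rfl))
  unfold lv3_q ind
  simp only [h]

private theorem lv3_qb {M : BM E} {a b : Fin 3 → E} (hW : WStr M a b) (k i : Fin 3) :
    lv3_q a b k (b i) = if i = 0 ∨ i = k then 1 else 0 := by
  obtain ⟨-, -, ha, hb, hab, -, -, -⟩ := hW
  have h : b i ∈ ({a 0, b 0, a k, b k} : Finset E) ↔ (i = 0 ∨ i = k) := by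
    simp only [Finset.mem_insert, Finset.mem_singleton]
    constructor
    · rintro (h | h | h | h)
      · exact absurd h.symm (hab _ _)
      · exact Or.inl (hb h)
      · exact absurd h.symm (hab _ _)
      · exact Or.inr (hb h)
    · rintro (rfl | rfl)
      · exact Or.inr (Or.inl rfl)
      · exact Or.inr (Or.inr (Or.inr rfl))
  unfold lv3_q ind
  simp only [h]

private theorem lv3_qout (a b : Fin 3 → E) (k : Fin 3) {e : E} (he : e ∉ Wset a b) :
    lv3_q a b k e = 0 := by
  apply ind_of_notMem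
  simp only [Finset.mem_insert, Finset.mem_singleton]
  rintro (rfl | rfl | rfl | rfl)
  · exact he (lv3_mem.2 (Or.inl ⟨_, rfl⟩))
  · exact he (lv3_mem.2 (Or.inr ⟨_, rfl⟩))
  · exact he (lv3_mem.2 (Or.inl ⟨_, rfl⟩))
  · exact he (lv3_mem.2 (Or.inr ⟨_, rfl⟩))

private theorem lv3_cycs {M : BM E} {a b : Fin 3 → E} (hW : WStr M a b) {n : ℕ}
    (g : Fin n → E → ZMod 2) (hg : ∀ i, g i ∈ M.R) (hgA : ∀ i e, e ∉ Wset a b → g i e = 0)
    (hgi : LinearIndependent (ZMod 2) g) : M.lam (Wset a b) + 2 + n ≤ 6 := by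
  rw [← lv3_card hW]
  have hW' := hW
  obtain ⟨haS, hbS, ha, hb, hab, hA, hB, -⟩ := hW'
  have hAa : ∀ i, (ind (univ.image a) : E → ZMod 2) (a i) = 1 := fun i =>
    ind_of_mem (Finset.mem_image_of_mem _ (Finset.mem_univ _))
  have hBb : ∀ i, (ind (univ.image b) : E → ZMod 2) (b i) = 1 := fun i =>
    ind_of_mem (Finset.mem_image_of_mem _ (Finset.mem_univ _))
  have hAb : ∀ i, (ind (univ.image a) : E → ZMod 2) (b i) = 0 := fun i => by
    apply ind_of_notMem
    intro h
    obtain ⟨j, -, hj⟩ := Finset.mem_image.1 h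
    exact hab j i hj
  refine lam_le M (Wset a b) (lv3_sub hW) (m := 2)
    ![ind (univ.image a), ind (univ.image b)] ?_ ?_ ?_ g hg hgA hgi
  · intro i
    fin_cases i
    · exact lv3_cyc haS ha hA
    · exact lv3_cyc hbS hb hB
  · intro i e he
    fin_cases i
    · apply ind_of_notMem
      intro h
      obtain ⟨j, -, rfl⟩ := Finset.mem_image.1 h
      exact he (lv3_mem.2 (Or.inl ⟨_, rfl⟩))
    · apply ind_of_notMem
      intro h
      obtain ⟨j, -, rfl⟩ := Finset.mem_image.1 h
      exact he (lv3_mem.2 (Or.inr ⟨_, rfl⟩))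
  · refine linIndep_tri _ ![a 0, b 0] ?_ ?_
    · intro i
      fin_cases i
      · exact hAa 0
      · exact hBb 0
    · intro i j hij
      fin_cases i <;> fin_cases j
      · exact absurd hij (by decide)
      · exact absurd hij (by decide)
      · exact hAb 0
      · exact absurd hij (by decide)

private theorem lv3_two {M : BM E} (h : M.TC) {a b : Fin 3 → E} (hW : WStr M a b)
    (hc : 8 ≤ M.S.card) : 2 ≤ M.lam (Wset a b) := by
  have h1 := lv3_card hW
  have h2 := Finset.card_sdiff_add_card_eq_card (lv3_sub hW)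
  exact TC_two_le h (lv3_sub hW) (by omega) (by omega)

theorem WStr_lam (M : BM E) (h : M.TC) (a b : Fin 3 → E) (hW : WStr M a b)
    (hc : 8 ≤ M.S.card) : M.lam (Wset a b) = 2 := by
  have h1 := lv3_two h hW hc
  have h2 := lv3_cycs hW (n := 2) ![lv3_q a b 1, lv3_q a b 2] ?_ ?_ ?_
  · omega
  · intro i
    fin_cases i
    · exact lv3_qR hW 1 (by decide)
    · exact lv3_qR hW 2 (by decide)
  · intro i e he
    fin_cases i
    · exact lv3_qout a b 1 he
    · exact lv3_qout a b 2 he
  · refine linIndep_tri _ ![a 1, a 2] ?_ ?_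
    · intro i
      fin_cases i
      · show lv3_q a b 1 (a 1) = 1
        rw [lv3_qa hW]; rfl
      · show lv3_q a b 2 (a 2) = 1
        rw [lv3_qa hW]; rfl
    · intro i j hij
      fin_cases i <;> fin_cases j
      · exact absurd hij (by decide)
      · exact absurd hij (by decide)
      · show lv3_q a b 1 (a 2) = 0
        rw [lv3_qa hW]; rfl
      · exact absurd hij (by decide)

/-- normalise a row on the `b i` -/
private theorem lv3_norm {M : BM E} {a b : Fin 3 → E} (hW : WStr M a b) {g : E → ZMod 2}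
    (hg : g ∈ M.R) : ∃ g' ∈ M.R, (∀ i, g' (b i) = 0) ∧ (∀ e, e ∉ Wset a b → g' e = g e) ∧
      ∀ i, g' (a i) = g (a i) + g (b i) := by
  have hB := hW.2.2.2.2.2.2.1 g hg
  have hA := hW.2.2.2.2.2.1 g hg
  refine ⟨g + g (b 1) • lv3_q a b 1 + g (b 2) • lv3_q a b 2,
    M.R.add_mem (M.R.add_mem hg (M.R.smul_mem _ (lv3_qR hW 1 (by decide))))
      (M.R.smul_mem _ (lv3_qR hW 2 (by decide))), ?_, ?_, ?_⟩
  · intro i
    simp only [Pi.add_apply, Pi.smul_apply, smul_eq_mul, lv3_qb hW]
    fin_cases i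
    · simpa using hB
    · simp [z_add_self]
    · simp [z_add_self]
  · intro e he
    simp only [Pi.add_apply, Pi.smul_apply, smul_eq_mul, lv3_qout a b _ he, mul_zero, add_zero]
  · intro i
    simp only [Pi.add_apply, Pi.smul_apply, smul_eq_mul, lv3_qa hW]
    fin_cases i
    · have h2 : g (b 1) + g (b 2) = g (b 0) := by
        generalize g (b 0) = x at hB ⊢
        generalize g (b 1) = y at hB ⊢
        generalize g (b 2) = z at hB ⊢
        revert x y z
        decide
      simp [add_assoc, h2]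
    · simp
    · simp

theorem WStr_rows (M : BM E) (h : M.TC) (a b : Fin 3 → E) (hW : WStr M a b)
    (hc : 8 ≤ M.S.card) (g : E → ZMod 2) (hg : g ∈ M.R) (hg0 : ∀ e, e ∉ Wset a b → g e = 0)
    (i : Fin 3) : g (a i) = g (b i) := by
  by_contra hne
  obtain ⟨g', hg', hb, hout, ha⟩ := lv3_norm hW hg
  have h1 : g' (a i) = 1 := by
    rw [ha i]
    rcases zcases (g (a i)) with h1 | h1 <;> rcases zcases (g (b i)) with h2 | h2
    · exact absurd (h1.trans h2.symm) hne
    · rw [h1, h2]; rfl
    · rw [h1, h2]; rfl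
    · exact absurd (h1.trans h2.symm) hne
  have h2 := lv3_two h hW hc
  have h3 := lv3_cycs hW (n := 3) ![g', lv3_q a b 1, lv3_q a b 2] ?_ ?_ ?_
  · omega
  · intro j
    fin_cases j
    · exact hg'
    · exact lv3_qR hW 1 (by decide)
    · exact lv3_qR hW 2 (by decide)
  · intro j e he
    fin_cases j
    · show g' e = 0
      rw [hout e he]; exact hg0 e he
    · exact lv3_qout a b 1 he
    · exact lv3_qout a b 2 he
  · refine linIndep_tri _ ![a i, b 1, b 2] ?_ ?_
    · intro j
      fin_cases j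
      · exact h1
      · show lv3_q a b 1 (b 1) = 1
        rw [lv3_qb hW]; rfl
      · show lv3_q a b 2 (b 2) = 1
        rw [lv3_qb hW]; rfl
    · intro j k hjk
      fin_cases j <;> fin_cases k
      · exact absurd hjk (by decide)
      · exact absurd hjk (by decide)
      · exact absurd hjk (by decide)
      · exact hb 1
      · exact absurd hjk (by decide)
      · exact absurd hjk (by decide)
      · exact hb 2
      · show lv3_q a b 1 (b 2) = 0
        rw [lv3_qb hW]; rfl
      · exact absurd hjk (by decide)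

theorem WStr_K33s (M : BM E) (h : M.TC) (a b : Fin 3 → E) (hW : WStr M a b)
    (hz : ∃ z ∈ M.Z, z ≠ 0 ∧ ∀ i, z (a i) = 0 ∧ z (b i) = 0) : HasMinor K33s M := by
  have hWS := lv3_sub hW
  have hWc := lv3_card hW
  -- the number of elements
  have hc : 8 ≤ M.S.card := by
    obtain ⟨z, hz, h0, hzab⟩ := hz
    have h1 := TC_cyc_card h hz h0
    have h2 : Disjoint (Wset a b) (univ.filter (fun e => z e ≠ 0)) := by
      rw [Finset.disjoint_left]
      intro e he he'
      have h3 := (Finset.mem_filter.1 he').2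
      rcases lv3_mem.1 he with ⟨i, rfl⟩ | ⟨i, rfl⟩
      · exact h3 (hzab i).1
      · exact h3 (hzab i).2
    have h3 : Wset a b ∪ univ.filter (fun e => z e ≠ 0) ⊆ M.S := by
      apply Finset.union_subset hWS
      intro e he
      by_contra hne
      exact (Finset.mem_filter.1 he).2 (hz.1 e hne)
    have h4 := Finset.card_le_card h3
    rw [Finset.card_union_of_disjoint h2] at h4
    omega
  have hlam := WStr_lam M h a b hW hc
  obtain ⟨d, C, hd, hdS, hCS, hCW, D1, D2, D3, D4⟩ := delta M h (Wset a b) hWS hlam (by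
    obtain ⟨z, hz, h0, hzab⟩ := hz
    refine ⟨z, hz, h0, fun e he => ?_⟩
    rcases lv3_mem.1 he with ⟨i, rfl⟩ | ⟨i, rfl⟩
    · exact (hzab i).1
    · exact (hzab i).2)
  have hW' := hW
  obtain ⟨haS, hbS, ha, hb, hab, hA, hB, -⟩ := hW'
  have haW : ∀ i, a i ∈ Wset a b := fun i => lv3_mem.2 (Or.inl ⟨i, rfl⟩)
  have hbW : ∀ i, b i ∈ Wset a b := fun i => lv3_mem.2 (Or.inr ⟨i, rfl⟩)
  have hpair : ∀ (i : Fin 3) (f : E → ZMod 2), ∑ x ∈ ({a i, b i} : Finset E), f x = f (a i) + f (b i) :=
    fun i f => Finset.sum_pair (hab i i)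
  obtain ⟨σ, hσ, hσf⟩ := guts M (Wset a b) C d D1 D2 D3 D4 (fun i => {a i, b i})
    (by
      intro i e he
      simp only [Finset.mem_insert, Finset.mem_singleton] at he
      rcases he with rfl | rfl
      · exact haW i
      · exact hbW i)
    (by
      intro f hf
      simp only [hpair]
      have h1 := hA f hf
      have h2 := hB f hf
      have h3 : f (a 0) + f (b 0) + (f (a 1) + f (b 1)) + (f (a 2) + f (b 2))
          = (f (a 0) + f (a 1) + f (a 2)) + (f (b 0) + f (b 1) + f (b 2)) := by ring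
      rw [h3, h1, h2, add_zero])
    (by
      intro g hg hg0 i
      simp only [hpair]
      rw [WStr_rows M h a b hW hc g hg hg0 i, z_add_self])
    (by
      intro i
      obtain ⟨f, hf, hne⟩ := TC_row_sep h (haS i) (hbS i) (hab i i)
      refine ⟨f, hf, ?_⟩
      simp only [hpair]
      rw [Ne, z_add_eq_zero]
      exact hne)
  simp only [hpair] at hσf
  -- realise all values on the guts
  have hreal : ∀ p : Fin 3 → ZMod 2, p 0 + p 1 + p 2 = 0 → ∃ f ∈ M.R, (∀ c ∈ C, f c = 0) ∧
      (∀ i, f (d (σ i)) = p i) ∧ (∀ i, f (a i) = p i) ∧ ∀ i, f (b i) = 0 := by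
    intro p hp
    let s : Fin 3 ≃ Fin 3 := Equiv.ofBijective σ (Finite.injective_iff_bijective.1 hσ)
    obtain ⟨f, hf, hfC, hfd⟩ := D4 (fun i => p (s.symm i)) (by
      rw [← Fin.sum_univ_three (fun i => p (s.symm i)), Equiv.sum_comp s.symm p,
        Fin.sum_univ_three]
      exact hp)
    have hfd' : ∀ i, f (d (σ i)) = p i := by
      intro i
      rw [hfd (σ i)]
      show p (s.symm (s i)) = p i
      rw [Equiv.symm_apply_apply]
    obtain ⟨f', hf', hb', hout, ha'⟩ := lv3_norm hW hf
    refine ⟨f', hf', ?_, ?_, ?_, hb'⟩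
    · intro c hcC
      rw [hout c (fun h => Finset.disjoint_left.1 hCW hcC h)]
      exact hfC c hcC
    · intro i
      rw [hout _ (hdS (σ i)).2.1]
      exact hfd' i
    · intro i
      rw [ha' i, ← hσf f hf hfC i]
      exact hfd' i
  have haC : ∀ i, a i ∉ C := fun i hi => Finset.disjoint_left.1 hCW hi (haW i)
  have hbC : ∀ i, b i ∉ C := fun i hi => Finset.disjoint_left.1 hCW hi (hbW i)
  have had : ∀ i j, a i ≠ d (σ j) := fun i j hij => (hdS (σ j)).2.1 (hij ▸ haW i)
  have hbd : ∀ i j, b i ≠ d (σ j) := fun i j hij => (hdS (σ j)).2.1 (hij ▸ hbW i)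
  have hdd : Function.Injective (fun i => d (σ i)) := hd.comp hσ
  refine ⟨![a 0, a 1, a 2, b 0, b 1, b 2, d (σ 0), d (σ 1), d (σ 2)], C, ?_, ?_, hCS, ?_, ?_, ?_⟩
  · have e1 : ∀ i j : Fin 3, a i = a j → i = j := fun i j h => ha h
    have e2 : ∀ i j : Fin 3, b i = b j → i = j := fun i j h => hb h
    have e3 : ∀ i j : Fin 3, d (σ i) = d (σ j) → i = j := fun i j h => hdd h
    have e4 : ∀ i j : Fin 3, b j ≠ a i := fun i j h => hab i j h.symm
    have e5 : ∀ i j : Fin 3, d (σ j) ≠ a i := fun i j h => had i j h.symm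
    have e6 : ∀ i j : Fin 3, d (σ j) ≠ b i := fun i j h => hbd i j h.symm
    intro x y hxy
    fin_cases x <;> fin_cases y <;>
      first
      | rfl
      | exact absurd (e1 _ _ hxy) (by decide)
      | exact absurd (e2 _ _ hxy) (by decide)
      | exact absurd (e3 _ _ hxy) (by decide)
      | exact absurd hxy (hab _ _)
      | exact absurd hxy (had _ _)
      | exact absurd hxy (hbd _ _)
      | exact absurd hxy (e4 _ _)
      | exact absurd hxy (e5 _ _)
      | exact absurd hxy (e6 _ _)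
  · intro x
    fin_cases x
    · exact haS 0
    · exact haS 1
    · exact haS 2
    · exact hbS 0
    · exact hbS 1
    · exact hbS 2
    · exact (hdS (σ 0)).1
    · exact (hdS (σ 1)).1
    · exact (hdS (σ 2)).1
  · intro x
    fin_cases x
    · exact haC 0
    · exact haC 1
    · exact haC 2
    · exact hbC 0
    · exact hbC 1
    · exact hbC 2
    · exact (hdS (σ 0)).2.2
    · exact (hdS (σ 1)).2.2
    · exact (hdS (σ 2)).2.2
  · have hq : ∀ k : Fin 3, k ≠ 0 → lv3_q a b k ∈ M.R ∧ (∀ c ∈ C, lv3_q a b k c = 0) ∧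
        ∀ j, lv3_q a b k (d (σ j)) = 0 := fun k hk =>
      ⟨lv3_qR hW k hk.symm, fun c hcC => lv3_qout a b k (fun h => Finset.disjoint_left.1 hCW hcC h),
        fun j => lv3_qout a b k (hdS (σ j)).2.1⟩
    intro x
    fin_cases x
    · obtain ⟨h1, h2, h3⟩ := hq 1 (by decide)
      refine ⟨_, h1, h2, fun j => ?_⟩
      fin_cases j
      · show lv3_q a b 1 (a 0) = 1
        rw [lv3_qa hW]; rfl
      · show lv3_q a b 1 (a 1) = 1
        rw [lv3_qa hW]; rfl
      · show lv3_q a b 1 (a 2) = 0
        rw [lv3_qa hW]; rfl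
      · show lv3_q a b 1 (b 0) = 1
        rw [lv3_qb hW]; rfl
      · show lv3_q a b 1 (b 1) = 1
        rw [lv3_qb hW]; rfl
      · show lv3_q a b 1 (b 2) = 0
        rw [lv3_qb hW]; rfl
      · exact h3 0
      · exact h3 1
      · exact h3 2
    · obtain ⟨h1, h2, h3⟩ := hq 2 (by decide)
      refine ⟨_, h1, h2, fun j => ?_⟩
      fin_cases j
      · show lv3_q a b 2 (a 0) = 1
        rw [lv3_qa hW]; rfl
      · show lv3_q a b 2 (a 1) = 0
        rw [lv3_qa hW]; rfl
      · show lv3_q a b 2 (a 2) = 1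
        rw [lv3_qa hW]; rfl
      · show lv3_q a b 2 (b 0) = 1
        rw [lv3_qb hW]; rfl
      · show lv3_q a b 2 (b 1) = 0
        rw [lv3_qb hW]; rfl
      · show lv3_q a b 2 (b 2) = 1
        rw [lv3_qb hW]; rfl
      · exact h3 0
      · exact h3 1
      · exact h3 2
    · obtain ⟨f, hf, hfC, hfd, hfa, hfb⟩ := hreal ![1, 1, 0] (by decide)
      refine ⟨f, hf, hfC, fun j => ?_⟩
      fin_cases j
      · exact hfa 0
      · exact hfa 1
      · exact hfa 2
      · exact hfb 0
      · exact hfb 1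
      · exact hfb 2
      · exact hfd 0
      · exact hfd 1
      · exact hfd 2
    · obtain ⟨f, hf, hfC, hfd, hfa, hfb⟩ := hreal ![1, 0, 1] (by decide)
      refine ⟨f, hf, hfC, fun j => ?_⟩
      fin_cases j
      · exact hfa 0
      · exact hfa 1
      · exact hfa 2
      · exact hfb 0
      · exact hfb 1
      · exact hfb 2
      · exact hfd 0
      · exact hfd 1
      · exact hfd 2
  · intro f hf hfC
    have r0 : f (a 0) = f (a 1) + f (a 2) := by
      have h1 := hA f hf
      generalize f (a 0) = x at h1 ⊢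
      generalize f (a 1) = y at h1 ⊢
      generalize f (a 2) = z at h1 ⊢
      revert x y z
      decide
    have r3 : f (b 0) = f (b 1) + f (b 2) := by
      have h1 := hB f hf
      generalize f (b 0) = x at h1 ⊢
      generalize f (b 1) = y at h1 ⊢
      generalize f (b 2) = z at h1 ⊢
      revert x y z
      decide
    have r6 := hσf f hf hfC 0
    have r7 := hσf f hf hfC 1
    have r8 := hσf f hf hfC 2
    refine ⟨![f (b 1), f (b 2), f (d (σ 1)), f (d (σ 2))], fun j => ?_⟩
    have key : ∀ x1 x2 x4 x5 : ZMod 2, ∀ j : Fin 9,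
        (![x1 + x2, x1, x2, x4 + x5, x4, x5, x1 + x2 + (x4 + x5), x1 + x4, x2 + x5] : Fin 9 → ZMod 2) j
          = ∑ i, (![x4, x5, x1 + x4, x2 + x5] : Fin 4 → ZMod 2) i * K33s i j := by
      decide
    have h1 := key (f (a 1)) (f (a 2)) (f (b 1)) (f (b 2)) j
    rw [r7, r8]
    rw [← h1]
    fin_cases j
    · exact r0
    · rfl
    · rfl
    · exact r3
    · rfl
    · rfl
    · show f (d (σ 0)) = _
      rw [r6, r0, r3]
      rfl
    · exact r7
    · exact r8

end SEY
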