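import Pool.Agent.Helper70.SEY.TriOut
import Pool.Agent.Helper70.SEY.Guts
import Pool.Agent.Helper71.SEYApi2

/-!
LV-4c (project SEY, block LEVEL): outcome O2 (`TriT`) for `K4` gives a `K5` minor of the dual.

Notation as in TriLam.lean.  Apply `SEY.delta` to `M.dual` and `W7` (its rows are the cycles of `M`;
`M.dual` TC, `lam` self-dual, `TriT_lam`, `TriT_outside` with `M.dual.Z = M.R` (`BM.dual_dual`)): `d, C` and
`K = {z in Z : z = 0 on C}`.  `guts` for `M.dual` with `P 0 = {a 1, a 2}`, `P 1 = {a 0, a 2}`,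
`P 2 = {a 0, a 1}` (`hP` clear, `hPR` = `TriT_cyc`, `hPne` = `TC_cyc_sep`) gives `sigma` with
`z (d (sigma 2)) = z (a 0) + z (a 1)` etc. on `K`.
HasMinor K5 (M.dual) with `C` and (edges 01,02,03,04,12,13,14,23,24,34 of `K5e`)
`phi = ![a 0, a 1, a 2, e, d (sigma 2), d (sigma 1), b 0, d (sigma 0), b 1, b 2]`.
Second condition: for `z` in `K` put `x = z o phi`: `x 6 = x 0 + x 3`, `x 8 = x 1 + x 3`,
`x 9 = x 2 + x 3` (rows `q_i`), `x 4 = x 0 + x 1`, `x 5 = x 0 + x 2`, `x 7 = x 1 + x 2`; the coefficients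
of the five vertex stars are `c = ![0, x 0, x 1, x 2, x 3]`.
First condition: given the star row `y` of a vertex, take by (D4) `z` in `K` with the right values
at the `d`'s; then `z (a i) + z (a j) = y_i + y_j`, so `z (a i) = y_i + s` with a constant `s`;
replace `z` by `z + s zA` (`zA` vanishes on `C` and on the `d`'s), so `z (a i) = y_i`; then add `zB`
if necessary to get `z e = y 3`; the values at `b i` follow from the rows `q_i`.
-/

set_option autoImplicit false

namespace SEY

open Finset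

variable {E : Type} [Fintype E] [DecidableEq E]

private theorem TriT_card (M : BM E) (e : E) (a b : Fin 3 → E) (hT : TriT K4 M e a b) :
    10 ≤ M.S.card := by
  obtain ⟨A, π, hA, hπ, -⟩ := hT.hasT
  have h6 : 6 ≤ A.card := by
    have h1 : (Finset.univ : Finset (Fin 6)) ⊆ A.image π := by
      intro i _
      obtain ⟨x, hx, hxi⟩ := hπ i
      exact Finset.mem_image.2 ⟨x, hx, hxi⟩
    have h2 := Finset.card_le_card h1
    have h3 : (A.image π).card ≤ A.card := Finset.card_image_le
    have h4 : (Finset.univ : Finset (Fin 6)).card = 6 := by simp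
    omega
  have hd : Disjoint A ({e, b 0, b 1, b 2} : Finset E) := by
    rw [Finset.disjoint_left]
    intro x hx hx2
    have h1 := hA hx
    rw [BM.con_S, BM.del_S, Finset.mem_sdiff, Finset.mem_sdiff, Finset.mem_singleton] at h1
    rw [Finset.mem_insert] at hx2
    rcases hx2 with h2 | h2
    · exact h1.1.2 h2
    · exact h1.2 h2
  have hsub : A ∪ ({e, b 0, b 1, b 2} : Finset E) ⊆ M.S := by
    intro x hx
    rw [Finset.mem_union] at hx
    rcases hx with hx | hx
    · have h1 := hA hx
      rw [BM.con_S, BM.del_S, Finset.mem_sdiff, Finset.mem_sdiff] at h1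
      exact h1.1.1
    · simp only [Finset.mem_insert, Finset.mem_singleton] at hx
      rcases hx with rfl | rfl | rfl | rfl
      · exact hT.mem.1
      · exact hT.mem.2.2 0
      · exact hT.mem.2.2 1
      · exact hT.mem.2.2 2
  have h4 : ({e, b 0, b 1, b 2} : Finset E).card = 4 := by
    have hb := hT.inj.2.1
    have he := hT.inj.2.2.2.2
    rw [Finset.card_insert_of_notMem, Finset.card_insert_of_notMem, Finset.card_insert_of_notMem,
      Finset.card_singleton]
    · rw [Finset.mem_singleton]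
      exact fun h => absurd (hb h) (by decide)
    · rw [Finset.mem_insert, Finset.mem_singleton, not_or]
      exact ⟨fun h => absurd (hb h) (by decide), fun h => absurd (hb h) (by decide)⟩
    · rw [Finset.mem_insert, Finset.mem_insert, Finset.mem_singleton, not_or, not_or]
      exact ⟨he 0, he 1, he 2⟩
  have h5 := Finset.card_le_card hsub
  rw [Finset.card_union_of_disjoint hd, h4] at h5
  omega

omit [Fintype E] in
private theorem sum_four {x : E} {c : Fin 3 → E} (hc : Function.Injective c) (hx : ∀ i, x ≠ c i)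
    (f : E → ZMod 2) : ∑ y ∈ ({x, c 0, c 1, c 2} : Finset E), f y = f x + f (c 0) + f (c 1) + f (c 2) := by
  rw [Finset.sum_insert, Finset.sum_insert, Finset.sum_insert, Finset.sum_singleton]
  · ring
  · rw [Finset.mem_singleton]
    exact fun h => absurd (hc h) (by decide)
  · rw [Finset.mem_insert, Finset.mem_singleton, not_or]
    exact ⟨fun h => absurd (hc h) (by decide), fun h => absurd (hc h) (by decide)⟩
  · rw [Finset.mem_insert, Finset.mem_insert, Finset.mem_singleton, not_or, not_or]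
    exact ⟨hx 0, hx 1, hx 2⟩

omit [Fintype E] in
private theorem mem_W7 {e : E} {a b : Fin 3 → E} {x : E} :
    x ∈ W7 e a b ↔ x = e ∨ (∃ i, a i = x) ∨ ∃ i, b i = x := by
  unfold W7
  rw [Finset.mem_insert, Finset.mem_union, Finset.mem_image, Finset.mem_image]
  simp only [Finset.mem_univ, true_and]

theorem TriT_K5 (M : BM E) (h : M.TC) (e : E) (a b : Fin 3 → E)
    (hT : TriT K4 M e a b) : HasMinor K5 M.dual := by
  have hc10 := TriT_card M e a b hT
  have hc9 : 9 ≤ M.S.card := by omega
  have hT' := hT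
  obtain ⟨⟨heS, haS, hbS⟩, ⟨hai, hbi, hab, hea, heb⟩, hrow, hcyca, hcycb, -, -⟩ := hT
  have hWS : W7 e a b ⊆ M.S := by
    intro x hx
    rcases mem_W7.1 hx with rfl | ⟨i, rfl⟩ | ⟨i, rfl⟩
    · exact heS
    · exact haS i
    · exact hbS i
  have heW : e ∈ W7 e a b := mem_W7.2 (Or.inl rfl)
  have haW : ∀ i, a i ∈ W7 e a b := fun i => mem_W7.2 (Or.inr (Or.inl ⟨i, rfl⟩))
  have hbW : ∀ i, b i ∈ W7 e a b := fun i => mem_W7.2 (Or.inr (Or.inr ⟨i, rfl⟩))
  have hlam : M.dual.lam (W7 e a b) = 2 := by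
    rw [BM.lam_dual]
    exact TriT_lam K4 M h e a b hT' hc9
  obtain ⟨d, C, hdi, hd, hCS, hCW, hD1, hD2, hD3, hD4⟩ := delta M.dual h.dual (W7 e a b) hWS hlam (by
    rw [BM.dual_Z]
    exact TriT_outside M h e a b hT')
  have hpair : ∀ i j : Fin 3, i ≠ j → ∀ f : E → ZMod 2,
      ∑ x ∈ ({a i, a j} : Finset E), f x = f (a i) + f (a j) := by
    intro i j hij f
    rw [Finset.sum_insert, Finset.sum_singleton]
    rw [Finset.mem_singleton]
    exact fun h => hij (hai h)
  obtain ⟨σ, hσi, hσ⟩ := guts M.dual (W7 e a b) C d hD1 hD2 hD3 hD4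
    (![{a 1, a 2}, {a 0, a 2}, {a 0, a 1}])
    (by
      intro i
      fin_cases i <;> (intro x hx; simp only [Fin.zero_eta, Fin.mk_one, Fin.reduceFinMk,
        Matrix.cons_val_zero, Matrix.cons_val_one, Matrix.cons_val, Finset.mem_insert,
        Finset.mem_singleton] at hx; rcases hx with rfl | rfl <;> exact haW _))
    (by
      intro f _
      simp only [Matrix.cons_val_zero, Matrix.cons_val_one, Matrix.cons_val]
      rw [hpair 1 2 (by decide), hpair 0 2 (by decide), hpair 0 1 (by decide)]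
      generalize f (a 0) = x
      generalize f (a 1) = y
      generalize f (a 2) = z
      revert x y z
      decide)
    (by
      intro g hg hg0 i
      have hcyc : ∀ i j : Fin 3, g (a i) = g (a j) := fun i j =>
        TriT_cyc K4 M h e a b hT' hc9 g hg hg0 i j
      fin_cases i <;> simp only [Fin.zero_eta, Fin.mk_one, Fin.reduceFinMk,
        Matrix.cons_val_zero, Matrix.cons_val_one, Matrix.cons_val]
      · rw [hpair 1 2 (by decide), hcyc 1 2]
        exact z_add_self _
      · rw [hpair 0 2 (by decide), hcyc 0 2]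
        exact z_add_self _
      · rw [hpair 0 1 (by decide), hcyc 0 1]
        exact z_add_self _)
    (by
      have key : ∀ i j : Fin 3, i ≠ j → ∃ f ∈ M.Z, f (a i) + f (a j) ≠ 0 := by
        intro i j hij
        obtain ⟨z, hz, hne⟩ := TC_cyc_sep h (haS i) (haS j) (fun h => hij (hai h))
        exact ⟨z, hz, fun h => hne (z_add_eq_zero.1 h)⟩
      intro i
      fin_cases i <;> simp only [Fin.zero_eta, Fin.mk_one, Fin.reduceFinMk,
        Matrix.cons_val_zero, Matrix.cons_val_one, Matrix.cons_val]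
      · obtain ⟨f, hf, hf'⟩ := key 1 2 (by decide)
        exact ⟨f, hf, by rw [hpair 1 2 (by decide)]; exact hf'⟩
      · obtain ⟨f, hf, hf'⟩ := key 0 2 (by decide)
        exact ⟨f, hf, by rw [hpair 0 2 (by decide)]; exact hf'⟩
      · obtain ⟨f, hf, hf'⟩ := key 0 1 (by decide)
        exact ⟨f, hf, by rw [hpair 0 1 (by decide)]; exact hf'⟩)
  have hσ0 : ∀ f ∈ M.Z, (∀ c ∈ C, f c = 0) → f (d (σ 0)) = f (a 1) + f (a 2) := by
    intro f hf hf0
    rw [hσ f hf hf0 0]
    simp only [Matrix.cons_val_zero]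
    exact hpair 1 2 (by decide) f
  have hσ1 : ∀ f ∈ M.Z, (∀ c ∈ C, f c = 0) → f (d (σ 1)) = f (a 0) + f (a 2) := by
    intro f hf hf0
    rw [hσ f hf hf0 1]
    simp only [Matrix.cons_val_one, Matrix.cons_val_zero]
    exact hpair 0 2 (by decide) f
  have hσ2 : ∀ f ∈ M.Z, (∀ c ∈ C, f c = 0) → f (d (σ 2)) = f (a 0) + f (a 1) := by
    intro f hf hf0
    rw [hσ f hf hf0 2]
    simp only [Matrix.cons_val]
    exact hpair 0 1 (by decide) f
  -- the rows q_i
  have hq : ∀ f ∈ M.Z, ∀ i, f (b i) = f e + f (a i) := by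
    intro f hf i
    have h1 := hf.2 _ (hrow i)
    rw [ind_dot, Finset.sum_insert, Finset.sum_insert, Finset.sum_singleton] at h1
    · revert h1
      generalize f e = x
      generalize f (a i) = y
      generalize f (b i) = z
      revert x y z
      decide
    · rw [Finset.mem_singleton]
      exact hab i i
    · rw [Finset.mem_insert, Finset.mem_singleton, not_or]
      exact ⟨hea i, heb i⟩
  -- the cycles zA, zB
  have hzA : ind ({e, a 0, a 1, a 2} : Finset E) ∈ M.Z := by
    refine ⟨fun x hx => ind_of_notMem fun hx' => hx ?_, fun f hf => ?_⟩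
    · simp only [Finset.mem_insert, Finset.mem_singleton] at hx'
      rcases hx' with rfl | rfl | rfl | rfl
      · exact heS
      · exact haS _
      · exact haS _
      · exact haS _
    · rw [dot_ind, sum_four hai hea]
      exact hcyca f hf
  have hzB : ind ({e, b 0, b 1, b 2} : Finset E) ∈ M.Z := by
    refine ⟨fun x hx => ind_of_notMem fun hx' => hx ?_, fun f hf => ?_⟩
    · simp only [Finset.mem_insert, Finset.mem_singleton] at hx'
      rcases hx' with rfl | rfl | rfl | rfl
      · exact heS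
      · exact hbS _
      · exact hbS _
      · exact hbS _
    · rw [dot_ind, sum_four hbi heb]
      exact hcycb f hf
  have hzAC : ∀ c ∈ C, (ind ({e, a 0, a 1, a 2} : Finset E) : E → ZMod 2) c = 0 := by
    intro c hc
    refine ind_of_notMem fun hc' => Finset.disjoint_left.1 hCW hc ?_
    simp only [Finset.mem_insert, Finset.mem_singleton] at hc'
    rcases hc' with rfl | rfl | rfl | rfl
    · exact heW
    · exact haW _
    · exact haW _
    · exact haW _
  have hzBC : ∀ c ∈ C, (ind ({e, b 0, b 1, b 2} : Finset E) : E → ZMod 2) c = 0 := by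
    intro c hc
    refine ind_of_notMem fun hc' => Finset.disjoint_left.1 hCW hc ?_
    simp only [Finset.mem_insert, Finset.mem_singleton] at hc'
    rcases hc' with rfl | rfl | rfl | rfl
    · exact heW
    · exact hbW _
    · exact hbW _
    · exact hbW _
  have hzAa : ∀ i, (ind ({e, a 0, a 1, a 2} : Finset E) : E → ZMod 2) (a i) = 1 := by
    intro i
    refine ind_of_mem ?_
    simp only [Finset.mem_insert, Finset.mem_singleton]
    fin_cases i
    · exact Or.inr (Or.inl rfl)
    · exact Or.inr (Or.inr (Or.inl rfl))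
    · exact Or.inr (Or.inr (Or.inr rfl))
  have hzBa : ∀ i, (ind ({e, b 0, b 1, b 2} : Finset E) : E → ZMod 2) (a i) = 0 := by
    intro i
    refine ind_of_notMem ?_
    simp only [Finset.mem_insert, Finset.mem_singleton, not_or]
    exact ⟨(hea i).symm, hab i 0, hab i 1, hab i 2⟩
  have hzBe : (ind ({e, b 0, b 1, b 2} : Finset E) : E → ZMod 2) e = 1 :=
    ind_of_mem (Finset.mem_insert_self _ _)
  -- all values on a 0, a 1, a 2, e occur
  have hX : ∀ t : Fin 4 → ZMod 2, ∃ z ∈ M.Z, (∀ c ∈ C, z c = 0) ∧ z (a 0) = t 0 ∧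
      z (a 1) = t 1 ∧ z (a 2) = t 2 ∧ z e = t 3 := by
    intro t
    let τ : Fin 3 ≃ Fin 3 := Equiv.ofBijective σ (Finite.injective_iff_bijective.1 hσi)
    let s : Fin 3 → ZMod 2 := ![t 1 + t 2, t 0 + t 2, t 0 + t 1]
    obtain ⟨z, hz, hz0, hzd⟩ := hD4 (fun j => s (τ.symm j)) (by
      have h1 : ∑ j, s (τ.symm j) = ∑ j, s j := Equiv.sum_comp τ.symm s
      rw [Fin.sum_univ_three, Fin.sum_univ_three] at h1
      rw [h1]
      show t 1 + t 2 + (t 0 + t 2) + (t 0 + t 1) = 0
      generalize t 0 = x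
      generalize t 1 = y
      generalize t 2 = w
      revert x y w
      decide)
    have hzs : ∀ i, z (d (σ i)) = s i := by
      intro i
      rw [hzd (σ i)]
      show s (τ.symm (τ i)) = s i
      rw [Equiv.symm_apply_apply]
    have e0 : z (a 1) + z (a 2) = t 1 + t 2 := (hσ0 z hz hz0).symm.trans (hzs 0)
    have e1 : z (a 0) + z (a 2) = t 0 + t 2 := (hσ1 z hz hz0).symm.trans (hzs 1)
    refine ⟨z + (z (a 0) + t 0) • ind ({e, a 0, a 1, a 2} : Finset E) +
      ((z + (z (a 0) + t 0) • ind ({e, a 0, a 1, a 2} : Finset E)) e + t 3) •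
        ind ({e, b 0, b 1, b 2} : Finset E), ?_, ?_, ?_, ?_, ?_, ?_⟩
    · exact M.Z.add_mem (M.Z.add_mem hz (M.Z.smul_mem _ hzA)) (M.Z.smul_mem _ hzB)
    · intro c hc
      simp only [Pi.add_apply, Pi.smul_apply, smul_eq_mul]
      rw [hz0 c hc, hzAC c hc, hzBC c hc]
      ring
    · simp only [Pi.add_apply, Pi.smul_apply, smul_eq_mul]
      rw [hzAa 0, hzBa 0]
      generalize z (a 0) = x
      generalize t 0 = y
      rw [mul_zero, mul_one, add_zero]
      revert x y
      decide
    · simp only [Pi.add_apply, Pi.smul_apply, smul_eq_mul]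
      rw [hzAa 1, hzBa 1]
      rw [mul_zero, mul_one, add_zero]
      revert e0 e1
      generalize z (a 0) = x0
      generalize z (a 1) = x1
      generalize z (a 2) = x2
      generalize t 0 = y0
      generalize t 1 = y1
      generalize t 2 = y2
      revert x0 x1 x2 y0 y1 y2
      decide
    · simp only [Pi.add_apply, Pi.smul_apply, smul_eq_mul]
      rw [hzAa 2, hzBa 2]
      rw [mul_zero, mul_one, add_zero]
      revert e0 e1
      generalize z (a 0) = x0
      generalize z (a 1) = x1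
      generalize z (a 2) = x2
      generalize t 0 = y0
      generalize t 1 = y1
      generalize t 2 = y2
      revert x0 x1 x2 y0 y1 y2
      decide
    · rw [Pi.add_apply, Pi.smul_apply, hzBe, smul_eq_mul, mul_one]
      generalize (z + (z (a 0) + t 0) • ind ({e, a 0, a 1, a 2} : Finset E)) e = x
      generalize t 3 = y
      revert x y
      decide
  -- coordinates of the elements of K
  have hcoord : ∀ z ∈ M.Z, (∀ c ∈ C, z c = 0) → ∀ c : Fin 5 → ZMod 2,
      z (a 0) = c 0 + c 1 → z (a 1) = c 0 + c 2 → z (a 2) = c 0 + c 3 → z e = c 0 + c 4 →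
      ∀ j, z ((![a 0, a 1, a 2, e, d (σ 2), d (σ 1), b 0, d (σ 0), b 1, b 2] : Fin 10 → E) j)
        = ∑ i, c i * K5 i j := by
    intro z hz hz0 c h0 h1 h2 h3 j
    have e0 := hσ0 z hz hz0
    have e1 := hσ1 z hz hz0
    have e2 := hσ2 z hz hz0
    have q0 := hq z hz 0
    have q1 := hq z hz 1
    have q2 := hq z hz 2
    rw [h1, h2] at e0
    rw [h0, h2] at e1
    rw [h0, h1] at e2
    rw [h3, h0] at q0
    rw [h3, h1] at q1
    rw [h3, h2] at q2
    rw [Fin.sum_univ_five]
    fin_cases j
    · show z (a 0) = c 0 * K5 0 0 + c 1 * K5 1 0 + c 2 * K5 2 0 + c 3 * K5 3 0 + c 4 * K5 4 0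
      rw [h0]
      generalize c 0 = c0
      generalize c 1 = c1
      generalize c 2 = c2
      generalize c 3 = c3
      generalize c 4 = c4
      revert c0 c1 c2 c3 c4
      decide
    · show z (a 1) = c 0 * K5 0 1 + c 1 * K5 1 1 + c 2 * K5 2 1 + c 3 * K5 3 1 + c 4 * K5 4 1
      rw [h1]
      generalize c 0 = c0
      generalize c 1 = c1
      generalize c 2 = c2
      generalize c 3 = c3
      generalize c 4 = c4
      revert c0 c1 c2 c3 c4
      decide
    · show z (a 2) = c 0 * K5 0 2 + c 1 * K5 1 2 + c 2 * K5 2 2 + c 3 * K5 3 2 + c 4 * K5 4 2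
      rw [h2]
      generalize c 0 = c0
      generalize c 1 = c1
      generalize c 2 = c2
      generalize c 3 = c3
      generalize c 4 = c4
      revert c0 c1 c2 c3 c4
      decide
    · show z e = c 0 * K5 0 3 + c 1 * K5 1 3 + c 2 * K5 2 3 + c 3 * K5 3 3 + c 4 * K5 4 3
      rw [h3]
      generalize c 0 = c0
      generalize c 1 = c1
      generalize c 2 = c2
      generalize c 3 = c3
      generalize c 4 = c4
      revert c0 c1 c2 c3 c4
      decide
    · show z (d (σ 2)) = c 0 * K5 0 4 + c 1 * K5 1 4 + c 2 * K5 2 4 + c 3 * K5 3 4 + c 4 * K5 4 4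
      rw [e2]
      generalize c 0 = c0
      generalize c 1 = c1
      generalize c 2 = c2
      generalize c 3 = c3
      generalize c 4 = c4
      revert c0 c1 c2 c3 c4
      decide
    · show z (d (σ 1)) = c 0 * K5 0 5 + c 1 * K5 1 5 + c 2 * K5 2 5 + c 3 * K5 3 5 + c 4 * K5 4 5
      rw [e1]
      generalize c 0 = c0
      generalize c 1 = c1
      generalize c 2 = c2
      generalize c 3 = c3
      generalize c 4 = c4
      revert c0 c1 c2 c3 c4
      decide
    · show z (b 0) = c 0 * K5 0 6 + c 1 * K5 1 6 + c 2 * K5 2 6 + c 3 * K5 3 6 + c 4 * K5 4 6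
      rw [q0]
      generalize c 0 = c0
      generalize c 1 = c1
      generalize c 2 = c2
      generalize c 3 = c3
      generalize c 4 = c4
      revert c0 c1 c2 c3 c4
      decide
    · show z (d (σ 0)) = c 0 * K5 0 7 + c 1 * K5 1 7 + c 2 * K5 2 7 + c 3 * K5 3 7 + c 4 * K5 4 7
      rw [e0]
      generalize c 0 = c0
      generalize c 1 = c1
      generalize c 2 = c2
      generalize c 3 = c3
      generalize c 4 = c4
      revert c0 c1 c2 c3 c4
      decide
    · show z (b 1) = c 0 * K5 0 8 + c 1 * K5 1 8 + c 2 * K5 2 8 + c 3 * K5 3 8 + c 4 * K5 4 8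
      rw [q1]
      generalize c 0 = c0
      generalize c 1 = c1
      generalize c 2 = c2
      generalize c 3 = c3
      generalize c 4 = c4
      revert c0 c1 c2 c3 c4
      decide
    · show z (b 2) = c 0 * K5 0 9 + c 1 * K5 1 9 + c 2 * K5 2 9 + c 3 * K5 3 9 + c 4 * K5 4 9
      rw [q2]
      generalize c 0 = c0
      generalize c 1 = c1
      generalize c 2 = c2
      generalize c 3 = c3
      generalize c 4 = c4
      revert c0 c1 c2 c3 c4
      decide
  have hdW : ∀ i, d i ∉ W7 e a b := fun i => (hd i).2.1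
  have hda : ∀ i j, d i ≠ a j := fun i j h => hdW i (h ▸ haW j)
  have hdb : ∀ i j, d i ≠ b j := fun i j h => hdW i (h ▸ hbW j)
  have hde : ∀ i, d i ≠ e := fun i h => hdW i (h ▸ heW)
  have hσ01 : d (σ 0) ≠ d (σ 1) := fun h => absurd (hσi (hdi h)) (by decide)
  have hσ02 : d (σ 0) ≠ d (σ 2) := fun h => absurd (hσi (hdi h)) (by decide)
  have hσ12 : d (σ 1) ≠ d (σ 2) := fun h => absurd (hσi (hdi h)) (by decide)
  have ha01 : a 0 ≠ a 1 := fun h => absurd (hai h) (by decide)
  have ha02 : a 0 ≠ a 2 := fun h => absurd (hai h) (by decide)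
  have ha12 : a 1 ≠ a 2 := fun h => absurd (hai h) (by decide)
  have hb01 : b 0 ≠ b 1 := fun h => absurd (hbi h) (by decide)
  have hb02 : b 0 ≠ b 2 := fun h => absurd (hbi h) (by decide)
  have hb12 : b 1 ≠ b 2 := fun h => absurd (hbi h) (by decide)
  refine ⟨![a 0, a 1, a 2, e, d (σ 2), d (σ 1), b 0, d (σ 0), b 1, b 2], C, ?_, ?_, hCS, ?_, ?_, ?_⟩
  · rw [← List.nodup_ofFn]
    simp only [List.ofFn_succ, List.ofFn_zero, Matrix.cons_val_zero, Matrix.cons_val_succ,
      List.nodup_cons, List.mem_cons, List.not_mem_nil, or_false, not_or, List.nodup_nil,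
      not_false_eq_true, and_true]
    exact ⟨⟨ha01, ha02, (hea 0).symm, (hda _ _).symm, (hda _ _).symm, hab _ _, (hda _ _).symm,
        hab _ _, hab _ _⟩,
      ⟨ha12, (hea 1).symm, (hda _ _).symm, (hda _ _).symm, hab _ _, (hda _ _).symm,
        hab _ _, hab _ _⟩,
      ⟨(hea 2).symm, (hda _ _).symm, (hda _ _).symm, hab _ _, (hda _ _).symm,
        hab _ _, hab _ _⟩,
      ⟨(hde _).symm, (hde _).symm, heb _, (hde _).symm, heb _, heb _⟩,
      ⟨hσ12.symm, hdb _ _, hσ02.symm, hdb _ _, hdb _ _⟩,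
      ⟨hdb _ _, hσ01.symm, hdb _ _, hdb _ _⟩,
      ⟨(hdb _ _).symm, hb01, hb02⟩,
      ⟨hdb _ _, hdb _ _⟩,
      hb12⟩
  · intro j
    fin_cases j
    · exact haS 0
    · exact haS 1
    · exact haS 2
    · exact heS
    · exact (hd (σ 2)).1
    · exact (hd (σ 1)).1
    · exact hbS 0
    · exact (hd (σ 0)).1
    · exact hbS 1
    · exact hbS 2
  · have hCn : ∀ x ∈ W7 e a b, x ∉ C := fun x hx hxC => Finset.disjoint_left.1 hCW hxC hx
    intro j
    fin_cases j
    · exact hCn _ (haW 0)
    · exact hCn _ (haW 1)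
    · exact hCn _ (haW 2)
    · exact hCn _ heW
    · exact (hd (σ 2)).2.2
    · exact (hd (σ 1)).2.2
    · exact hCn _ (hbW 0)
    · exact (hd (σ 0)).2.2
    · exact hCn _ (hbW 1)
    · exact hCn _ (hbW 2)
  · intro i
    let c : Fin 5 → ZMod 2 := Pi.single i 1
    obtain ⟨z, hz, hz0, z0, z1, z2, z3⟩ := hX ![c 0 + c 1, c 0 + c 2, c 0 + c 3, c 0 + c 4]
    refine ⟨z, hz, hz0, fun j => ?_⟩
    rw [hcoord z hz hz0 c z0 z1 z2 z3 j]
    rw [Finset.sum_eq_single i]
    · rw [show c i = 1 from Pi.single_eq_same i 1, one_mul]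
    · intro k _ hk
      rw [show c k = 0 from Pi.single_eq_of_ne hk 1, zero_mul]
    · intro hi
      exact absurd (Finset.mem_univ i) hi
  · intro z hz hz0
    refine ⟨![0, z (a 0), z (a 1), z (a 2), z e], ?_⟩
    refine hcoord z hz hz0 _ ?_ ?_ ?_ ?_
    · show z (a 0) = 0 + z (a 0)
      rw [zero_add]
    · show z (a 1) = 0 + z (a 1)
      rw [zero_add]
    · show z (a 2) = 0 + z (a 2)
      rw [zero_add]
    · show z e = 0 + z e
      rw [zero_add]

end SEY
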