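import Pool.Agent.Helper70.SEY.Small
import Pool.Agent.Helper70.SEY.Grid
import Pool.Agent.Helper70.SEY.TriK5
import Pool.Agent.Helper25.SEY.Ind

/-!
Minimal nongraphic matroids and level 1.
-/

set_option autoImplicit false

namespace SEY

open Finset

variable {E : Type} [Fintype E] [DecidableEq E]

/-- A minimal nongraphic 3-connected minor with the topological minor `rows`. -/
theorem exists_minCx {r k : ℕ} (rows : Fin r → Fin k → ZMod 2) (M : BM E) (hTC : M.TC)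
    (hF : NoF M) (hT : HasT rows M) (hG : ¬ Graphic M) :
    ∃ M1 : BM E, Minor M1 M ∧ MinCx rows M1 := by
  classical
  have hex : ∃ m : ℕ, ∃ M1 : BM E, Minor M1 M ∧ M1.S.card = m ∧ M1.TC ∧ HasT rows M1 ∧
      ¬ Graphic M1 := ⟨_, M, Minor.refl M, rfl, hTC, hT, hG⟩
  obtain ⟨M1, h1, hc, h2, h3, h4⟩ := Nat.find_spec hex
  refine ⟨M1, h1, h2, hF.minor h1, h3, h4, fun N hN hlt hNTC hNT => ?_⟩
  by_contra hNG
  have := Nat.find_min' hex ⟨N, hN.trans h1, rfl, hNTC, hNT, hNG⟩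
  omega

/-- Level 1. -/
theorem level1' (M : BM E) (hTC : M.TC) (hF : NoF M) (hG : ¬ Graphic M) :
    HasMinor K33s M ∨ HasMinor K5s M := by
  obtain ⟨M1, h1, hM⟩ := exists_minCx K4 M hTC hF (K4_start M hTC hF.2) hG
  rcases T3 K4e K4_tc K4_gr le_rfl M1 hM with ⟨e, he, hI⟩ | ⟨e, a, b, hT⟩ |
    ⟨f, c, d, hcd, hc1, hc2, hd1, hd2, hI⟩ | ⟨a, b, hW, hz⟩
  · exact (O1_K4 M1 hM.tc hM.nof hM.ng e he hI).elim
  · exact Or.inr ((hasMinor_K5_dual.1 (TriT_K5 M1 hM.tc e a b hT)).of_minor h1)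
  · exact Or.inl ((O4_K4 M1 f c d hcd hc1 hc2 hd1 hd2 hI).of_minor h1)
  · exact Or.inl ((WStr_K33s M1 hM.tc a b hW hz).of_minor h1)

end SEY
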