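import Pool.Agent.Helper25.SEY.Link
import Pool.Agent.Helper71.SEYApi2

/-!
LV-1 (project SEY, block LEVEL): small tools.

* `linIndep_tri`: if `sum c_j v_j = 0`, evaluate at `x i` for `i = m-1, ..., 0`: the terms `j < i`
  vanish by `h0`, the terms `j > i` have `c_j = 0` already, so `c_i = 0`.
* `lam_le`: with the API of helper71 (Pool/Agent/Helper71/SEYApi.lean) one has
  `r A + dim Z(A) = |A|` and `lam A + dim R(A) = r A` (`Z(A)`, `R(A)` the cycles, rows supported in
  `A`), so `lam A + dim Z(A) + dim R(A) = |A|`; independent families bound the dimensions.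
* `TC_two_le`: definition of `TC`.
* `TC_row_sep` (no parallel pair), `TC_cyc_sep` (no series pair), `TC_row_ne` (no loop),
  `TC_cyc_ne` (no coloop), `TC_row_card`, `TC_cyc_card`: in a 3-connected matroid a nonzero
  row or cycle `f` has at least three elements: otherwise for its support `A` (1 or 2 elements)
  `lam_le` gives `lam A + 1 <= |A|`, so `lam A <= |A| - 1`; if `|A| = 1` then `lam A = 0`, against
  `TC` (`|S| >= 4`); if `|A| = 2` then `lam A <= 1`, `|A| = 2`, `|S - A| >= 2`, against `TC`.  If all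
  rows agree on `x` and `y` then `ind {x, y}` is orthogonal to all rows, so it is a cycle with two
  elements.  If all cycles agree on `x`, `y` then `ind {x, y}` is in `(R^perp)^perp = R`
  (`BM.dual_dual`).  The cycle statements are the row statements for `M.dual` (`BM.TC.dual`).
-/

set_option autoImplicit false

namespace SEY

open Finset

variable {E : Type} [Fintype E] [DecidableEq E]

/-- Triangular families are linearly independent. -/
theorem linIndep_tri {m : ℕ} (v : Fin m → E → ZMod 2) (x : Fin m → E) (h1 : ∀ i, v i (x i) = 1)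
    (h0 : ∀ i j, j < i → v j (x i) = 0) : LinearIndependent (ZMod 2) v := by
  rw [Fintype.linearIndependent_iff]
  intro c hc
  -- strong induction from the top
  have key : ∀ k : ℕ, ∀ i : Fin m, m ≤ i.val + k → c i = 0 := by
    intro k
    induction k with
    | zero => intro i hi; exact absurd i.isLt (by omega)
    | succ k ih =>
      intro i hi
      have h2 := congrFun hc (x i)
      rw [Finset.sum_apply] at h2
      have h3 : ∑ j, (c j • v j) (x i) = c i := by
        rw [Finset.sum_eq_single i]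
        · simp [h1 i]
        · intro j _ hj
          rcases lt_or_gt_of_ne hj with hlt | hgt
          · simp [h0 i j hlt]
          · have : c j = 0 := ih j (by have := Fin.lt_def.1 hgt; omega)
            simp [this]
        · intro h; exact absurd (Finset.mem_univ i) h
      rw [h3] at h2
      simpa using h2
  intro i
  exact key m i (by omega)

omit [DecidableEq E] in
private theorem lv1_fin_le {m : ℕ} (v : Fin m → E → ZMod 2) (hv : LinearIndependent (ZMod 2) v)
    (p : Submodule (ZMod 2) (E → ZMod 2)) (hp : ∀ i, v i ∈ p) :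
    m ≤ Module.finrank (ZMod 2) p := by
  have h : LinearIndependent (ZMod 2) (fun i => (⟨v i, hp i⟩ : p)) := by
    apply LinearIndependent.of_comp p.subtype
    exact hv
  have := h.fintype_card_le_finrank
  simpa using this

/-- `lam A + (independent cycles inside A) + (independent rows inside A) ≤ |A|`. -/
theorem lam_le (M : BM E) (A : Finset E) (hA : A ⊆ M.S) {m n : ℕ} (z : Fin m → E → ZMod 2)
    (hz : ∀ i, z i ∈ M.Z) (hzA : ∀ i e, e ∉ A → z i e = 0) (hzi : LinearIndependent (ZMod 2) z)
    (g : Fin n → E → ZMod 2) (hg : ∀ i, g i ∈ M.R) (hgA : ∀ i e, e ∉ A → g i e = 0)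
    (hgi : LinearIndependent (ZMod 2) g) : M.lam A + m + n ≤ A.card := by
  have h1 : m ≤ M.dZ A := lv1_fin_le z hzi (M.ZIn A) (fun i => M.mem_ZIn.2 ⟨hz i, hzA i⟩)
  have h2 : n ≤ M.dR A := lv1_fin_le g hgi (M.RIn A) (fun i => M.mem_RIn.2 ⟨hg i, hgA i⟩)
  have h3 := M.r_add_dZ hA
  have h4 := M.lam_add_dR_eq_r A
  omega

theorem TC_two_le {M : BM E} (h : M.TC) {A : Finset E} (hA : A ⊆ M.S) (h2 : 2 ≤ A.card)
    (h2' : 2 ≤ (M.S \ A).card) : 2 ≤ M.lam A := by
  by_contra h3
  rcases h.of_lam_one hA (by omega) with h4 | h4 <;> omega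

theorem TC_row_card {M : BM E} (h : M.TC) {f : E → ZMod 2} (hf : f ∈ M.R) (h0 : f ≠ 0) :
    3 ≤ (univ.filter (fun e => f e ≠ 0)).card := h.row_weight hf h0

theorem TC_cyc_card {M : BM E} (h : M.TC) {z : E → ZMod 2} (hz : z ∈ M.Z) (h0 : z ≠ 0) :
    3 ≤ (univ.filter (fun e => z e ≠ 0)).card := h.cycle_weight hz h0

theorem TC_row_sep {M : BM E} (h : M.TC) {x y : E} (hx : x ∈ M.S) (hy : y ∈ M.S) (hxy : x ≠ y) :
    ∃ f ∈ M.R, f x ≠ f y := by
  obtain ⟨f, hf, h1, h2⟩ := h.exists_row_ne hx hy hxy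
  exact ⟨f, hf, by rw [h1, h2]; exact one_ne_zero⟩

theorem TC_cyc_sep {M : BM E} (h : M.TC) {x y : E} (hx : x ∈ M.S) (hy : y ∈ M.S) (hxy : x ≠ y) :
    ∃ z ∈ M.Z, z x ≠ z y := by
  obtain ⟨f, hf, h1, h2⟩ := h.exists_cycle_ne hx hy hxy
  exact ⟨f, hf, by rw [h1, h2]; exact one_ne_zero⟩

theorem TC_row_ne {M : BM E} (h : M.TC) {x : E} (hx : x ∈ M.S) : ∃ f ∈ M.R, f x = 1 :=
  h.exists_row hx

theorem TC_cyc_ne {M : BM E} (h : M.TC) {x : E} (hx : x ∈ M.S) : ∃ z ∈ M.Z, z x = 1 :=
  h.exists_cycle hx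

end SEY
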