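import Pool.Agent.Helper70.SEY.Chk
import Pool.Agent.Helper70.SEY.Tools

/-!
Outcomes O1 and O4.
-/

set_option autoImplicit false

namespace SEY

open Finset

variable {E : Type} [Fintype E] [DecidableEq E]

theorem O1_K4 (M : BM E) (hTC : M.TC) (hF : NoF M) (hG : ¬ Graphic M) (e : E) (he : e ∈ M.S)
    (h : IsIso (grRows K4e) (M.del {e})) : False := by
  obtain ⟨t, ht, hI⟩ := O1_lift K4e M e he (TC_cyc_ne hTC he) h
  rcases even4 t ht with ⟨u, v, huv⟩ | rfl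
  · exact hG (graft_graphic K4e t M hI u v huv)
  · exact hF.1 (HasMinor.of_cert good_F7 hI.hasMinor)

theorem O1_K33 (M : BM E) (hTC : M.TC) (hF : NoF M) (hG : ¬ Graphic M) (e : E) (he : e ∈ M.S)
    (h : IsIso (grRows K33e) (M.del {e})) : HasMinor R10 M := by
  obtain ⟨t, ht, hI⟩ := O1_lift K33e M e he (TC_cyc_ne hTC he) h
  rcases even6 t ht with ⟨u, v, huv⟩ | rfl | h7
  · exact absurd (graft_graphic K33e t M hI u v huv) hG
  · exact HasMinor.of_cert good_R10 hI.hasMinor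
  · exact absurd (HasMinor.of_cert h7 hI.hasMinor) hF.1

theorem O4_K4 (M : BM E) (f : Fin 6) (c d : Fin 4) (hcd : c ≠ d) (hc1 : c ≠ (K4e f).1)
    (hc2 : c ≠ (K4e f).2) (hd1 : d ≠ (K4e f).1) (hd2 : d ≠ (K4e f).2)
    (h : IsIso (O4rows K4e f c d) M) : HasMinor K33s M :=
  HasMinor.of_cert (good_K4 f c d hcd hc1 hc2 hd1 hd2) h.hasMinor

theorem O4_K33 (M : BM E) (hF : NoF M) (f : Fin 9) (c d : Fin 6) (hcd : c ≠ d)
    (hc1 : c ≠ (K33e f).1) (hc2 : c ≠ (K33e f).2) (hd1 : d ≠ (K33e f).1) (hd2 : d ≠ (K33e f).2)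
    (h : IsIso (O4rows K33e f c d) M) : HasMinor R12 M := by
  rcases good_K33 f c d hcd hc1 hc2 hd1 hd2 with h7 | h12
  · exact absurd (HasMinor.of_cert h7 h.hasMinor) hF.1
  · exact HasMinor.of_cert h12 h.hasMinor

end SEY
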