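import Pool.Agent.Helper70.SEY.TriLam
import Pool.Agent.Helper70.SEY.Guts

/-!
LV-6 (project SEY, block LEVEL): in outcome O2 (`TriT`) contracting `e` gives the grid `K33s` on
`{a i, b i, d i}`.

`|S - W7| >= 4`, so `exists_cycle_outside` (Link.lean) and `TriT_lam` give a cycle outside, and
`SEY.delta` for `W7` gives `d, C` with (D1)-(D4); `K = {f in R : f = 0 on C}`.  `guts` with
`P i = {a i, b i}`: `hP`: `sum_i (f (a i) + f (b i)) = f e + f e = 0` by `cyca`, `cycb`; `hPR`: `TriT_row`; `hPne`: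
`TC_row_sep`.  So there is an injective `sigma` with `f (d (sigma i)) = f (a i) + f (b i)` on `K`.
Put `phi = ![a 0, a 1, a 2, b 0, b 1, b 2, d (sigma 0), d (sigma 1), d (sigma 2)]`, `C` as it is.
(`C` avoids `W7`, in particular `e`, and `d i <> e`.)
Rows of `M.con {e}` = rows `f` of `M` with `f e = 0`.
Second condition: `f in K`, `f e = 0`, `x = f o phi`: `x0+x1+x2 = 0`, `x3+x4+x5 = 0`, `x6 = x0+x3`,
`x7 = x1+x4`, `x8 = x2+x5`: coefficients `![x 4, x 5, x 7, x 8]`.
First condition: let `y` be a row of `K33s` (or any `y` with these five relations).  Take by (D4) `f in K`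
with `f (d (sigma i)) = y_(6+i) = y_i + y_(3+i)`.  Put `c_i = f (a i) + y_i` and
`f' = f + sum_i c_i ind {e, a i, b i}`; then `f' (a i) = y_i`,
`f' (b i) = f (b i) + f (a i) + y_i = y_(3+i)`, the values on `C` and at the `d`'s are unchanged, and
`f' e = f' (a 0) + f' (a 1) + f' (a 2) = y_0 + y_1 + y_2 = 0` by `cyca`.
-/

set_option autoImplicit false

namespace SEY

open Finset

variable {E : Type} [Fintype E] [DecidableEq E]

namespace TriConAux

theorem key : ∀ a1 a2 b1 b2 : ZMod 2, ∀ j : Fin 9,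
    (![a1 + a2, a1, a2, b1 + b2, b1, b2, (a1 + a2) + (b1 + b2), a1 + b1, a2 + b2] :
      Fin 9 → ZMod 2) j = ∑ i, (![b1, b2, a1 + b1, a2 + b2] : Fin 4 → ZMod 2) i * K33s i j := by
  decide

theorem rel : ∀ i : Fin 4, K33s i 0 + K33s i 1 + K33s i 2 = 0 ∧
    K33s i 3 + K33s i 4 + K33s i 5 = 0 ∧ K33s i 6 = K33s i 0 + K33s i 3 ∧
    K33s i 7 = K33s i 1 + K33s i 4 ∧ K33s i 8 = K33s i 2 + K33s i 5 := by
  decide

theorem eq_add {x y z : ZMod 2} (h : x + y + z = 0) : x = y + z := by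
  revert x y z
  decide

theorem eq_three {w x y z : ZMod 2} (h : w + x + y + z = 0) (h' : w = 0) : x = y + z := by
  subst h'
  rw [zero_add] at h
  exact eq_add h

/-- nine distinct elements -/
theorem inj9 {α : Type} (a b c : Fin 3 → α) (ha : Function.Injective a)
    (hb : Function.Injective b) (hc : Function.Injective c) (hab : ∀ i j, a i ≠ b j)
    (hac : ∀ i j, a i ≠ c j) (hbc : ∀ i j, b i ≠ c j) :
    Function.Injective (![a 0, a 1, a 2, b 0, b 1, b 2, c 0, c 1, c 2] : Fin 9 → α) := by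
  have hψ : ∀ i : Fin 9, (![a 0, a 1, a 2, b 0, b 1, b 2, c 0, c 1, c 2] : Fin 9 → α) i =
      (![a, b, c] : Fin 3 → Fin 3 → α) ⟨i.1 / 3, by omega⟩ ⟨i.1 % 3, by omega⟩ := by
    intro i
    fin_cases i <;> rfl
  have h2 : ∀ p p' q q' : Fin 3, (![a, b, c] : Fin 3 → Fin 3 → α) p q =
      (![a, b, c] : Fin 3 → Fin 3 → α) p' q' → p = p' ∧ q = q' := by
    intro p p' q q' h
    fin_cases p <;> fin_cases p'
    · exact ⟨rfl, ha h⟩
    · exact absurd h (hab q q')
    · exact absurd h (hac q q')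
    · exact absurd h.symm (hab q' q)
    · exact ⟨rfl, hb h⟩
    · exact absurd h (hbc q q')
    · exact absurd h.symm (hac q' q)
    · exact absurd h.symm (hbc q' q)
    · exact ⟨rfl, hc h⟩
  intro i j hij
  rw [hψ i, hψ j] at hij
  obtain ⟨h3, h4⟩ := h2 _ _ _ _ hij
  have h5 : i.1 / 3 = j.1 / 3 := congrArg Fin.val h3
  have h6 : i.1 % 3 = j.1 % 3 := congrArg Fin.val h4
  apply Fin.ext
  omega

theorem all9 {α : Type} (a b c : Fin 3 → α) (P : α → Prop) (ha : ∀ i, P (a i))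
    (hb : ∀ i, P (b i)) (hc : ∀ i, P (c i)) (i : Fin 9) :
    P ((![a 0, a 1, a 2, b 0, b 1, b 2, c 0, c 1, c 2] : Fin 9 → α) i) := by
  fin_cases i
  · exact ha 0
  · exact ha 1
  · exact ha 2
  · exact hb 0
  · exact hb 1
  · exact hb 2
  · exact hc 0
  · exact hc 1
  · exact hc 2

end TriConAux

open TriConAux TriLamAux

theorem TriT_grid {r k : ℕ} (rows : Fin r → Fin k → ZMod 2) (M : BM E) (h : M.TC) (e : E)
    (a b : Fin 3 → E) (hT : TriT rows M e a b) (hc : 11 ≤ M.S.card) :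
    ∃ (d : Fin 3 → E) (C : Finset E),
      let φ : Fin 9 → E := ![a 0, a 1, a 2, b 0, b 1, b 2, d 0, d 1, d 2]
      Function.Injective φ ∧ (∀ i, φ i ∈ (M.con {e}).S) ∧ C ⊆ (M.con {e}).S ∧
        (∀ i, φ i ∉ C) ∧
        (∀ i, ∃ f ∈ (M.con {e}).R, (∀ c ∈ C, f c = 0) ∧ ∀ j, f (φ j) = K33s i j) ∧
        (∀ f ∈ (M.con {e}).R, (∀ c ∈ C, f c = 0) →
          ∃ c : Fin 4 → ZMod 2, ∀ j, f (φ j) = ∑ i, c i * K33s i j) := by
  obtain ⟨ia, ib, hab, hea, heb⟩ := hT.inj
  have hWS := W7_sub hT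
  have hWc := W7_card hT
  have hlam : M.lam (W7 e a b) = 2 := TriT_lam rows M h e a b hT (by omega)
  have hout : 4 ≤ (M.S \ W7 e a b).card := by
    have := Finset.card_sdiff_add_card_eq_card hWS
    omega
  obtain ⟨d, C, hdi, hdS, hCS, hCW, hd1, hd2, hd3, hd4⟩ :=
    delta M h (W7 e a b) hWS hlam (exists_cycle_outside M h (W7 e a b) hWS hlam hout)
  have haW : ∀ i, a i ∈ W7 e a b := fun i => mem_W7.2 (Or.inr (Or.inl ⟨i, rfl⟩))
  have hbW : ∀ i, b i ∈ W7 e a b := fun i => mem_W7.2 (Or.inr (Or.inr ⟨i, rfl⟩))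
  have heW : e ∈ W7 e a b := mem_W7.2 (Or.inl rfl)
  have hsum : ∀ (f : E → ZMod 2) i, ∑ x ∈ ({a i, b i} : Finset E), f x = f (a i) + f (b i) :=
    fun f i => Finset.sum_pair (hab i i)
  obtain ⟨σ, hσ, hσd⟩ := guts M (W7 e a b) C d hd1 hd2 hd3 hd4 (fun i => {a i, b i})
    (by
      intro i x hx
      simp only [Finset.mem_insert, Finset.mem_singleton] at hx
      rcases hx with rfl | rfl
      · exact haW i
      · exact hbW i)
    (by
      intro f hf
      simp only [hsum]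
      linear_combination (hT.cyca f hf) + (hT.cycb f hf) - z_add_self (f e))
    (by
      intro g hg hg0 i
      simp only [hsum]
      rw [TriT_row rows M h e a b hT (by omega) g hg hg0 i]
      exact z_add_self _)
    (by
      intro i
      obtain ⟨f, hf, hne⟩ := TC_row_sep h (hT.mem.2.1 i) (hT.mem.2.2 i) (hab i i)
      refine ⟨f, hf, ?_⟩
      simp only [hsum]
      intro h0
      exact hne (z_add_eq_zero.1 h0))
  have hD : ∀ f ∈ M.R, (∀ c ∈ C, f c = 0) → ∀ i, f (d (σ i)) = f (a i) + f (b i) := by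
    intro f hf hfC i
    rw [hσd f hf hfC i]
    exact hsum f i
  have hdW : ∀ i, d i ∉ W7 e a b := fun i => (hdS i).2.1
  refine ⟨fun i => d (σ i), C, ?_⟩
  intro φ
  have hφinj : Function.Injective φ :=
    inj9 a b (fun i => d (σ i)) ia ib (fun i j hij => hσ (hdi hij)) hab
      (fun i j hij => hdW (σ j) (hij ▸ haW i)) (fun i j hij => hdW (σ j) (hij ▸ hbW i))
  refine ⟨hφinj, ?_, ?_, ?_, ?_, ?_⟩
  · refine all9 a b (fun i => d (σ i)) (fun x => x ∈ (M.con {e}).S) ?_ ?_ ?_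
    · intro i
      exact Finset.mem_sdiff.2 ⟨hT.mem.2.1 i, by
        rw [Finset.mem_singleton]; exact (hea i).symm⟩
    · intro i
      exact Finset.mem_sdiff.2 ⟨hT.mem.2.2 i, by
        rw [Finset.mem_singleton]; exact (heb i).symm⟩
    · intro i
      refine Finset.mem_sdiff.2 ⟨(hdS (σ i)).1, ?_⟩
      rw [Finset.mem_singleton]
      intro h0
      exact hdW (σ i) (h0 ▸ heW)
  · intro x hx
    refine Finset.mem_sdiff.2 ⟨hCS hx, ?_⟩
    rw [Finset.mem_singleton]
    rintro rfl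
    exact Finset.disjoint_left.1 hCW hx heW
  · exact all9 a b (fun i => d (σ i)) (fun x => x ∉ C)
      (fun i hi => Finset.disjoint_left.1 hCW hi (haW i))
      (fun i hi => Finset.disjoint_left.1 hCW hi (hbW i)) (fun i => (hdS (σ i)).2.2)
  · intro i0
    obtain ⟨r1, r2, r3, r4, r5⟩ := rel i0
    obtain ⟨y, hy⟩ : ∃ y : Fin 9 → ZMod 2, y = K33s i0 := ⟨_, rfl⟩
    rw [← hy] at r1 r2 r3 r4 r5 ⊢
    obtain ⟨yA, hyA⟩ : ∃ yA : Fin 3 → ZMod 2, yA = ![y 0, y 1, y 2] := ⟨_, rfl⟩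
    obtain ⟨yB, hyB⟩ : ∃ yB : Fin 3 → ZMod 2, yB = ![y 3, y 4, y 5] := ⟨_, rfl⟩
    have hs0 : ∑ i, (yA i + yB i) = 0 := by
      rw [Fin.sum_univ_three, hyA, hyB]
      simp only [Matrix.cons_val_zero, Matrix.cons_val_one, Matrix.cons_val]
      linear_combination r1 + r2
    obtain ⟨p, hp⟩ : ∃ p : Fin 3 → ZMod 2, ∀ i, p (σ i) = yA i + yB i := by
      refine ⟨fun j => (fun i => yA i + yB i)
        ((Equiv.ofBijective σ (Finite.injective_iff_bijective.1 hσ)).symm j), fun i => ?_⟩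
      have h1 : (Equiv.ofBijective σ (Finite.injective_iff_bijective.1 hσ)).symm (σ i) = i := by
        rw [Equiv.symm_apply_eq]
        rfl
      simp only [h1]
    have hp0 : p 0 + p 1 + p 2 = 0 := by
      rw [← Fin.sum_univ_three, ← hs0]
      have h1 := Equiv.sum_comp (Equiv.ofBijective σ (Finite.injective_iff_bijective.1 hσ)) p
      rw [← h1]
      exact Finset.sum_congr rfl fun i _ => hp i
    obtain ⟨f, hf, hfC, hfd⟩ := hd4 p hp0
    have hfab : ∀ i, f (a i) + f (b i) = yA i + yB i := by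
      intro i
      rw [← hD f hf hfC i, hfd, hp]
    obtain ⟨f', hf'⟩ : ∃ f' : E → ZMod 2, f' = f + ∑ i, (f (a i) + yA i) •
        (ind {e, a i, b i} : E → ZMod 2) := ⟨_, rfl⟩
    have hf'R : f' ∈ M.R := by
      rw [hf']
      exact M.R.add_mem hf (M.R.sum_mem fun i _ => M.R.smul_mem _ (hT.row i))
    have hf'a : ∀ j, f' (a j) = yA j := by
      intro j
      rw [hf']
      simp only [Pi.add_apply, Finset.sum_apply, Pi.smul_apply, smul_eq_mul, q_a hT, mul_ite,
        mul_one, mul_zero, Finset.sum_ite_eq, Finset.mem_univ, if_true]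
      linear_combination z_add_self (f (a j))
    have hf'b : ∀ j, f' (b j) = yB j := by
      intro j
      rw [hf']
      simp only [Pi.add_apply, Finset.sum_apply, Pi.smul_apply, smul_eq_mul, q_b hT, mul_ite,
        mul_one, mul_zero, Finset.sum_ite_eq, Finset.mem_univ, if_true]
      linear_combination hfab j + z_add_self (yA j)
    have hf'o : ∀ x, x ∉ W7 e a b → f' x = f x := by
      intro x hx
      rw [hf']
      simp only [Pi.add_apply, Finset.sum_apply, Pi.smul_apply, smul_eq_mul, q_out _ hx,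
        mul_zero, Finset.sum_const_zero, add_zero]
    have hf'C : ∀ c ∈ C, f' c = 0 := by
      intro c hc'
      rw [hf'o c (fun hcW => Finset.disjoint_left.1 hCW hc' hcW)]
      exact hfC c hc'
    have hf'e : f' e = 0 := by
      have h1 := hT.cyca f' hf'R
      rw [hf'a, hf'a, hf'a, hyA] at h1
      simp only [Matrix.cons_val_zero, Matrix.cons_val_one, Matrix.cons_val] at h1
      linear_combination h1 - r1
    refine ⟨f', ⟨hf'R, fun x hx => ?_⟩, hf'C, ?_⟩
    · rw [Finset.mem_singleton.1 hx]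
      exact hf'e
    · have hdd : ∀ i, f' (d (σ i)) = yA i + yB i := by
        intro i
        rw [hf'o _ (hdW (σ i)), hfd, hp]
      intro j
      fin_cases j
      · exact (hf'a 0).trans (by rw [hyA]; rfl)
      · exact (hf'a 1).trans (by rw [hyA]; rfl)
      · exact (hf'a 2).trans (by rw [hyA]; rfl)
      · exact (hf'b 0).trans (by rw [hyB]; rfl)
      · exact (hf'b 1).trans (by rw [hyB]; rfl)
      · exact (hf'b 2).trans (by rw [hyB]; rfl)
      · exact (hdd 0).trans (by rw [hyA, hyB]; exact r3.symm)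
      · exact (hdd 1).trans (by rw [hyA, hyB]; exact r4.symm)
      · exact (hdd 2).trans (by rw [hyA, hyB]; exact r5.symm)
  · rintro f ⟨hf, hfe⟩ hfC
    have he0 : f e = 0 := hfe e (Finset.mem_singleton_self e)
    have h1 : f (a 0) = f (a 1) + f (a 2) := eq_three (hT.cyca f hf) he0
    have h2 : f (b 0) = f (b 1) + f (b 2) := eq_three (hT.cycb f hf) he0
    refine ⟨![f (b 1), f (b 2), f (a 1) + f (b 1), f (a 2) + f (b 2)], fun j => ?_⟩
    rw [← key (f (a 1)) (f (a 2)) (f (b 1)) (f (b 2)) j]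
    fin_cases j
    · exact h1
    · rfl
    · rfl
    · exact h2
    · rfl
    · rfl
    · exact (hD f hf hfC 0).trans (by rw [h1, h2]; rfl)
    · exact hD f hf hfC 1
    · exact hD f hf hfC 2

theorem TriT_con_K33s {r k : ℕ} (rows : Fin r → Fin k → ZMod 2) (M : BM E) (h : M.TC) (e : E)
    (a b : Fin 3 → E) (hT : TriT rows M e a b) (hc : 11 ≤ M.S.card) :
    HasMinor K33s (M.con {e}) := by
  obtain ⟨d, C, h1⟩ := TriT_grid rows M h e a b hT hc
  exact ⟨_, C, h1⟩

end SEY
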