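import Pool.Agent.Helper25.SEY.T3
import Pool.Agent.Helper70.SEY.Tools
import Pool.Agent.Helper71.SEYApi

/-!
LV-4a (project SEY, block LEVEL): outcome O2 (`TriT`), connectivity, rows and cycles inside `W7`.

`W7 = {e, a i, b i}` (7 elements, distinct by `hT.inj`).  Cycles `zA = ind {e, a 0, a 1, a 2}`,
`zB = ind {e, b 0, b 1, b 2}` (orthogonal to all rows by `cyca`, `cycb`), rows `q_i = ind {e, a i, b i}`.
* `TriT_lam`: `lam >= 2` by `TC_two_le` (`|S - W7| >= 2`); `lam_le` with the cycles `zA, zB` and the rows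
  `q_0, q_1, q_2` (independent, `linIndep_tri`) gives `lam + 2 + 3 <= 7`.
* `TriT_cyc`: a cycle `z` supported in `W7` has `z (a i) = z (a j)`: otherwise `z, zA, zB` are
  independent (`z -> z (a i) + z (a j)` vanishes on `zA, zB`) and `lam_le` gives `lam + 3 + 3 <= 7`, so
  `lam <= 1`, against `TC_two_le`.
* `TriT_row`: a row `g` supported in `W7` has `g (a i) = g (b i)`: otherwise `g, q_0, q_1, q_2` are
  independent (`g -> g (a i) + g (b i)` vanishes on the `q`'s) and `lam_le` gives `lam + 2 + 4 <= 7`.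
-/

set_option autoImplicit false

namespace SEY

open Finset

variable {E : Type} [Fintype E] [DecidableEq E]

/-- The seven elements of outcome O2. -/
def W7 (e : E) (a b : Fin 3 → E) : Finset E := insert e (univ.image a ∪ univ.image b)

namespace TriLamAux

variable {r k : ℕ} {rows : Fin r → Fin k → ZMod 2} {M : BM E} {e : E} {a b : Fin 3 → E}

omit [Fintype E] in
theorem mem_W7 {x : E} : x ∈ W7 e a b ↔ x = e ∨ (∃ i, a i = x) ∨ ∃ i, b i = x := by
  simp [W7]

theorem W7_sub (hT : TriT rows M e a b) : W7 e a b ⊆ M.S := by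
  intro x hx
  rcases mem_W7.1 hx with rfl | ⟨i, rfl⟩ | ⟨i, rfl⟩
  · exact hT.mem.1
  · exact hT.mem.2.1 i
  · exact hT.mem.2.2 i

theorem W7_card (hT : TriT rows M e a b) : (W7 e a b).card = 7 := by
  obtain ⟨ia, ib, hab, hea, heb⟩ := hT.inj
  have h1 : e ∉ (univ.image a ∪ univ.image b) := by
    simp only [Finset.mem_union, Finset.mem_image, Finset.mem_univ, true_and, not_or, not_exists]
    exact ⟨fun i h => hea i h.symm, fun i h => heb i h.symm⟩
  have h2 : Disjoint (univ.image a) (univ.image b) := by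
    rw [Finset.disjoint_left]
    intro x hx hx'
    simp only [Finset.mem_image, Finset.mem_univ, true_and] at hx hx'
    obtain ⟨i, rfl⟩ := hx
    obtain ⟨j, hj⟩ := hx'
    exact hab i j hj.symm
  unfold W7
  rw [Finset.card_insert_of_notMem h1, Finset.card_union_of_disjoint h2,
    Finset.card_image_of_injective _ ia, Finset.card_image_of_injective _ ib]
  simp

theorem two_le (hT : TriT rows M e a b) (h : M.TC) (hc : 9 ≤ M.S.card) :
    2 ≤ M.lam (W7 e a b) := by
  have h1 := W7_card hT
  have h2 := Finset.card_sdiff_add_card_eq_card (W7_sub hT)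
  exact TC_two_le h (W7_sub hT) (by omega) (by omega)

/-- The cycles. -/
def zc (e : E) (a : Fin 3 → E) : E → ZMod 2 := ind {e, a 0, a 1, a 2}

omit [Fintype E] in
theorem zc_self (i : Fin 3) : zc e a (a i) = 1 := by
  unfold zc
  apply ind_of_mem
  fin_cases i <;> simp

omit [Fintype E] in
theorem zc_ne {x : E} (h : x ≠ e) (h' : ∀ i, x ≠ a i) : zc e a x = 0 := by
  unfold zc
  apply ind_of_notMem
  simp [h, h']

theorem zc_mem (he : e ∈ M.S) (ha : ∀ i, a i ∈ M.S) (ia : Function.Injective a)
    (hea : ∀ i, e ≠ a i) (hcyc : ∀ f ∈ M.R, f e + f (a 0) + f (a 1) + f (a 2) = 0) :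
    zc e a ∈ M.Z := by
  refine ⟨fun x hx => ?_, fun f hf => ?_⟩
  · apply zc_ne
    · rintro rfl
      exact hx he
    · rintro i rfl
      exact hx (ha i)
  · unfold zc
    rw [dot_ind]
    have h01 : a 0 ≠ a 1 := fun h => absurd (ia h) (by decide)
    have h02 : a 0 ≠ a 2 := fun h => absurd (ia h) (by decide)
    have h12 : a 1 ≠ a 2 := fun h => absurd (ia h) (by decide)
    rw [Finset.sum_insert (by simp [hea]), Finset.sum_insert (by simp [h01, h02]),
      Finset.sum_insert (by simp [h12]), Finset.sum_singleton, ← hcyc f hf]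
    ring

theorem zA_mem (hT : TriT rows M e a b) : zc e a ∈ M.Z :=
  zc_mem hT.mem.1 hT.mem.2.1 hT.inj.1 hT.inj.2.2.2.1 hT.cyca

theorem zB_mem (hT : TriT rows M e a b) : zc e b ∈ M.Z :=
  zc_mem hT.mem.1 hT.mem.2.2 hT.inj.2.1 hT.inj.2.2.2.2 hT.cycb

omit [Fintype E] in
theorem zA_out {x : E} (hx : x ∉ W7 e a b) : zc e a x = 0 :=
  zc_ne (fun h => hx (mem_W7.2 (Or.inl h))) fun i h => hx (mem_W7.2 (Or.inr (Or.inl ⟨i, h.symm⟩)))

omit [Fintype E] in
theorem zB_out {x : E} (hx : x ∉ W7 e a b) : zc e b x = 0 :=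
  zc_ne (fun h => hx (mem_W7.2 (Or.inl h))) fun i h => hx (mem_W7.2 (Or.inr (Or.inr ⟨i, h.symm⟩)))

omit [Fintype E] in
theorem q_out (i : Fin 3) {x : E} (hx : x ∉ W7 e a b) : ind {e, a i, b i} x = 0 := by
  apply ind_of_notMem
  simp only [Finset.mem_insert, Finset.mem_singleton, not_or]
  exact ⟨fun h => hx (mem_W7.2 (Or.inl h)), fun h => hx (mem_W7.2 (Or.inr (Or.inl ⟨i, h.symm⟩))),
    fun h => hx (mem_W7.2 (Or.inr (Or.inr ⟨i, h.symm⟩)))⟩

theorem q_a (hT : TriT rows M e a b) (i j : Fin 3) :
    ind {e, a i, b i} (a j) = if j = i then 1 else 0 := by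
  obtain ⟨ia, ib, hab, hea, heb⟩ := hT.inj
  by_cases h : j = i
  · subst h
    rw [if_pos rfl]
    exact ind_of_mem (by simp)
  · rw [if_neg h]
    apply ind_of_notMem
    simp only [Finset.mem_insert, Finset.mem_singleton, not_or]
    exact ⟨(hea j).symm, fun h' => h (ia h'), hab j i⟩

theorem q_b (hT : TriT rows M e a b) (i j : Fin 3) :
    ind {e, a i, b i} (b j) = if j = i then 1 else 0 := by
  obtain ⟨ia, ib, hab, hea, heb⟩ := hT.inj
  by_cases h : j = i
  · subst h
    rw [if_pos rfl]
    exact ind_of_mem (by simp)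
  · rw [if_neg h]
    apply ind_of_notMem
    simp only [Finset.mem_insert, Finset.mem_singleton, not_or]
    exact ⟨(heb j).symm, (hab i j).symm, fun h' => h (ib h')⟩

theorem q_li (hT : TriT rows M e a b) :
    LinearIndependent (ZMod 2) (fun i : Fin 3 => (ind {e, a i, b i} : E → ZMod 2)) := by
  refine linIndep_tri _ a (fun i => ?_) (fun i j hij => ?_)
  · rw [q_a hT, if_pos rfl]
  · rw [q_a hT, if_neg (ne_of_gt hij)]

theorem zA_b (hT : TriT rows M e a b) (i : Fin 3) : zc e a (b i) = 0 :=
  zc_ne (hT.inj.2.2.2.2 i).symm fun j h => hT.inj.2.2.1 j i h.symm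

theorem zB_a (hT : TriT rows M e a b) (i : Fin 3) : zc e b (a i) = 0 :=
  zc_ne (hT.inj.2.2.2.1 i).symm fun j h => hT.inj.2.2.1 i j h

theorem z_li (hT : TriT rows M e a b) :
    LinearIndependent (ZMod 2) (![zc e a, zc e b] : Fin 2 → E → ZMod 2) := by
  refine linIndep_tri _ ![a 0, b 0] (fun i => ?_) (fun i j hij => ?_)
  · fin_cases i
    · exact zc_self 0
    · exact zc_self 0
  · fin_cases i <;> fin_cases j
    · exact absurd hij (by decide)
    · exact absurd hij (by decide)
    · exact zA_b hT 0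
    · exact absurd hij (by decide)

end TriLamAux

open TriLamAux

theorem TriT_lam {r k : ℕ} (rows : Fin r → Fin k → ZMod 2) (M : BM E) (h : M.TC) (e : E)
    (a b : Fin 3 → E) (hT : TriT rows M e a b) (hc : 9 ≤ M.S.card) : M.lam (W7 e a b) = 2 := by
  have h2 := two_le hT h hc
  have h3 := lam_le M (W7 e a b) (W7_sub hT) ![zc e a, zc e b]
    (by
      intro i
      fin_cases i
      · exact zA_mem hT
      · exact zB_mem hT)
    (by
      intro i x hx
      fin_cases i
      · exact zA_out hx
      · exact zB_out hx)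
    (z_li hT) (fun i : Fin 3 => (ind {e, a i, b i} : E → ZMod 2)) (fun i => hT.row i)
    (fun i x hx => q_out i hx) (q_li hT)
  rw [W7_card hT] at h3
  omega

theorem TriT_cyc {r k : ℕ} (rows : Fin r → Fin k → ZMod 2) (M : BM E) (h : M.TC) (e : E)
    (a b : Fin 3 → E) (hT : TriT rows M e a b) (hc : 9 ≤ M.S.card) (z : E → ZMod 2)
    (hz : z ∈ M.Z) (hz0 : ∀ x, x ∉ W7 e a b → z x = 0) (i j : Fin 3) : z (a i) = z (a j) := by
  by_contra hne
  have hij : z (a i) + z (a j) = 1 := by
    rcases zcases (z (a i)) with h1 | h1 <;> rcases zcases (z (a j)) with h2 | h2 <;>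
      rw [h1, h2] at hne ⊢
    · exact absurd rfl hne
    · decide
    · decide
    · exact absurd rfl hne
  set w : E → ZMod 2 := z + z (a j) • zc e a + z (b 0) • zc e b with hw
  have hwZ : w ∈ M.Z := M.Z.add_mem (M.Z.add_mem hz (M.Z.smul_mem _ (zA_mem hT)))
    (M.Z.smul_mem _ (zB_mem hT))
  have hw0 : ∀ x, x ∉ W7 e a b → w x = 0 := by
    intro x hx
    simp [hw, hz0 x hx, zA_out hx, zB_out hx]
  have hwi : w (a i) = 1 := by
    simp [hw, zc_self, zB_a hT, hij]
  have hwj : w (a j) = 0 := by
    simp [hw, zc_self, zB_a hT, z_add_self]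
  have hwb : w (b 0) = 0 := by
    simp [hw, zc_self, zA_b hT, z_add_self]
  have hli : LinearIndependent (ZMod 2) (![w, zc e a, zc e b] : Fin 3 → E → ZMod 2) := by
    refine linIndep_tri _ ![a i, a j, b 0] (fun l => ?_) (fun l l' hl => ?_)
    · fin_cases l
      · exact hwi
      · exact zc_self j
      · exact zc_self 0
    · fin_cases l <;> fin_cases l'
      · exact absurd hl (by decide)
      · exact absurd hl (by decide)
      · exact absurd hl (by decide)
      · exact hwj
      · exact absurd hl (by decide)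
      · exact absurd hl (by decide)
      · exact hwb
      · exact zA_b hT 0
      · exact absurd hl (by decide)
  have h2 := two_le hT h hc
  have h3 := lam_le M (W7 e a b) (W7_sub hT) ![w, zc e a, zc e b]
    (by
      intro l
      fin_cases l
      · exact hwZ
      · exact zA_mem hT
      · exact zB_mem hT)
    (by
      intro l x hx
      fin_cases l
      · exact hw0 x hx
      · exact zA_out hx
      · exact zB_out hx)
    hli (fun i : Fin 3 => (ind {e, a i, b i} : E → ZMod 2)) (fun i => hT.row i)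
    (fun i x hx => q_out i hx) (q_li hT)
  rw [W7_card hT] at h3
  omega

theorem TriT_row {r k : ℕ} (rows : Fin r → Fin k → ZMod 2) (M : BM E) (h : M.TC) (e : E)
    (a b : Fin 3 → E) (hT : TriT rows M e a b) (hc : 9 ≤ M.S.card) (g : E → ZMod 2)
    (hg : g ∈ M.R) (hg0 : ∀ x, x ∉ W7 e a b → g x = 0) (i : Fin 3) : g (a i) = g (b i) := by
  by_contra hne
  have hij : g (b i) + g (a i) = 1 := by
    rcases zcases (g (a i)) with h1 | h1 <;> rcases zcases (g (b i)) with h2 | h2 <;>
      rw [h1, h2] at hne ⊢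
    · exact absurd rfl hne
    · decide
    · decide
    · exact absurd rfl hne
  set q : Fin 3 → E → ZMod 2 := fun l => ind {e, a l, b l} with hq
  set w : E → ZMod 2 := g + ∑ l, g (a l) • q l with hw
  have hwR : w ∈ M.R := M.R.add_mem hg
    (M.R.sum_mem fun l _ => M.R.smul_mem _ (hT.row l))
  have hw0 : ∀ x, x ∉ W7 e a b → w x = 0 := by
    intro x hx
    simp only [hw, hq, Pi.add_apply, Finset.sum_apply, Pi.smul_apply, smul_eq_mul,
      q_out _ hx, hg0 x hx, mul_zero, Finset.sum_const_zero, add_zero]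
  have hwa : ∀ l, w (a l) = 0 := by
    intro l
    simp only [hw, hq, Pi.add_apply, Finset.sum_apply, Pi.smul_apply, smul_eq_mul, q_a hT]
    simp [z_add_self]
  have hwb : w (b i) = 1 := by
    simp only [hw, hq, Pi.add_apply, Finset.sum_apply, Pi.smul_apply, smul_eq_mul, q_b hT]
    simp [hij]
  have hli : LinearIndependent (ZMod 2) (Fin.cons w q : Fin 4 → E → ZMod 2) := by
    refine linIndep_tri _ (Fin.cons (b i) a) (fun l => ?_) (fun l l' hl => ?_)
    · refine Fin.cases ?_ (fun l => ?_) l
      · simpa using hwb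
      · simp only [Fin.cons_succ]
        simp only [hq, q_a hT, if_true]
    · revert hl
      refine Fin.cases ?_ (fun l => ?_) l
      · intro hl
        exact absurd hl (by simp)
      · refine Fin.cases ?_ (fun l' => ?_) l'
        · intro _
          simpa using hwa l
        · intro hl
          simp only [Fin.cons_succ]
          simp only [hq, q_a hT]
          rw [if_neg]
          exact ne_of_gt (Fin.succ_lt_succ_iff.1 hl)
  have h2 := two_le hT h hc
  have h3 := lam_le M (W7 e a b) (W7_sub hT) ![zc e a, zc e b]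
    (by
      intro l
      fin_cases l
      · exact zA_mem hT
      · exact zB_mem hT)
    (by
      intro l x hx
      fin_cases l
      · exact zA_out hx
      · exact zB_out hx)
    (z_li hT) (Fin.cons w q : Fin 4 → E → ZMod 2)
    (by
      intro l
      refine Fin.cases ?_ (fun l => ?_) l
      · simpa using hwR
      · simpa [hq] using hT.row l)
    (by
      intro l x hx
      refine Fin.cases ?_ (fun l => ?_) l
      · simpa using hw0 x hx
      · simp only [Fin.cons_succ]
        exact q_out l hx) hli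
  rw [W7_card hT] at h3
  omega

end SEY
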