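import Pool.Agent.Helper70.SEY.TriLam
import Pool.Agent.Helper71.SEYApi2

/-!
LV-4b (project SEY, block LEVEL): outcome O2 (`TriT`) for `K4`: a nonzero row vanishing on `W7`.

`M0 = (M.del {e}).con {b 0, b 1, b 2}` has ground set `S - {e, b i}`, `HasT K4 M0` gives `A` in `M0.S` and
`pi` onto `Fin 6`, so `|M0.S| >= 6`, `|S| >= 10`.
If `|S - W7| >= 4` use `exists_cycle_outside` (Link.lean) for `M.dual` (`M.dual` is TC, `lam` is self-dual,
`M.dual.Z = R`) and `TriT_lam`.
Otherwise `|S| = 10`, `|M0.S| = 6`, `A = M0.S` and `pi` is a bijection from `M0.S` to `Fin 6`.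
`ind {a 0, a 1, a 2}` is a cycle of `M0` (a row `f` of `M0` comes from `f'` in `R`, `f' (b i) = 0`, `f' = f` off
`e`; `cycb` gives `f' e = 0`, `cyca` gives `f (a 0) + f (a 1) + f (a 2) = 0`), so by `Sub` there is
`w : Fin 6 -> ZMod 2` orthogonal to the rows of `K4` with `w (pi x) = 1` exactly for `x = a i` (`x` in
`M0.S`); `w` has weight 3.  Finite check (decide on `Fin 6 -> ZMod 2`, 64 vectors): for each `w` of
weight 3 orthogonal to the rows of `K4`, the complement `1 - w` is orthogonal to all `w'` which are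
orthogonal to the rows of `K4`.  So `f0 = ind (M0.S - {a i})` is orthogonal to all cycles of `M0` (by
`Sub`), so it is a row of `M0` (`BM.dual_dual`), so it comes from a row `f'` of `M` with `f' (b i) = 0`,
`f' = f0` off `e`, and `f' e = f'(a 0) + f'(a 1) + f'(a 2) = 0` by `cyca`.  `f' <> 0` (three elements).
API of helper71: Pool/Agent/Helper71/SEYApi.lean.
-/

set_option autoImplicit false

namespace SEY

open Finset

variable {E : Type} [Fintype E] [DecidableEq E]

theorem triOut_par {w : Fin 6 → ZMod 2} (h : ∀ i, ∑ j, K4 i j * w j = 0) :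
    w 2 = w 0 + w 1 ∧ w 4 = w 0 + w 3 ∧ w 5 = w 1 + w 3 := by
  have h0 := h 0
  have h1 := h 1
  have h2 := h 2
  simp [K4, grRows, K4e, Fin.sum_univ_succ] at h0 h1 h2
  revert h0 h1 h2
  generalize w 0 = x0
  generalize w 1 = x1
  generalize w 2 = x2
  generalize w 3 = x3
  generalize w 4 = x4
  generalize w 5 = x5
  revert x0 x1 x2 x3 x4 x5
  decide

theorem triOut_check {w w' : Fin 6 → ZMod 2} (h : ∀ i, ∑ j, K4 i j * w j = 0)
    (h1 : ∑ j, w j = 1) (h' : ∀ i, ∑ j, K4 i j * w' j = 0) : ∑ j, (1 + w j) * w' j = 0 := by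
  obtain ⟨a2, a4, a5⟩ := triOut_par h
  obtain ⟨b2, b4, b5⟩ := triOut_par h'
  have e1 : ∑ j, w j = w 0 + w 1 + w 2 + w 3 + w 4 + w 5 := Fin.sum_univ_six _
  have e2 : ∑ j, (1 + w j) * w' j = (1 + w 0) * w' 0 + (1 + w 1) * w' 1 + (1 + w 2) * w' 2 +
      (1 + w 3) * w' 3 + (1 + w 4) * w' 4 + (1 + w 5) * w' 5 := Fin.sum_univ_six _
  rw [e1, a2, a4, a5] at h1
  rw [e2, a2, a4, a5, b2, b4, b5]
  revert h1
  generalize w 0 = x0
  generalize w 1 = x1
  generalize w 3 = x3
  generalize w' 0 = y0
  generalize w' 1 = y1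
  generalize w' 3 = y3
  revert x0 x1 x3 y0 y1 y3
  decide

theorem triOut_card {e : E} {a b : Fin 3 → E} (hai : Function.Injective a)
    (hbi : Function.Injective b) (hab : ∀ i j, a i ≠ b j) (hea : ∀ i, e ≠ a i)
    (heb : ∀ i, e ≠ b i) : (W7 e a b).card = 7 := by
  unfold W7
  rw [card_insert_of_notMem, card_union_of_disjoint, card_image_of_injective _ hai,
    card_image_of_injective _ hbi]
  · simp
  · rw [disjoint_left]
    intro x hx hx'
    rw [mem_image] at hx hx'
    obtain ⟨i, -, rfl⟩ := hx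
    obtain ⟨j, -, hj⟩ := hx'
    exact hab i j hj.symm
  · intro hx
    rw [mem_union, mem_image, mem_image] at hx
    rcases hx with ⟨i, -, hi⟩ | ⟨i, -, hi⟩
    · exact hea i hi.symm
    · exact heb i hi.symm

theorem TriT_outside (M : BM E) (h : M.TC) (e : E) (a b : Fin 3 → E)
    (hT : TriT K4 M e a b) : ∃ f ∈ M.R, f ≠ 0 ∧ ∀ x ∈ W7 e a b, f x = 0 := by
  obtain ⟨heS, haS, hbS⟩ := hT.mem
  obtain ⟨hai, hbi, hab, hea, heb⟩ := hT.inj
  obtain ⟨A, π, hAS, hsurj, hsub⟩ := hT.hasT
  have hW : W7 e a b ⊆ M.S := by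
    intro x hx
    simp only [W7, mem_insert, mem_union, mem_image, mem_univ, true_and] at hx
    rcases hx with rfl | ⟨i, rfl⟩ | ⟨i, rfl⟩
    · exact heS
    · exact haS i
    · exact hbS i
  have hWc := triOut_card hai hbi hab hea heb
  have hS0 : ∀ x, x ∈ (((M.del {e}).con {b 0, b 1, b 2}).S) ↔
      x ∈ M.S ∧ x ≠ e ∧ x ≠ b 0 ∧ x ≠ b 1 ∧ x ≠ b 2 := by
    intro x
    simp only [BM.con_S, BM.del_S, mem_sdiff, mem_singleton, mem_insert, not_or]
    tauto
  have h4 : ({e, b 0, b 1, b 2} : Finset E).card = 4 := by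
    rw [card_insert_of_notMem, card_insert_of_notMem, card_insert_of_notMem, card_singleton]
    · rw [mem_singleton]
      exact fun h1 => absurd (hbi h1) (by decide)
    · simp only [mem_insert, mem_singleton, not_or]
      exact ⟨fun h1 => absurd (hbi h1) (by decide), fun h1 => absurd (hbi h1) (by decide)⟩
    · simp only [mem_insert, mem_singleton, not_or]
      exact ⟨heb 0, heb 1, heb 2⟩
  have hS0c : (((M.del {e}).con {b 0, b 1, b 2}).S).card + 4 = M.S.card := by
    have h1 : ((M.del {e}).con {b 0, b 1, b 2}).S = M.S \ {e, b 0, b 1, b 2} := by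
      ext x
      rw [hS0]
      simp only [mem_sdiff, mem_insert, mem_singleton, not_or]
    rw [h1, card_sdiff_of_subset, h4]
    · have h2 : ({e, b 0, b 1, b 2} : Finset E) ⊆ M.S := by
        intro x hx
        simp only [mem_insert, mem_singleton] at hx
        rcases hx with rfl | rfl | rfl | rfl
        · exact heS
        · exact hbS 0
        · exact hbS 1
        · exact hbS 2
      have h3 := card_le_card h2
      rw [h4] at h3
      omega
    · intro x hx
      simp only [mem_insert, mem_singleton] at hx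
      rcases hx with rfl | rfl | rfl | rfl
      · exact heS
      · exact hbS 0
      · exact hbS 1
      · exact hbS 2
  have himg : A.image π = univ := by
    rw [eq_univ_iff_forall]
    intro i
    obtain ⟨x, hx, hxi⟩ := hsurj i
    exact mem_image.mpr ⟨x, hx, hxi⟩
  have hA6 : 6 ≤ A.card := by
    have h1 : (A.image π).card ≤ A.card := card_image_le
    rw [himg] at h1
    simpa using h1
  have hAc := card_le_card hAS
  have hS10 : 10 ≤ M.S.card := by omega
  by_cases hc : 4 ≤ (M.S \ W7 e a b).card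
  · have h1 := exists_cycle_outside M.dual h.dual (W7 e a b) hW
      (by rw [BM.lam_dual]; exact TriT_lam K4 M h e a b hT (by omega)) hc
    obtain ⟨z, hz, hz0, hz1⟩ := h1
    rw [BM.dual_Z] at hz
    exact ⟨z, hz, hz0, hz1⟩
  · have hSW := card_sdiff_add_card_eq_card hW
    have hAeq : A = ((M.del {e}).con {b 0, b 1, b 2}).S :=
      eq_of_subset_of_card_le hAS (by omega)
    have hA6' : A.card = 6 := by rw [hAeq]; omega
    have hinj : Set.InjOn π A := by
      rw [← card_image_iff, himg, hA6']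
      rfl
    have hsum : ∀ g : Fin 6 → ZMod 2, ∑ j, g j = ∑ x ∈ A, g (π x) := by
      intro g
      rw [← himg, sum_image (fun x hx y hy hxy => hinj hx hy hxy)]
    have haA : ∀ i, a i ∈ A := by
      intro i
      rw [hAeq, hS0]
      exact ⟨haS i, (hea i).symm, hab i 0, hab i 1, hab i 2⟩
    have hTA : ({a 0, a 1, a 2} : Finset E) ⊆ A := by
      intro x hx
      simp only [mem_insert, mem_singleton] at hx
      rcases hx with rfl | rfl | rfl
      · exact haA 0
      · exact haA 1
      · exact haA 2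
    have hTc : ({a 0, a 1, a 2} : Finset E).card = 3 := by
      rw [card_insert_of_notMem, card_insert_of_notMem, card_singleton]
      · rw [mem_singleton]
        exact fun h1 => absurd (hai h1) (by decide)
      · simp only [mem_insert, mem_singleton, not_or]
        exact ⟨fun h1 => absurd (hai h1) (by decide), fun h1 => absurd (hai h1) (by decide)⟩
    have hsumT : ∀ f : E → ZMod 2, ∑ x ∈ ({a 0, a 1, a 2} : Finset E), f x =
        f (a 0) + f (a 1) + f (a 2) := by
      intro f
      rw [sum_insert, sum_insert, sum_singleton, add_assoc]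
      · rw [mem_singleton]
        exact fun h1 => absurd (hai h1) (by decide)
      · simp only [mem_insert, mem_singleton, not_or]
        exact ⟨fun h1 => absurd (hai h1) (by decide), fun h1 => absurd (hai h1) (by decide)⟩
    have hmem : ∀ f ∈ M.R, f (b 0) = 0 → f (b 1) = 0 → f (b 2) = 0 → f e = 0 := by
      intro f hf h0 h1 h2
      have h3 := hT.cycb f hf
      rw [h0, h1, h2] at h3
      simpa using h3
    have hcyc : ind {a 0, a 1, a 2} ∈ ((M.del {e}).con {b 0, b 1, b 2}).Z := by
      rw [BM.mem_Z]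
      refine ⟨fun x hx => ind_of_notMem (fun h1 => hx (hAeq ▸ hTA h1)), ?_⟩
      intro f hf
      rw [dot_ind, hsumT]
      rw [BM.mem_con, BM.mem_del'] at hf
      obtain ⟨⟨_, g, hg, hgf⟩, hb0⟩ := hf
      have hgb : ∀ i, g (b i) = f (b i) := fun i =>
        hgf _ (mem_sdiff.mpr ⟨hbS i, fun h1 => heb i (mem_singleton.mp h1).symm⟩)
      have hga : ∀ i, g (a i) = f (a i) := fun i =>
        hgf _ (mem_sdiff.mpr ⟨haS i, fun h1 => hea i (mem_singleton.mp h1).symm⟩)
      have hge := hmem g hg (by rw [hgb]; exact hb0 _ (by simp))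
        (by rw [hgb]; exact hb0 _ (by simp)) (by rw [hgb]; exact hb0 _ (by simp))
      have h1 := hT.cyca g hg
      rw [hge, zero_add, hga, hga, hga] at h1
      exact h1
    obtain ⟨w, hw1, hw2⟩ := (hsub (ind {a 0, a 1, a 2})
      (fun x hx => ind_of_notMem (fun h1 => hx (hTA h1)))).1 hcyc
    have hwsum : ∑ j, w j = 1 := by
      rw [hsum, ← sum_congr rfl hw2]
      rw [show ∑ x ∈ A, (ind {a 0, a 1, a 2} : E → ZMod 2) x =
        dot (ind {a 0, a 1, a 2}) (ind A) from (dot_ind _ _).symm, dot_ind_ind,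
        inter_eq_left.mpr hTA, hTc]
      decide
    have hrow : ind (A \ {a 0, a 1, a 2}) ∈ ((M.del {e}).con {b 0, b 1, b 2}).R := by
      rw [BM.mem_R_iff]
      refine ⟨fun x hx => ind_of_notMem (fun h1 => hx (hAeq ▸ (mem_sdiff.mp h1).1)), ?_⟩
      intro z hz
      have hzA : ∀ x, x ∉ A → z x = 0 := fun x hx => BM.Z_supp _ hz (hAeq ▸ hx)
      obtain ⟨w', hw1', hw2'⟩ := (hsub z hzA).1 hz
      rw [dot_eq_sum_right hzA, ← triOut_check hw1 hwsum hw1', hsum]
      apply sum_congr rfl
      intro x hx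
      rw [hw2' x hx, ← hw2 x hx]
      congr 1
      by_cases hxT : x ∈ ({a 0, a 1, a 2} : Finset E)
      · rw [ind_of_notMem (fun h1 => (mem_sdiff.mp h1).2 hxT), ind_of_mem hxT]
        decide
      · rw [ind_of_mem (mem_sdiff.mpr ⟨hx, hxT⟩), ind_of_notMem hxT]
        decide
    rw [BM.mem_con, BM.mem_del'] at hrow
    obtain ⟨⟨_, g, hg, hgf⟩, _⟩ := hrow
    have hgb : ∀ i, g (b i) = 0 := by
      intro i
      rw [hgf _ (mem_sdiff.mpr ⟨hbS i, fun h1 => heb i (mem_singleton.mp h1).symm⟩)]
      apply ind_of_notMem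
      intro h1
      have h2 := (mem_sdiff.mp h1).1
      rw [hAeq, hS0] at h2
      obtain ⟨_, _, h20, h21, h22⟩ := h2
      fin_cases i
      · exact h20 rfl
      · exact h21 rfl
      · exact h22 rfl
    have hga : ∀ i, g (a i) = 0 := by
      intro i
      rw [hgf _ (mem_sdiff.mpr ⟨haS i, fun h1 => hea i (mem_singleton.mp h1).symm⟩)]
      apply ind_of_notMem
      intro h1
      apply (mem_sdiff.mp h1).2
      fin_cases i <;> simp
    refine ⟨g, hg, ?_, ?_⟩
    · intro hg0
      have h1 : (A \ {a 0, a 1, a 2}).card = 3 := by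
        rw [card_sdiff_of_subset hTA, hTc, hA6']
      obtain ⟨x, hx⟩ := card_pos.mp (by omega : 0 < (A \ {a 0, a 1, a 2}).card)
      have hxA := (mem_sdiff.mp hx).1
      rw [hAeq, hS0] at hxA
      have h2 := hgf x (mem_sdiff.mpr ⟨hxA.1, fun h3 => hxA.2.1 (mem_singleton.mp h3)⟩)
      rw [hg0, ind_of_mem hx, Pi.zero_apply] at h2
      exact absurd h2 (by decide)
    · intro x hx
      simp only [W7, mem_insert, mem_union, mem_image, mem_univ, true_and] at hx
      rcases hx with rfl | ⟨i, rfl⟩ | ⟨i, rfl⟩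
      · exact hmem g hg (hgb 0) (hgb 1) (hgb 2)
      · exact hga i
      · exact hgb i

end SEY
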